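import Pool.Agent.Helper71_SP.TB
import Pool.Agent.Common_PrimeFourier.Fourier

set_option autoImplicit false

/-!
Discharging `FB` and `TB`.
-/

namespace Pool.Agent.Helper71_SP

open Finset

theorem fb : FB := by
  intro ε hε
  obtain ⟨w0, h0⟩ := Pool.Agent.PrimeFourier.exists_fourier_bound ε hε
  refine ⟨w0, fun w hw => ?_⟩
  obtain ⟨N0, h1⟩ := h0 w hw
  refine ⟨N0, fun N hN θ => ?_⟩
  refine le_trans (le_of_eq ?_) (h1 N hN θ)
  unfold Sf
  congr 1
  apply Finset.sum_congr rfl
  intro n _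
  have e1 : ((Ew w n : ℝ) : ℂ) = ((ArithmeticFunction.vonMangoldt n : ℂ)
      - (if Nat.Coprime n (primorial w) then
          ((((primorial w : ℝ) / (Nat.totient (primorial w) : ℝ)) : ℝ) : ℂ) else 0)) := by
    unfold Ew
    rw [Complex.ofReal_sub]
    congr 1
    split_ifs <;> simp
  have e2 : e (θ * n) = Complex.exp (2 * Real.pi * Complex.I * θ * n) := by
    unfold e
    congr 1
    push_cast
    ring
  simp only [e1, e2]

theorem tb (a b : ℤ) (ha : a ≠ 0) (hb : b ≠ 0) : TB a b := tb_of_fb fb a b ha hb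

end Pool.Agent.Helper71_SP
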