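import Pool.Agent.Helper71_SP.Level
import Pool.Agent.Common_PNT.PNT

set_option autoImplicit false

/-!
Constants: lower bound for the Euler product, integer roots, `L^1` defect for rough numbers.
-/

namespace Pool.Agent.Helper71_SP

open Finset Pool.Agent.Common_Sieve

/-- integer part of the `t`-th root -/
noncomputable def levk (H t : ℕ) : ℕ := ⌊(H : ℝ) ^ (1 / (t : ℝ))⌋₊

lemma levk_pow_le (H t : ℕ) (ht : 0 < t) : levk H t ^ t ≤ H := by
  have htr : (t : ℝ) ≠ 0 := by exact_mod_cast ht.ne'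
  have h1 : (levk H t : ℝ) ≤ (H : ℝ) ^ (1 / (t : ℝ)) := Nat.floor_le (by positivity)
  have h2 : (levk H t : ℝ) ^ t ≤ ((H : ℝ) ^ (1 / (t : ℝ))) ^ t :=
    pow_le_pow_left₀ (by positivity) h1 t
  rw [← Real.rpow_natCast ((H : ℝ) ^ (1 / (t : ℝ))), ← Real.rpow_mul (by positivity),
    one_div_mul_cancel htr, Real.rpow_one] at h2
  exact_mod_cast h2

lemma lt_levk_succ_pow (H t : ℕ) (ht : 0 < t) : H < (levk H t + 1) ^ t := by
  have htr : (t : ℝ) ≠ 0 := by exact_mod_cast ht.ne'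
  have h1 : (H : ℝ) ^ (1 / (t : ℝ)) < (levk H t : ℝ) + 1 := Nat.lt_floor_add_one _
  have h2 : ((H : ℝ) ^ (1 / (t : ℝ))) ^ t < ((levk H t : ℝ) + 1) ^ t :=
    pow_lt_pow_left₀ h1 (by positivity) ht.ne'
  rw [← Real.rpow_natCast ((H : ℝ) ^ (1 / (t : ℝ))), ← Real.rpow_mul (by positivity),
    one_div_mul_cancel htr, Real.rpow_one] at h2
  exact_mod_cast h2

lemma le_levk (H t w : ℕ) (ht : 0 < t) (h : w ^ t ≤ H) : w ≤ levk H t := by
  by_contra hlt
  have h1 : levk H t + 1 ≤ w := by omega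
  have h2 := Nat.pow_le_pow_left h1 t
  have h3 := lt_levk_succ_pow H t ht
  omega

lemma log_le_levk (H t : ℕ) (ht : 0 < t) (h2 : 2 ≤ levk H t) :
    Real.log H ≤ 2 * t * Real.log (levk H t) := by
  have h3 : (levk H t + 1) ≤ levk H t ^ 2 := by nlinarith
  have h1 := lt_levk_succ_pow H t ht
  have hH0 : 0 < H := (pow_pos (show 0 < levk H t by omega) t).trans_le (levk_pow_le H t ht)
  have hH0' : (0:ℝ) < H := by exact_mod_cast hH0
  have h4 : H ≤ levk H t ^ (2 * t) := by
    calc H ≤ (levk H t + 1) ^ t := h1.le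
      _ ≤ (levk H t ^ 2) ^ t := Nat.pow_le_pow_left h3 _
      _ = levk H t ^ (2 * t) := by rw [← pow_mul]
  have h6 : (H : ℝ) ≤ (levk H t : ℝ) ^ (2 * t) := by exact_mod_cast h4
  have := Real.log_le_log hH0' h6
  rw [Real.log_pow] at this
  push_cast at this
  exact this

lemma one_sub_ge_exp2 {x : ℝ} (h0 : 0 ≤ x) (h1 : x ≤ 1 / 2) : Real.exp (-(2 * x)) ≤ 1 - x := by
  have h2 : 1 + 2 * x ≤ Real.exp (2 * x) := by linarith [Real.add_one_le_exp (2 * x)]
  have h3 : Real.exp (-(2 * x)) = 1 / Real.exp (2 * x) := by rw [Real.exp_neg, one_div]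
  rw [h3, div_le_iff₀ (Real.exp_pos _)]
  have h4 : (1 - x) * (1 + 2 * x) ≤ (1 - x) * Real.exp (2 * x) :=
    mul_le_mul_of_nonneg_left h2 (by linarith)
  nlinarith

/-- lower bound for the Euler product -/
theorem Vp_lower : ∃ C : ℝ, 0 < C ∧ ∀ w : ℕ, 2 ≤ w → 1 / Vp w ≤ C * Real.log (w + 1) ^ 2 := by
  obtain ⟨C, hC⟩ := Common_Mertens.sum_inv_le
  refine ⟨Real.exp (2 * C), Real.exp_pos _, ?_⟩
  intro w hw
  have h1 : Real.exp (-(2 * ∑ p ∈ w.primesBelow, (1:ℝ) / p)) ≤ Vp w := by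
    unfold Vp
    rw [Finset.mul_sum, ← Finset.sum_neg_distrib, Real.exp_sum]
    apply Finset.prod_le_prod
    · intro p _; positivity
    · intro p hp
      have h2 := (Nat.prime_of_mem_primesBelow hp).two_le
      have h3 : (2:ℝ) ≤ p := by exact_mod_cast h2
      apply one_sub_ge_exp2 (by positivity)
      rw [div_le_div_iff₀ (by linarith) (by norm_num)]
      linarith
  have h2 : ∑ p ∈ w.primesBelow, (1:ℝ) / p ≤ Real.log (Real.log (w + 1)) + C := by
    refine le_trans ?_ (hC w (by omega))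
    apply Finset.sum_le_sum_of_subset_of_nonneg
    · intro p hp
      rw [Nat.mem_primesBelow] at hp
      rw [Nat.mem_primesLE]
      exact ⟨hp.1.le, hp.2⟩
    · intro p _ _; positivity
  have hlog : 0 < Real.log ((w : ℝ) + 1) := by
    apply Real.log_pos
    have : (2:ℝ) ≤ w := by exact_mod_cast hw
    linarith
  have h3 : Real.exp (-(2 * (Real.log (Real.log (w + 1)) + C))) ≤ Vp w := by
    refine le_trans ?_ h1
    rw [Real.exp_le_exp]
    linarith
  have h4 : Real.exp (-(2 * (Real.log (Real.log (w + 1)) + C)))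
      = 1 / (Real.exp (2 * C) * Real.log (w + 1) ^ 2) := by
    have : Real.log ((w : ℝ) + 1) ^ 2 = Real.exp (2 * Real.log (Real.log (w + 1))) := by
      rw [show (2 : ℝ) * Real.log (Real.log (w + 1)) = Real.log (Real.log (w + 1)) + Real.log (Real.log (w + 1)) by ring]
      rw [Real.exp_add, Real.exp_log hlog, pow_two]
    rw [this, ← Real.exp_add, one_div, ← Real.exp_neg]
    congr 1; ring
  rw [h4] at h3
  rw [div_le_iff₀ (Vp_pos w)]
  rw [div_le_iff₀ (by positivity)] at h3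
  linarith

lemma Vp_anti {w z : ℕ} (h : w ≤ z) : Vp z ≤ Vp w := by
  unfold Vp
  apply prod_le_prod_subset
  · intro p hp
    rw [Nat.mem_primesBelow] at hp ⊢
    exact ⟨by omega, hp.2⟩
  · intro p hp
    exact (one_sub_inv_pos (Nat.prime_of_mem_primesBelow hp)).le
  · intro p _
    exact one_sub_inv_le p

lemma Vp_le (w : ℕ) (hw : 2 ≤ w) : Vp w ≤ 1 / Real.log w := mertens_prod w hw

/-- `L^1` defect for rough numbers up to `N` -/
theorem rough_defect (w B N : ℕ) (hw : 2 ≤ w) :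
    ∑ n ∈ Finset.Icc 1 N, (Ufun w w.primesBelow B (dvi n) - rough w n)
      ≤ N * Vp w * (epsB B * Real.exp (epsB B)) + w * (w : ℝ) ^ (8 * B + 12) := by
  have hSp : ∀ p ∈ w.primesBelow, p.Prime := fun p hp => Nat.prime_of_mem_primesBelow hp
  have hdata : Data w w.primesBelow (fun p => (1:ℝ) / p) :=
    ⟨by omega, hSp, fun p hp => (Nat.mem_primesBelow.1 hp).1, fun p => by positivity,
      fun p hp => by
        have : (2:ℝ) ≤ p := by exact_mod_cast (hSp p hp).two_le
        rw [div_le_iff₀ (by linarith)]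
        linarith,
      fun p hp => by
        apply div_le_div_of_nonneg_right (by norm_num) (by positivity)⟩
  refine defect hdata (Finset.Icc 1 N) (fun n => dvi n) (fun n _ => dvi_isInd n) (N : ℝ)
    (by positivity) B ?_
  intro D hD
  have hDp : ∀ p ∈ D, p.Prime := fun p hp => hSp p (hD hp)
  have hd0 : 0 < pr D := Finset.prod_pos (fun p hp => (hDp p hp).pos)
  have h1 : ∑ n ∈ Finset.Icc 1 N, ∏ p ∈ D, dvi n p = ((N / pr D : ℕ) : ℝ) := by
    rw [Finset.sum_congr rfl (fun n _ => prod_dvi hDp n)]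
    rw [← Nat.Ioc_filter_dvd_card_eq_div N (pr D), Finset.card_filter]
    push_cast
    rw [show Finset.Icc 1 N = Finset.Ioc 0 N by ext; simp [Finset.mem_Icc, Finset.mem_Ioc]; omega]
  have h2 : (N : ℝ) * ∏ p ∈ D, (1:ℝ) / p = (N : ℝ) / pr D := by
    unfold pr
    push_cast
    rw [Finset.prod_div_distrib, Finset.prod_const_one]
    ring
  rw [h1, h2]
  have h3 : |((N / pr D : ℕ) : ℝ) - (N : ℝ) / pr D| ≤ 1 := by
    have hdr : (0:ℝ) < pr D := by exact_mod_cast hd0
    rw [abs_le]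
    constructor
    · have := Nat.lt_div_mul_add (a := N) hd0
      have h4 : (N : ℝ) < (N / pr D : ℕ) * pr D + pr D := by exact_mod_cast this
      rw [neg_le_sub_iff_le_add, div_le_iff₀ hdr]
      nlinarith
    · have h5 : ((N / pr D : ℕ) : ℝ) ≤ (N : ℝ) / pr D := Nat.cast_div_le
      linarith
  exact h3.trans (one_le_pow₀ (by norm_num))

/-- `∑_{p ≤ N} log N ≤ 2 N` for large `N` -/
theorem primes_mass : ∃ N0 : ℕ, ∀ N ≥ N0,
    ∑ n ∈ Finset.Icc 1 N, (if n.Prime then Real.log N else 0) ≤ 2 * N := by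
  have h1 := Common_PNT.tendsto_primeCounting.comp tendsto_natCast_atTop_atTop
  have h2 := h1.eventually (gt_mem_nhds (show (1:ℝ) < 2 by norm_num))
  obtain ⟨N1, hN1⟩ := (h2.and (Filter.eventually_ge_atTop 2)).exists_forall_of_atTop
  refine ⟨N1, ?_⟩
  intro N hN
  obtain ⟨h3, h4⟩ := hN1 N hN
  simp only [Function.comp_apply, Nat.floor_natCast] at h3
  have hNr : (2:ℝ) ≤ N := by exact_mod_cast h4
  have hlog : 0 < Real.log N := Real.log_pos (by linarith)
  rw [div_lt_iff₀ (by positivity)] at h3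
  have h5 : ∑ n ∈ Finset.Icc 1 N, (if n.Prime then Real.log N else 0)
      = (Nat.primeCounting N : ℝ) * Real.log N := by
    rw [← Finset.sum_filter, Finset.sum_const, nsmul_eq_mul]
    congr 2
    rw [Nat.primeCounting, Nat.primeCounting', Nat.count_eq_card_filter_range]
    congr 1
    ext p
    simp only [Finset.mem_filter, Finset.mem_Icc, Finset.mem_range]
    constructor
    · rintro ⟨⟨_, h6⟩, h7⟩; exact ⟨by omega, h7⟩
    · rintro ⟨h6, h7⟩; exact ⟨⟨h7.one_le, by omega⟩, h7⟩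
  rw [h5]
  have h6 := mul_le_mul_of_nonneg_right h3.le hlog.le
  calc _ ≤ _ := h6
    _ = 2 * N := by field_simp

end Pool.Agent.Helper71_SP
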