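import Mathlib

set_option autoImplicit false

/-!
Additive characters, geometric sums and Fourier transforms of short divisor sums.
-/

namespace Pool.Agent.Helper71_SP

open Finset

/-- `e(x) = exp(2 pi i x)` -/
noncomputable def e (x : ℝ) : ℂ := Complex.exp (2 * Real.pi * Complex.I * x)

lemma e_add (x y : ℝ) : e (x + y) = e x * e y := by
  unfold e; rw [← Complex.exp_add]; congr 1; push_cast; ring

lemma e_zero : e 0 = 1 := by unfold e; simp

lemma norm_e (x : ℝ) : ‖e x‖ = 1 := by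
  unfold e
  have : (2 * Real.pi * Complex.I * x : ℂ) = ((2 * Real.pi * x : ℝ) : ℂ) * Complex.I := by
    push_cast; ring
  rw [this, Complex.norm_exp_ofReal_mul_I]

lemma e_int (n : ℤ) : e n = 1 := by
  unfold e
  rw [Complex.exp_eq_one_iff]
  exact ⟨n, by push_cast; ring⟩

lemma e_nat (n : ℕ) : e n = 1 := by exact_mod_cast e_int n

lemma e_add_int (x : ℝ) (n : ℤ) : e (x + n) = e x := by rw [e_add, e_int, mul_one]

lemma e_nat_mul (n : ℕ) (x : ℝ) : e (n * x) = e x ^ n := by
  induction n with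
  | zero => simp [e_zero]
  | succ n ih => push_cast; rw [add_mul, one_mul, e_add, ih, pow_succ]

lemma e_neg (x : ℝ) : e (-x) = (starRingEnd ℂ) (e x) := by
  unfold e
  rw [← Complex.exp_conj]
  congr 1
  simp only [map_mul, Complex.conj_ofReal, Complex.conj_I, map_ofNat]
  push_cast
  ring

lemma norm_e_sub_one (x : ℝ) : ‖e x - 1‖ = 2 * |Real.sin (Real.pi * x)| := by
  have h := Complex.norm_exp_I_mul_ofReal_sub_one (2 * Real.pi * x)
  have h1 : Complex.exp (Complex.I * ((2 * Real.pi * x : ℝ) : ℂ)) = e x := by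
    unfold e; congr 1; push_cast; ring
  rw [h1] at h
  rw [h, norm_mul, Real.norm_eq_abs, Real.norm_eq_abs]
  rw [abs_of_pos (by norm_num : (0:ℝ) < 2)]
  congr 3
  ring

lemma norm_e_sub_one_le (x : ℝ) : ‖e x - 1‖ ≤ 2 * Real.pi * |x| := by
  rw [norm_e_sub_one]
  have h := Real.abs_sin_le_abs (x := Real.pi * x)
  rw [abs_mul, abs_of_pos Real.pi_pos] at h
  linarith

lemma norm_e_sub_e_le (x y : ℝ) : ‖e x - e y‖ ≤ 2 * Real.pi * |x - y| := by
  have h : e x - e y = (e (x - y) - 1) * e y := by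
    rw [sub_mul, one_mul, ← e_add, sub_add_cancel]
  rw [h, norm_mul, norm_e, mul_one]
  exact norm_e_sub_one_le _

/-- `‖e(s/q) - 1‖ ≥ 4/q` for `q ∤ s`. -/
lemma norm_e_div_sub_one_ge (s : ℤ) (q : ℕ) (hq : 0 < q) (h : ¬ (q : ℤ) ∣ s) :
    4 / (q : ℝ) ≤ ‖e ((s : ℝ) / q) - 1‖ := by
  have hqr : (0:ℝ) < q := by exact_mod_cast hq
  -- reduce to `0 < s < q`
  set t := s % q with ht
  have ht0 : 0 ≤ t := Int.emod_nonneg _ (by exact_mod_cast hq.ne')
  have htq : t < q := Int.emod_lt_of_pos _ (by exact_mod_cast hq)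
  have ht1 : 1 ≤ t := by
    rcases lt_or_ge t 1 with h1 | h1
    · exfalso
      apply h
      apply Int.dvd_of_emod_eq_zero
      omega
    · exact h1
  have hs : (s : ℝ) / q = (t : ℝ) / q + ((s / q : ℤ) : ℝ) := by
    have h2 : s = t + q * (s / q) := by
      have := Int.emod_add_mul_ediv s q
      linarith
    have h3 : (s : ℝ) = t + q * ((s / q : ℤ) : ℝ) := by exact_mod_cast h2
    field_simp
    linarith
  rw [hs, e_add_int, norm_e_sub_one]
  have hx0 : (1:ℝ) / q ≤ (t : ℝ) / q := by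
    apply div_le_div_of_nonneg_right _ hqr.le
    exact_mod_cast ht1
  have hx1 : (t : ℝ) / q ≤ 1 - 1 / q := by
    rw [div_le_iff₀ hqr, sub_mul, one_mul, div_mul_cancel₀ _ hqr.ne']
    have : t ≤ (q : ℤ) - 1 := by omega
    exact_mod_cast this
  set x := (t : ℝ) / q with hx
  have hpi := Real.pi_pos
  have hinv : (0:ℝ) < 1 / q := by positivity
  have key : 2 * (1 / (q:ℝ)) ≤ |Real.sin (Real.pi * x)| := by
    rcases le_or_gt x (1 / 2) with h1 | h1
    · have h2 := Real.mul_le_sin (x := Real.pi * x) (by positivity) (by nlinarith)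
      have h3 : 2 / Real.pi * (Real.pi * x) = 2 * x := by field_simp
      rw [h3] at h2
      refine le_trans ?_ (le_abs_self _)
      linarith
    · have h2 := Real.mul_le_sin (x := Real.pi * (1 - x))
        (mul_nonneg hpi.le (by linarith)) (by nlinarith)
      have h3 : 2 / Real.pi * (Real.pi * (1 - x)) = 2 * (1 - x) := by field_simp
      have h4 : Real.sin (Real.pi * (1 - x)) = Real.sin (Real.pi * x) := by
        rw [mul_sub, mul_one, Real.sin_pi_sub]
      rw [h3, h4] at h2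
      refine le_trans ?_ (le_abs_self _)
      linarith
  calc 4 / (q:ℝ) = 2 * (2 * (1 / (q:ℝ))) := by ring
    _ ≤ _ := mul_le_mul_of_nonneg_left key (by norm_num)

lemma norm_geom_le (z : ℂ) (hz : ‖z‖ = 1) (c : ℝ) (hc : 0 < c) (h : c ≤ ‖z - 1‖) (L : ℕ) :
    ‖∑ m ∈ range L, z ^ m‖ ≤ 2 / c := by
  have hz1 : z ≠ 1 := by
    intro h1
    rw [h1, sub_self, norm_zero] at h
    linarith
  rw [geom_sum_eq hz1, norm_div]
  have h1 : ‖z ^ L - 1‖ ≤ 2 := by
    calc ‖z ^ L - 1‖ ≤ ‖z ^ L‖ + ‖(1:ℂ)‖ := norm_sub_le _ _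
      _ = 2 := by rw [norm_pow, hz]; norm_num
  calc ‖z ^ L - 1‖ / ‖z - 1‖ ≤ 2 / c := by
        apply div_le_div₀ (by norm_num) h1 hc h

lemma norm_geom_Icc_le (φ : ℝ) (c : ℝ) (hc : 0 < c) (h : c ≤ ‖e φ - 1‖) (L : ℕ) :
    ‖∑ m ∈ Finset.Icc 1 L, e (m * φ)‖ ≤ 2 / c := by
  have h1 : ∑ m ∈ Finset.Icc 1 L, e (m * φ) = e φ * ∑ m ∈ range L, e φ ^ m := by
    rw [Finset.mul_sum]
    rw [show Finset.Icc 1 L = Finset.Ico (0 + 1) (L + 1) by ext; simp [Finset.mem_Icc, Finset.mem_Ico]]
    rw [← Finset.sum_Ico_add']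
    rw [← Finset.range_eq_Ico]
    apply Finset.sum_congr rfl
    intro m _
    rw [e_nat_mul, pow_succ]
    ring
  rw [h1, norm_mul, norm_e, one_mul]
  exact norm_geom_le _ (norm_e φ) c hc h L

/-- sum over multiples of `d` -/
lemma sum_multiples (N d : ℕ) (hd : 0 < d) (f : ℕ → ℂ) :
    ∑ n ∈ (Finset.Icc 1 N).filter (fun n => d ∣ n), f n = ∑ m ∈ Finset.Icc 1 (N / d), f (d * m) := by
  symm
  refine Finset.sum_nbij' (fun m => d * m) (fun n => n / d) ?_ ?_ ?_ ?_ ?_
  · intro m hm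
    rw [Finset.mem_Icc] at hm
    rw [Finset.mem_filter, Finset.mem_Icc]
    refine ⟨⟨Nat.mul_pos hd (by omega), ?_⟩, Dvd.intro m rfl⟩
    calc d * m ≤ d * (N / d) := Nat.mul_le_mul_left d hm.2
      _ ≤ N := Nat.mul_div_le N d
  · intro n hn
    rw [Finset.mem_filter, Finset.mem_Icc] at hn
    rw [Finset.mem_Icc]
    exact ⟨Nat.div_pos (Nat.le_of_dvd (by omega) hn.2) hd, Nat.div_le_div_right hn.1.2⟩
  · intro m _
    exact Nat.mul_div_cancel_left m hd
  · intro n hn
    rw [Finset.mem_filter] at hn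
    exact Nat.mul_div_cancel' hn.2
  · intro m _; rfl

/-- comparison of the sum over multiples of `d` with the full sum -/
lemma multiples_compare (N d : ℕ) (hd : 0 < d) (β : ℝ) :
    ‖∑ m ∈ Finset.Icc 1 (N / d), e (β * ((d * m : ℕ) : ℝ))
      - (1 / (d : ℂ)) * ∑ n ∈ Finset.Icc 1 N, e (β * n)‖ ≤ 2 * Real.pi * |β| * N + 1 := by
  have hdr : (0:ℝ) < d := by exact_mod_cast hd
  have hdc : (d : ℂ) ≠ 0 := by exact_mod_cast hd.ne'
  set L := N / d with hL
  -- decompose `Icc 1 N`
  have h1 : ∑ n ∈ Finset.Icc 1 N, e (β * n)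
      = ∑ m ∈ Finset.Icc 1 L, ∑ i ∈ range d, e (β * ((d * m - i : ℕ) : ℝ))
        + ∑ n ∈ Finset.Ioc (d * L) N, e (β * n) := by
    have h2 : Finset.Icc 1 N = Finset.Ioc 0 N := by ext; simp [Finset.mem_Icc, Finset.mem_Ioc]; omega
    have h3 : ∀ K : ℕ, ∑ n ∈ Finset.Ioc 0 (d * K), e (β * n)
        = ∑ m ∈ Finset.Icc 1 K, ∑ i ∈ range d, e (β * ((d * m - i : ℕ) : ℝ)) := by
      intro K
      induction K with
      | zero => simp
      | succ K ih =>
        rw [Finset.sum_Icc_succ_top (by omega), ← ih]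
        rw [← Finset.sum_Ioc_consecutive (fun n : ℕ => e (β * n)) (Nat.zero_le (d * K))
          (show d * K ≤ d * (K + 1) by exact Nat.mul_le_mul_left d (Nat.le_succ K))]
        congr 1
        refine Finset.sum_nbij' (fun n => d * (K + 1) - n) (fun i => d * (K + 1) - i) ?_ ?_ ?_ ?_ ?_
        · intro n hn
          rw [Finset.mem_Ioc] at hn
          rw [Finset.mem_range]
          have : d * (K + 1) = d * K + d := by ring
          omega
        · intro i hi
          rw [Finset.mem_range] at hi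
          rw [Finset.mem_Ioc]
          have : d * (K + 1) = d * K + d := by ring
          omega
        · intro n hn
          rw [Finset.mem_Ioc] at hn
          omega
        · intro i hi
          rw [Finset.mem_range] at hi
          have : d * (K + 1) = d * K + d := by ring
          omega
        · intro n hn
          rw [Finset.mem_Ioc] at hn
          congr 3
          omega
    rw [h2, ← h3 L]
    rw [Finset.sum_Ioc_consecutive (fun n : ℕ => e (β * n)) (Nat.zero_le (d * L))]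
    exact Nat.mul_div_le N d
  have h4 : ∑ m ∈ Finset.Icc 1 L, e (β * ((d * m : ℕ) : ℝ))
      - (1 / (d : ℂ)) * ∑ n ∈ Finset.Icc 1 N, e (β * n)
      = (1 / (d : ℂ)) * (∑ m ∈ Finset.Icc 1 L, ∑ i ∈ range d,
          (e (β * ((d * m : ℕ) : ℝ)) - e (β * ((d * m - i : ℕ) : ℝ)))
        - ∑ n ∈ Finset.Ioc (d * L) N, e (β * n)) := by
    rw [h1]
    have h5 : ∑ m ∈ Finset.Icc 1 L, ∑ i ∈ range d,
          (e (β * ((d * m : ℕ) : ℝ)) - e (β * ((d * m - i : ℕ) : ℝ)))
        = (d : ℂ) * ∑ m ∈ Finset.Icc 1 L, e (β * ((d * m : ℕ) : ℝ))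
          - ∑ m ∈ Finset.Icc 1 L, ∑ i ∈ range d, e (β * ((d * m - i : ℕ) : ℝ)) := by
      rw [Finset.mul_sum, ← Finset.sum_sub_distrib]
      apply Finset.sum_congr rfl
      intro m _
      rw [Finset.sum_sub_distrib, Finset.sum_const, Finset.card_range, nsmul_eq_mul]
    rw [h5]
    field_simp
    ring
  rw [h4, norm_mul, norm_div, norm_one, Complex.norm_natCast]
  have h6 : ‖∑ m ∈ Finset.Icc 1 L, ∑ i ∈ range d,
          (e (β * ((d * m : ℕ) : ℝ)) - e (β * ((d * m - i : ℕ) : ℝ)))‖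
      ≤ L * (d * (2 * Real.pi * |β| * d)) := by
    refine (norm_sum_le _ _).trans ?_
    have h7 : ∀ m ∈ Finset.Icc 1 L, ‖∑ i ∈ range d,
          (e (β * ((d * m : ℕ) : ℝ)) - e (β * ((d * m - i : ℕ) : ℝ)))‖
        ≤ d * (2 * Real.pi * |β| * d) := by
      intro m hm
      rw [Finset.mem_Icc] at hm
      refine (norm_sum_le _ _).trans ?_
      have h8 : ∀ i ∈ range d, ‖e (β * ((d * m : ℕ) : ℝ)) - e (β * ((d * m - i : ℕ) : ℝ))‖
          ≤ 2 * Real.pi * |β| * d := by
        intro i hi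
        rw [Finset.mem_range] at hi
        refine (norm_e_sub_e_le _ _).trans ?_
        have h9 : i ≤ d * m := by
          calc i ≤ d * 1 := by omega
            _ ≤ d * m := Nat.mul_le_mul_left d hm.1
        rw [Nat.cast_sub h9]
        rw [show β * ((d * m : ℕ) : ℝ) - β * (((d * m : ℕ) : ℝ) - (i : ℝ)) = β * i by ring,
          abs_mul, Nat.abs_cast]
        have h10 : (i : ℝ) ≤ d := by exact_mod_cast hi.le
        have h11 : 0 ≤ 2 * Real.pi * |β| := by positivity
        nlinarith [mul_le_mul_of_nonneg_left h10 h11]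
      refine (Finset.sum_le_sum h8).trans ?_
      rw [Finset.sum_const, Finset.card_range, nsmul_eq_mul]
    refine (Finset.sum_le_sum h7).trans ?_
    rw [Finset.sum_const, Nat.card_Icc, nsmul_eq_mul]
    simp
  have h12 : ‖∑ n ∈ Finset.Ioc (d * L) N, e (β * n)‖ ≤ d := by
    refine (norm_sum_le _ _).trans ?_
    have : ∀ n ∈ Finset.Ioc (d * L) N, ‖e (β * n)‖ ≤ 1 := fun n _ => (norm_e _).le
    refine (Finset.sum_le_sum this).trans ?_
    rw [Finset.sum_const, Nat.card_Ioc, nsmul_eq_mul, mul_one]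
    have h13 : N - d * L ≤ d := by
      have := Nat.mod_add_div N d
      have h14 := Nat.mod_lt N hd
      rw [← hL] at this
      omega
    exact_mod_cast h13
  have h15 : (L : ℝ) * d ≤ N := by
    have := Nat.div_mul_le_self N d
    rw [← hL] at this
    exact_mod_cast this
  calc 1 / (d : ℝ) * ‖_‖ ≤ 1 / (d : ℝ) * (L * (d * (2 * Real.pi * |β| * d)) + d) := by
        apply mul_le_mul_of_nonneg_left _ (by positivity)
        exact (norm_sub_le _ _).trans (add_le_add h6 h12)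
    _ = (L * d) * (2 * Real.pi * |β|) + 1 := by field_simp
    _ ≤ N * (2 * Real.pi * |β|) + 1 := by
        have : 0 ≤ 2 * Real.pi * |β| := by positivity
        nlinarith [mul_le_mul_of_nonneg_right h15 this]
    _ = _ := by ring

end Pool.Agent.Helper71_SP
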