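import Pool.Agent.Helper71_SP.Weights

set_option autoImplicit false

/-!
Large values of exponential sums with majorised coefficients (abstract form).
-/

namespace Pool.Agent.Helper71_SP

open Finset

/-- exponential sum -/
noncomputable def Sf (u : ℕ → ℂ) (N : ℕ) (θ : ℝ) : ℂ := ∑ n ∈ Finset.Icc 1 N, u n * e (θ * n)

lemma sum_e_range (M : ℕ) (hM : 0 < M) (a : ℤ) :
    ∑ n ∈ Finset.Icc 1 M, e ((a : ℝ) / M * n) = if (M : ℤ) ∣ a then (M : ℂ) else 0 := by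
  have hMr : (M : ℝ) ≠ 0 := by exact_mod_cast hM.ne'
  by_cases h : (M : ℤ) ∣ a
  · rw [if_pos h]
    obtain ⟨t, rfl⟩ := h
    have h1 : ∀ n ∈ Finset.Icc 1 M, e ((((M : ℤ) * t : ℤ) : ℝ) / M * n) = 1 := by
      intro n _
      have : (((M : ℤ) * t : ℤ) : ℝ) / M * n = ((t * n : ℤ) : ℝ) := by
        push_cast; field_simp
      rw [this, e_int]
    rw [Finset.sum_congr rfl h1]
    simp
  · rw [if_neg h]
    have h1 : ∑ n ∈ Finset.Icc 1 M, e ((a : ℝ) / M * n)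
        = e ((a : ℝ) / M) * ∑ n ∈ range M, e ((a : ℝ) / M) ^ n := by
      rw [Finset.mul_sum]
      rw [show Finset.Icc 1 M = Finset.Ico (0 + 1) (M + 1) by ext; simp [Finset.mem_Icc, Finset.mem_Ico]]
      rw [← Finset.sum_Ico_add', ← Finset.range_eq_Ico]
      apply Finset.sum_congr rfl
      intro m _
      rw [mul_comm ((a : ℝ) / M), e_nat_mul, pow_succ]
      ring
    have h2 := norm_e_div_sub_one_ge a M hM h
    have hne : e ((a : ℝ) / M) ≠ 1 := by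
      intro h3
      rw [h3, sub_self, norm_zero] at h2
      have : (0:ℝ) < 4 / M := by positivity
      linarith
    rw [h1, geom_sum_eq hne, ← e_nat_mul]
    have : (M : ℝ) * ((a : ℝ) / M) = ((a : ℤ) : ℝ) := by field_simp
    rw [this, e_int, sub_self, zero_div, mul_zero]

lemma normSq_sum_eq (R : Finset ℕ) (c : ℕ → ℂ) (M n : ℕ) :
    ((‖∑ r ∈ R, c r * e ((r : ℝ) / M * n)‖ ^ 2 : ℝ) : ℂ)
      = ∑ r ∈ R, ∑ s ∈ R, c r * (starRingEnd ℂ) (c s) * e ((((r : ℤ) - (s : ℤ) : ℤ) : ℝ) / M * n) := by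
  rw [← Complex.normSq_eq_norm_sq, ← Complex.mul_conj, map_sum, Finset.sum_mul_sum]
  apply Finset.sum_congr rfl
  intro r _
  apply Finset.sum_congr rfl
  intro s _
  rw [map_mul, ← e_neg]
  have : e ((((r : ℤ) - (s : ℤ) : ℤ) : ℝ) / M * n) = e ((r : ℝ) / M * n) * e (-((s : ℝ) / M * n)) := by
    rw [← e_add]; congr 1; push_cast; ring
  rw [this]; ring

/-- Parseval, for a set of frequencies -/
lemma parseval_freq (R : Finset ℕ) (c : ℕ → ℂ) (M N : ℕ) (hM : 0 < M) (hNM : N ≤ M)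
    (hR : R ⊆ range M) :
    ∑ n ∈ Finset.Icc 1 N, ‖∑ r ∈ R, c r * e ((r : ℝ) / M * n)‖ ^ 2 ≤ M * ∑ r ∈ R, ‖c r‖ ^ 2 := by
  have h1 : ∑ n ∈ Finset.Icc 1 N, ‖∑ r ∈ R, c r * e ((r : ℝ) / M * n)‖ ^ 2
      ≤ ∑ n ∈ Finset.Icc 1 M, ‖∑ r ∈ R, c r * e ((r : ℝ) / M * n)‖ ^ 2 := by
    apply Finset.sum_le_sum_of_subset_of_nonneg
    · exact Finset.Icc_subset_Icc_right hNM
    · intro n _ _; positivity
  refine h1.trans (le_of_eq ?_)
  have h2 : ((∑ n ∈ Finset.Icc 1 M, ‖∑ r ∈ R, c r * e ((r : ℝ) / M * n)‖ ^ 2 : ℝ) : ℂ)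
      = ((M * ∑ r ∈ R, ‖c r‖ ^ 2 : ℝ) : ℂ) := by
    rw [Complex.ofReal_sum]
    rw [Finset.sum_congr rfl (fun n _ => normSq_sum_eq R c M n)]
    rw [Finset.sum_comm]
    rw [Finset.sum_congr rfl (fun r _ => Finset.sum_comm)]
    have h3 : ∀ r ∈ R, ∀ s ∈ R, ∑ n ∈ Finset.Icc 1 M,
        c r * (starRingEnd ℂ) (c s) * e ((((r : ℤ) - (s : ℤ) : ℤ) : ℝ) / M * n)
        = if r = s then (M : ℂ) * (‖c r‖ ^ 2 : ℝ) else 0 := by
      intro r hr s hs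
      rw [← Finset.mul_sum, sum_e_range M hM]
      have hr' := Finset.mem_range.1 (hR hr)
      have hs' := Finset.mem_range.1 (hR hs)
      by_cases hrs : r = s
      · subst hrs
        rw [if_pos (by simp), if_pos rfl, Complex.mul_conj, Complex.normSq_eq_norm_sq]
        push_cast; ring
      · rw [if_neg, if_neg hrs, mul_zero]
        intro hd
        obtain ⟨t, ht⟩ := hd
        have h4 : t = 0 := by
          by_contra h0
          rcases lt_or_gt_of_ne h0 with h | h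
          · have : (M : ℤ) * t ≤ -M := by nlinarith
            omega
          · have : (M : ℤ) ≤ M * t := by nlinarith
            omega
        rw [h4, mul_zero] at ht
        omega
    have h5 : ∀ r ∈ R, ∑ s ∈ R, ∑ n ∈ Finset.Icc 1 M,
        c r * (starRingEnd ℂ) (c s) * e ((((r : ℤ) - (s : ℤ) : ℤ) : ℝ) / M * n)
        = (M : ℂ) * (‖c r‖ ^ 2 : ℝ) := by
      intro r hr
      rw [Finset.sum_congr rfl (fun s hs => h3 r hr s hs), Finset.sum_ite_eq]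
      simp [hr]
    rw [Finset.sum_congr rfl h5]
    push_cast
    rw [Finset.mul_sum]
  exact_mod_cast h2

/-- Parseval for an exponential sum -/
lemma parseval (u : ℕ → ℂ) (M N : ℕ) (hM : 0 < M) (hNM : N ≤ M) :
    ∑ r ∈ range M, ‖Sf u N ((r : ℝ) / M)‖ ^ 2 = M * ∑ n ∈ Finset.Icc 1 N, ‖u n‖ ^ 2 := by
  have h1 : ∀ r ∈ range M, ((‖Sf u N ((r : ℝ) / M)‖ ^ 2 : ℝ) : ℂ)
      = ∑ n ∈ Finset.Icc 1 N, ∑ m ∈ Finset.Icc 1 N,
        u n * (starRingEnd ℂ) (u m) * e ((((n : ℤ) - (m : ℤ) : ℤ) : ℝ) / M * r) := by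
    intro r _
    unfold Sf
    rw [← Complex.normSq_eq_norm_sq, ← Complex.mul_conj, map_sum, Finset.sum_mul_sum]
    apply Finset.sum_congr rfl
    intro n _
    apply Finset.sum_congr rfl
    intro m _
    rw [map_mul, ← e_neg]
    have : e ((((n : ℤ) - (m : ℤ) : ℤ) : ℝ) / M * r) = e ((r : ℝ) / M * n) * e (-((r : ℝ) / M * m)) := by
      rw [← e_add]; congr 1; push_cast; ring
    rw [this]; ring
  have hshift : ∀ a : ℤ, ∑ r ∈ range M, e ((a : ℝ) / M * r) = if (M : ℤ) ∣ a then (M : ℂ) else 0 := by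
    intro a
    rw [← sum_e_range M hM a]
    have hMr : (M : ℝ) ≠ 0 := by exact_mod_cast hM.ne'
    have e1 : ∑ n ∈ Finset.Icc 1 M, e ((a : ℝ) / M * n)
        = ∑ n ∈ Finset.range M, e ((a : ℝ) / M * ((n + 1 : ℕ) : ℝ)) := by
      rw [show Finset.Icc 1 M = Finset.Ico (0 + 1) (M + 1) by ext; simp [Finset.mem_Icc, Finset.mem_Ico]]
      rw [← Finset.sum_Ico_add', ← Finset.range_eq_Ico]
    rw [e1]
    have e2 := Finset.sum_range_succ (fun n : ℕ => e ((a : ℝ) / M * n)) M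
    have e3 := Finset.sum_range_succ' (fun n : ℕ => e ((a : ℝ) / M * n)) M
    rw [e2] at e3
    have e4 : e ((a : ℝ) / M * (M : ℝ)) = e ((a : ℝ) / M * ((0 : ℕ) : ℝ)) := by
      rw [div_mul_cancel₀ _ hMr, Nat.cast_zero, mul_zero, e_int, e_zero]
    rw [e4] at e3
    exact add_right_cancel e3
  have h2 : ((∑ r ∈ range M, ‖Sf u N ((r : ℝ) / M)‖ ^ 2 : ℝ) : ℂ)
      = ((M * ∑ n ∈ Finset.Icc 1 N, ‖u n‖ ^ 2 : ℝ) : ℂ) := by
    rw [Complex.ofReal_sum, Finset.sum_congr rfl h1, Finset.sum_comm]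
    rw [Finset.sum_congr rfl (fun r _ => Finset.sum_comm)]
    have h3 : ∀ n ∈ Finset.Icc 1 N, ∀ m ∈ Finset.Icc 1 N, ∑ r ∈ range M,
        u n * (starRingEnd ℂ) (u m) * e ((((n : ℤ) - (m : ℤ) : ℤ) : ℝ) / M * r)
        = if n = m then (M : ℂ) * (‖u n‖ ^ 2 : ℝ) else 0 := by
      intro r hr s hs
      rw [← Finset.mul_sum, hshift]
      have hr' := Finset.mem_Icc.1 hr
      have hs' := Finset.mem_Icc.1 hs
      by_cases hrs : r = s
      · subst hrs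
        rw [if_pos (by simp), if_pos rfl, Complex.mul_conj, Complex.normSq_eq_norm_sq]
        push_cast; ring
      · rw [if_neg, if_neg hrs, mul_zero]
        intro hd
        obtain ⟨t, ht⟩ := hd
        have h4 : t = 0 := by
          by_contra h0
          rcases lt_or_gt_of_ne h0 with h | h
          · have : (M : ℤ) * t ≤ -M := by nlinarith
            omega
          · have : (M : ℤ) ≤ M * t := by nlinarith
            omega
        rw [h4, mul_zero] at ht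
        omega
    have h5 : ∀ n ∈ Finset.Icc 1 N, ∑ m ∈ Finset.Icc 1 N, ∑ r ∈ range M,
        u n * (starRingEnd ℂ) (u m) * e ((((n : ℤ) - (m : ℤ) : ℤ) : ℝ) / M * r)
        = (M : ℂ) * (‖u n‖ ^ 2 : ℝ) := by
      intro r hr
      rw [Finset.sum_congr rfl (fun s hs => h3 r hr s hs), Finset.sum_ite_eq]
      simp [hr]
    rw [Finset.sum_congr rfl h5]
    push_cast
    rw [Finset.mul_sum]
  exact_mod_cast h2

/-- Large values lemma. -/
theorem level_abs (M N : ℕ) (hM : 0 < M) (hNM : N ≤ M) (u : ℕ → ℂ) (ν κ : ℕ → ℝ)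
    (A Kb τ b : ℝ) (hKb : 0 ≤ Kb) (hb : 0 < b)
    (h1 : ∀ n ∈ Finset.Icc 1 N, ‖u n‖ ≤ ν n) (h2 : ∑ n ∈ Finset.Icc 1 N, ‖u n‖ ≤ A)
    (h3 : ∀ n ∈ Finset.Icc 1 N, κ n ≤ Kb)
    (h4 : ∀ θ : ℝ, ‖∑ n ∈ Finset.Icc 1 N, ((ν n - κ n : ℝ) : ℂ) * e (θ * n)‖ ≤ τ)
    (R : Finset ℕ) (hR : R ⊆ range M) (hRb : ∀ r ∈ R, b ≤ ‖Sf u N ((r : ℝ) / M)‖)
    (hτ : A * τ ≤ b ^ 2 / 2) : (R.card : ℝ) * b ^ 2 ≤ 2 * A * Kb * M := by
  set m : ℝ := (R.card : ℝ) with hm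
  have hm0 : 0 ≤ m := by positivity
  have hA0 : 0 ≤ A := le_trans (Finset.sum_nonneg (fun n _ => norm_nonneg _)) h2
  -- phases
  set c : ℕ → ℂ := fun r => (starRingEnd ℂ) (Sf u N ((r : ℝ) / M)) / ‖Sf u N ((r : ℝ) / M)‖ with hc
  have hSpos : ∀ r ∈ R, 0 < ‖Sf u N ((r : ℝ) / M)‖ := fun r hr => lt_of_lt_of_le hb (hRb r hr)
  have hc1 : ∀ r ∈ R, ‖c r‖ = 1 := by
    intro r hr
    rw [hc]
    simp only
    rw [norm_div, RCLike.norm_conj, Complex.norm_real, norm_norm]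
    exact div_self (hSpos r hr).ne'
  have hcS : ∀ r ∈ R, c r * Sf u N ((r : ℝ) / M) = (‖Sf u N ((r : ℝ) / M)‖ : ℂ) := by
    intro r hr
    rw [hc]
    simp only
    have h5 : (‖Sf u N ((r : ℝ) / M)‖ : ℂ) ≠ 0 := by exact_mod_cast (hSpos r hr).ne'
    rw [div_mul_eq_mul_div, mul_comm, Complex.mul_conj, Complex.normSq_eq_norm_sq]
    field_simp
    push_cast
    ring
  set G : ℕ → ℂ := fun n => ∑ r ∈ R, c r * e ((r : ℝ) / M * n) with hG
  have e1 : ∑ r ∈ R, (‖Sf u N ((r : ℝ) / M)‖ : ℂ) = ∑ n ∈ Finset.Icc 1 N, u n * G n := by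
    rw [← Finset.sum_congr rfl hcS]
    unfold Sf
    simp only [hG, Finset.mul_sum]
    rw [Finset.sum_comm]
    apply Finset.sum_congr rfl
    intro n _
    apply Finset.sum_congr rfl
    intro r _
    ring
  have e2 : m * b ≤ ∑ n ∈ Finset.Icc 1 N, ‖u n‖ * ‖G n‖ := by
    have h5 : m * b ≤ ∑ r ∈ R, ‖Sf u N ((r : ℝ) / M)‖ := by
      have := Finset.sum_le_sum hRb
      rwa [Finset.sum_const, nsmul_eq_mul] at this
    have h6 : ∑ r ∈ R, ‖Sf u N ((r : ℝ) / M)‖ = ‖∑ n ∈ Finset.Icc 1 N, u n * G n‖ := by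
      rw [← e1]
      have : (∑ r ∈ R, (‖Sf u N ((r : ℝ) / M)‖ : ℂ))
          = ((∑ r ∈ R, ‖Sf u N ((r : ℝ) / M)‖ : ℝ) : ℂ) := by push_cast; rfl
      rw [this, Complex.norm_real, Real.norm_eq_abs, abs_of_nonneg]
      exact Finset.sum_nonneg (fun r _ => norm_nonneg _)
    rw [h6] at h5
    refine h5.trans ((norm_sum_le _ _).trans (le_of_eq ?_))
    apply Finset.sum_congr rfl
    intro n _
    rw [norm_mul]
  have e3 : (∑ n ∈ Finset.Icc 1 N, ‖u n‖ * ‖G n‖) ^ 2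
      ≤ A * ∑ n ∈ Finset.Icc 1 N, ν n * ‖G n‖ ^ 2 := by
    have h5 : (∑ n ∈ Finset.Icc 1 N, ‖u n‖ * ‖G n‖) ^ 2
        ≤ (∑ n ∈ Finset.Icc 1 N, ‖u n‖) * ∑ n ∈ Finset.Icc 1 N, ‖u n‖ * ‖G n‖ ^ 2 := by
      have := Finset.sum_mul_sq_le_sq_mul_sq (Finset.Icc 1 N) (fun n => Real.sqrt ‖u n‖)
        (fun n => Real.sqrt ‖u n‖ * ‖G n‖)
      have e4 : ∀ n ∈ Finset.Icc 1 N, Real.sqrt ‖u n‖ * (Real.sqrt ‖u n‖ * ‖G n‖) = ‖u n‖ * ‖G n‖ := by
        intro n _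
        rw [← mul_assoc, Real.mul_self_sqrt (norm_nonneg _)]
      have e5 : ∀ n ∈ Finset.Icc 1 N, Real.sqrt ‖u n‖ ^ 2 = ‖u n‖ := fun n _ =>
        Real.sq_sqrt (norm_nonneg _)
      have e6 : ∀ n ∈ Finset.Icc 1 N, (Real.sqrt ‖u n‖ * ‖G n‖) ^ 2 = ‖u n‖ * ‖G n‖ ^ 2 := by
        intro n _
        rw [mul_pow, Real.sq_sqrt (norm_nonneg _)]
      rw [Finset.sum_congr rfl e4, Finset.sum_congr rfl e5, Finset.sum_congr rfl e6] at this
      exact this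
    refine h5.trans ?_
    have h6 : ∑ n ∈ Finset.Icc 1 N, ‖u n‖ * ‖G n‖ ^ 2 ≤ ∑ n ∈ Finset.Icc 1 N, ν n * ‖G n‖ ^ 2 :=
      Finset.sum_le_sum (fun n hn => mul_le_mul_of_nonneg_right (h1 n hn) (by positivity))
    have h7 : 0 ≤ ∑ n ∈ Finset.Icc 1 N, ‖u n‖ * ‖G n‖ ^ 2 :=
      Finset.sum_nonneg (fun n _ => by positivity)
    exact mul_le_mul h2 h6 h7 hA0
  have e4 : ∑ n ∈ Finset.Icc 1 N, κ n * ‖G n‖ ^ 2 ≤ Kb * (M * m) := by
    have h5 : ∑ n ∈ Finset.Icc 1 N, κ n * ‖G n‖ ^ 2 ≤ ∑ n ∈ Finset.Icc 1 N, Kb * ‖G n‖ ^ 2 :=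
      Finset.sum_le_sum (fun n hn => mul_le_mul_of_nonneg_right (h3 n hn) (by positivity))
    refine h5.trans ?_
    rw [← Finset.mul_sum]
    apply mul_le_mul_of_nonneg_left _ hKb
    have h6 := parseval_freq R c M N hM hNM hR
    have h7 : ∑ r ∈ R, ‖c r‖ ^ 2 = m := by
      rw [Finset.sum_congr rfl (fun r hr => by rw [hc1 r hr, one_pow])]
      simp [hm]
    rw [h7] at h6
    exact h6
  have e5 : ∑ n ∈ Finset.Icc 1 N, (ν n - κ n) * ‖G n‖ ^ 2 ≤ m ^ 2 * τ := by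
    have h5 : ((∑ n ∈ Finset.Icc 1 N, (ν n - κ n) * ‖G n‖ ^ 2 : ℝ) : ℂ)
        = ∑ r ∈ R, ∑ s ∈ R, c r * (starRingEnd ℂ) (c s) * ∑ n ∈ Finset.Icc 1 N,
          ((ν n - κ n : ℝ) : ℂ) * e ((((r : ℤ) - (s : ℤ) : ℤ) : ℝ) / M * n) := by
      rw [Complex.ofReal_sum]
      have h6 : ∀ n ∈ Finset.Icc 1 N, (((ν n - κ n) * ‖G n‖ ^ 2 : ℝ) : ℂ)
          = ∑ r ∈ R, ∑ s ∈ R, c r * (starRingEnd ℂ) (c s) *
            (((ν n - κ n : ℝ) : ℂ) * e ((((r : ℤ) - (s : ℤ) : ℤ) : ℝ) / M * n)) := by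
        intro n _
        rw [Complex.ofReal_mul]
        have h7 := normSq_sum_eq R c M n
        rw [hG]
        simp only
        rw [h7, Finset.mul_sum]
        apply Finset.sum_congr rfl
        intro r _
        rw [Finset.mul_sum]
        apply Finset.sum_congr rfl
        intro s _
        ring
      rw [Finset.sum_congr rfl h6, Finset.sum_comm]
      apply Finset.sum_congr rfl
      intro r _
      rw [Finset.sum_comm]
      apply Finset.sum_congr rfl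
      intro s _
      rw [Finset.mul_sum]
    have h6 : ∑ n ∈ Finset.Icc 1 N, (ν n - κ n) * ‖G n‖ ^ 2
        ≤ ‖((∑ n ∈ Finset.Icc 1 N, (ν n - κ n) * ‖G n‖ ^ 2 : ℝ) : ℂ)‖ := by
      rw [Complex.norm_real]; exact le_abs_self _
    refine h6.trans ?_
    rw [h5]
    refine (norm_sum_le _ _).trans ?_
    have h7 : ∀ r ∈ R, ‖∑ s ∈ R, c r * (starRingEnd ℂ) (c s) * ∑ n ∈ Finset.Icc 1 N,
          ((ν n - κ n : ℝ) : ℂ) * e ((((r : ℤ) - (s : ℤ) : ℤ) : ℝ) / M * n)‖ ≤ m * τ := by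
      intro r hr
      refine (norm_sum_le _ _).trans ?_
      have h8 : ∀ s ∈ R, ‖c r * (starRingEnd ℂ) (c s) * ∑ n ∈ Finset.Icc 1 N,
          ((ν n - κ n : ℝ) : ℂ) * e ((((r : ℤ) - (s : ℤ) : ℤ) : ℝ) / M * n)‖ ≤ τ := by
        intro s hs
        rw [norm_mul, norm_mul, RCLike.norm_conj, hc1 r hr, hc1 s hs, one_mul, one_mul]
        exact h4 _
      refine (Finset.sum_le_sum h8).trans ?_
      rw [Finset.sum_const, nsmul_eq_mul]
    refine (Finset.sum_le_sum h7).trans ?_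
    rw [Finset.sum_const, nsmul_eq_mul, ← hm]
    exact le_of_eq (by ring)
  have e6 : ∑ n ∈ Finset.Icc 1 N, ν n * ‖G n‖ ^ 2
      = ∑ n ∈ Finset.Icc 1 N, κ n * ‖G n‖ ^ 2 + ∑ n ∈ Finset.Icc 1 N, (ν n - κ n) * ‖G n‖ ^ 2 := by
    rw [← Finset.sum_add_distrib]
    apply Finset.sum_congr rfl
    intro n _; ring
  have e7 : (m * b) ^ 2 ≤ A * (Kb * (M * m) + m ^ 2 * τ) := by
    calc (m * b) ^ 2 ≤ (∑ n ∈ Finset.Icc 1 N, ‖u n‖ * ‖G n‖) ^ 2 :=
          pow_le_pow_left₀ (by positivity) e2 2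
      _ ≤ _ := e3
      _ ≤ _ := by
          apply mul_le_mul_of_nonneg_left _ hA0
          rw [e6]; linarith
  have e8 : m ^ 2 * b ^ 2 ≤ A * Kb * M * m + m ^ 2 * (b ^ 2 / 2) := by
    have h5 : m ^ 2 * (A * τ) ≤ m ^ 2 * (b ^ 2 / 2) := mul_le_mul_of_nonneg_left hτ (by positivity)
    nlinarith [e7, h5]
  rcases eq_or_lt_of_le hm0 with h0 | h0
  · rw [← h0, zero_mul]; positivity
  · have h5 : m * (m * b ^ 2) ≤ m * (2 * A * Kb * M) := by nlinarith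
    exact le_of_mul_le_mul_left h5 h0

end Pool.Agent.Helper71_SP
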