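import Pool.Agent.Helper71_SP.Consts

set_option autoImplicit false
set_option exponentiation.threshold 1000

/-!
Large values of exponential sums over primes.
-/

namespace Pool.Agent.Helper71_SP

open Finset Pool.Agent.Common_Sieve

/-- parameter `B` at level `j` -/
def Bj (j : ℕ) : ℕ := j + 100
/-- small sieving level -/
def wj (j : ℕ) : ℕ := 1000000 * 8 ^ j
/-- root exponent -/
def tj (j : ℕ) : ℕ := 100 * (Bj j + 2)

lemma wj_ge (j : ℕ) : 1000000 ≤ wj j := by
  unfold wj
  have : 1 ≤ 8 ^ j := Nat.one_le_pow _ _ (by norm_num)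
  omega

lemma epsB_le_one (j : ℕ) : epsB (Bj j) ≤ 1 := by
  refine le_trans ?_ epsB_31
  unfold epsB Bj
  apply mul_le_mul_of_nonneg_left _ (Real.exp_pos _).le
  exact pow_le_pow_of_le_one (by norm_num) (by norm_num) (by omega)

lemma exp_sub_one_le {x : ℝ} (h0 : 0 ≤ x) (h1 : x ≤ 1) :
    2 * (Real.exp x - 1) + x * Real.exp x ≤ 7 * x := by
  have h2 : Real.exp x - 1 ≤ 2 * x := by
    have h3 := Real.abs_exp_sub_one_sub_id_le (x := x) (by rw [abs_of_nonneg h0]; exact h1)
    have h4 := (abs_le.1 h3).2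
    nlinarith
  have h3 : Real.exp x ≤ 3 := by
    calc Real.exp x ≤ Real.exp 1 := Real.exp_le_exp.2 h1
      _ ≤ 3 := by linarith [Real.exp_one_lt_d9]
  nlinarith

lemma exp84_le : Real.exp 84 ≤ 16 ^ 31 := by
  have h2 : Real.exp 84 = Real.exp 1 ^ (84:ℕ) := by
    rw [← Real.exp_nat_mul]; norm_num
  rw [h2]
  have h3 : Real.exp 1 ≤ 2.7182818286 := Real.exp_one_lt_d9.le
  calc Real.exp 1 ^ (84:ℕ) ≤ (2.7182818286:ℝ) ^ (84:ℕ) := pow_le_pow_left₀ (Real.exp_pos _).le h3 _
    _ ≤ 16 ^ 31 := by norm_num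

lemma add_le_mul_two_pow (j : ℕ) : (j : ℝ) + 102 ≤ 102 * 2 ^ j := by
  have h : j + 102 ≤ 102 * 2 ^ j := by
    induction j with
    | zero => norm_num
    | succ j ih => rw [pow_succ]; omega
  exact_mod_cast h

/-- numerical condition (i), first part -/
lemma cond_eps (j : ℕ) : 2 * (tj j : ℝ) * (7 * epsB (Bj j)) ≤ (1 / 4 ^ j) / 16 := by
  unfold tj epsB Bj
  push_cast
  have h1 := add_le_mul_two_pow j
  have h2 := exp84_le
  have h3 : (1 / 16 : ℝ) ^ (j + 100) = (1 / 16) ^ 100 * ((1 / 4 ^ j) * (1 / 4 ^ j)) := by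
    rw [pow_add, mul_comm]
    congr 1
    rw [one_div_mul_one_div, ← mul_pow, one_div_pow]
    norm_num
  rw [h3]
  have h4 : (2:ℝ) ^ j * (1 / 4 ^ j) ≤ 1 := by
    rw [mul_one_div, div_le_one (by positivity)]
    exact pow_le_pow_left₀ (by norm_num) (by norm_num) j
  have h5 : (0:ℝ) < 1 / 4 ^ j := by positivity
  have h6 : (0:ℝ) < Real.exp 84 := Real.exp_pos _
  calc 2 * (100 * ((j : ℝ) + 100 + 2)) * (7 * (Real.exp 84 * ((1 / 16) ^ 100 * (1 / 4 ^ j * (1 / 4 ^ j)))))
      = 1400 * (Real.exp 84 * (1 / 16) ^ 100) * (((j : ℝ) + 102) * (1 / 4 ^ j)) * (1 / 4 ^ j) := by ring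
    _ ≤ 1400 * (16 ^ 31 * (1 / 16) ^ 100) * (102 * 2 ^ j * (1 / 4 ^ j)) * (1 / 4 ^ j) := by
        gcongr
    _ = 1400 * (16 ^ 31 * (1 / 16) ^ 100) * 102 * (2 ^ j * (1 / 4 ^ j)) * (1 / 4 ^ j) := by ring
    _ ≤ 1400 * (16 ^ 31 * (1 / 16) ^ 100) * 102 * 1 * (1 / 4 ^ j) := by
        gcongr
    _ ≤ (1 / 16) * (1 / 4 ^ j) := by
        apply mul_le_mul_of_nonneg_right _ h5.le
        norm_num
    _ = _ := by ring

/-- numerical condition (i), second part -/
lemma cond_w (j : ℕ) : 2 * (tj j : ℝ) * (1 / ((wj j : ℝ) - 1)) ≤ (1 / 4 ^ j) / 16 := by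
  unfold tj Bj wj
  push_cast
  have h1 := add_le_mul_two_pow j
  have h8 : (1:ℝ) ≤ 8 ^ j := one_le_pow₀ (by norm_num)
  have h4 : (0:ℝ) < 4 ^ j := by positivity
  have h2 : (0:ℝ) < 1000000 * 8 ^ j - 1 := by linarith
  rw [mul_one_div, div_div, div_le_div_iff₀ h2 (by positivity)]
  have h3 : (8:ℝ) ^ j = 2 ^ j * 4 ^ j := by rw [← mul_pow]; norm_num
  have h5 : ((j : ℝ) + 102) * 4 ^ j ≤ 102 * 2 ^ j * 4 ^ j := mul_le_mul_of_nonneg_right h1 h4.le
  rw [h3] at h8 ⊢
  nlinarith

/-- eventually `144 log N ≤ N^(1/4)` -/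
lemma log_le_quarter : ∃ N0 : ℕ, ∀ N ≥ N0, 1 ≤ N ∧ 144 * Real.log N ≤ Real.sqrt (Real.sqrt N) := by
  have h1 : Filter.Tendsto (fun x : ℝ => Real.log x / x ^ (1 / 4 : ℝ)) Filter.atTop (nhds 0) :=
    (isLittleO_log_rpow_atTop (show (0:ℝ) < 1 / 4 by norm_num)).tendsto_div_nhds_zero
  have h2 := (h1.comp tendsto_natCast_atTop_atTop).eventually
    (gt_mem_nhds (show (0:ℝ) < 1 / 144 by norm_num))
  obtain ⟨N1, hN1⟩ := (h2.and (Filter.eventually_ge_atTop 1)).exists_forall_of_atTop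
  refine ⟨N1, ?_⟩
  intro N hN
  obtain ⟨h3, h4⟩ := hN1 N hN
  refine ⟨h4, ?_⟩
  simp only [Function.comp_apply] at h3
  have hN0 : (0:ℝ) < N := by exact_mod_cast h4
  rw [div_lt_iff₀ (by positivity)] at h3
  have h5 : Real.sqrt (Real.sqrt N) = (N : ℝ) ^ (1 / 4 : ℝ) := by
    rw [Real.sqrt_eq_rpow, Real.sqrt_eq_rpow, ← Real.rpow_mul hN0.le]
    norm_num
  rw [h5]
  linarith

/-- large values for functions bounded by the primes -/
theorem level_primes : ∃ C : ℝ, 0 < C ∧ ∃ N0 : ℕ, ∀ N ≥ N0, ∀ M ≥ N, ∀ j : ℕ, wj j ^ tj j ≤ N →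
    ∀ u : ℕ → ℂ, (∀ n ∈ Finset.Icc 1 N, ‖u n‖ ≤ if n.Prime then Real.log N else 0) →
    ∀ R ⊆ range M, (∀ r ∈ R, (N : ℝ) / 2 ^ j ≤ ‖Sf u N ((r : ℝ) / M)‖) →
      (R.card : ℝ) ≤ C * ((j : ℝ) + 1) ^ 3 * 4 ^ j * (M / N) := by
  obtain ⟨CV, hCV, hVlow⟩ := Vp_lower
  obtain ⟨N1, hN1⟩ := log_le_quarter
  obtain ⟨N2, hN2⟩ := primes_mass
  refine ⟨4 * (20400 * (CV * 15 ^ 2)), by positivity, max N1 (max N2 2), ?_⟩
  intro N hN M hM j hj u hu R hR hRb
  obtain ⟨hNge1, hlogN⟩ := hN1 N (le_trans (le_max_left _ _) hN)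
  have hmass := hN2 N (le_trans ((le_max_left _ _).trans (le_max_right _ _)) hN)
  have hN2' : 2 ≤ N := le_trans ((le_max_right _ _).trans (le_max_right _ _)) hN
  have hNr : (2:ℝ) ≤ N := by exact_mod_cast hN2'
  have hN0 : (0:ℝ) < N := by linarith
  have hM0 : 0 < M := by omega
  have hlogN0 : 0 < Real.log N := Real.log_pos (by linarith)
  have ht : 0 < tj j := by unfold tj; omega
  set z := levk N (tj j) with hz
  have hw := wj_ge j
  have hwz : wj j ≤ z := le_levk N (tj j) (wj j) ht hj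
  have hz2 : 2 ≤ z := by omega
  have hzt : z ^ tj j ≤ N := levk_pow_le N (tj j) ht
  set w := wj j with hwdef
  set B := Bj j with hB
  have hlogz : Real.log N ≤ 2 * tj j * Real.log z := log_le_levk N (tj j) ht hz2
  have hlogz0 : 0 < Real.log z := Real.log_pos (by exact_mod_cast (by omega : 1 < z))
  have hVz := Vp_pos z
  have hVw := Vp_pos w
  have hh : Real.log N * Vp z ≤ 2 * tj j := by
    calc Real.log N * Vp z ≤ Real.log N * (1 / Real.log z) :=
          mul_le_mul_of_nonneg_left (Vp_le z hz2) hlogN0.le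
      _ = Real.log N / Real.log z := by ring
      _ ≤ 2 * tj j := by rw [div_le_iff₀ hlogz0]; exact hlogz
  -- powers of z
  have hz1 : (1:ℝ) ≤ z := by exact_mod_cast (by omega : 1 ≤ z)
  set s := Real.sqrt N with hs
  have hs0 : 0 ≤ s := Real.sqrt_nonneg _
  have hss : s * s = N := Real.mul_self_sqrt hN0.le
  set r4 := Real.sqrt s with hr4
  have hr40 : 0 ≤ r4 := Real.sqrt_nonneg _
  have hr4r4 : r4 * r4 = s := Real.mul_self_sqrt hs0
  set r8 := Real.sqrt r4 with hr8
  have hr80 : 0 ≤ r8 := Real.sqrt_nonneg _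
  have hr8r8 : r8 * r8 = r4 := Real.mul_self_sqrt hr40
  have hr8pow : r8 ^ 8 = N := by rw [← hss, ← hr4r4, ← hr8r8]; ring
  have hzpow : (z : ℝ) ^ (8 * B + 13) ≤ r8 := by
    apply le_of_pow_le_pow_left₀ (n := 8) (by norm_num) hr80
    rw [hr8pow, ← pow_mul]
    have h1 : z ^ ((8 * B + 13) * 8) ≤ z ^ tj j := by
      apply Nat.pow_le_pow_right (by omega)
      unfold tj
      omega
    exact_mod_cast h1.trans hzt
  have hzle : (z : ℝ) ≤ r8 := le_trans (le_self_pow₀ hz1 (by omega)) hzpow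
  have hzpow2 : (z : ℝ) ^ (4 * B + 6) ≤ r8 :=
    le_trans (pow_le_pow_right₀ hz1 (by omega)) hzpow
  have hwpow : (w : ℝ) ^ (8 * B + 13) ≤ r8 := by
    refine le_trans ?_ hzpow
    apply pow_le_pow_left₀ (by positivity)
    exact_mod_cast hwz
  have hwpow2 : (w : ℝ) ^ (4 * B + 6) ≤ r8 := by
    refine le_trans ?_ hzpow2
    apply pow_le_pow_left₀ (by positivity)
    exact_mod_cast hwz
  have hr81 : 1 ≤ r8 := hz1.trans hzle
  have h4j : (4:ℝ) ^ j ≤ r8 := by
    have h1 : 4 ^ j ≤ w := by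
      rw [hwdef]; unfold wj
      have : 4 ^ j ≤ 8 ^ j := Nat.pow_le_pow_left (by norm_num) j
      omega
    have h2 : (4:ℝ) ^ j ≤ z := by exact_mod_cast h1.trans hwz
    linarith
  have hlogN' : 144 * Real.log N ≤ r8 * r8 := by rw [hr8r8]; exact hlogN
  have h4jpos : (0:ℝ) < 4 ^ j := by positivity
  -- the error terms
  have herr : Real.log N * (18 * (r8 * s)) ≤ N * (1 / 4 ^ j) / 8 := by
    rw [le_div_iff₀ (by norm_num), mul_one_div, le_div_iff₀ h4jpos]
    have h1 : Real.log N * (18 * (r8 * s)) * 8 * 4 ^ j = (144 * Real.log N) * (r8 * s) * 4 ^ j := by ring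
    rw [h1]
    calc (144 * Real.log N) * (r8 * s) * 4 ^ j ≤ (r8 * r8) * (r8 * s) * r8 := by
          apply mul_le_mul _ h4j h4jpos.le (by positivity)
          exact mul_le_mul_of_nonneg_right hlogN' (by positivity)
      _ = (r8 * r8) * (r8 * r8) * s := by ring
      _ = N := by rw [hr8r8, hr4r4, hss]
  -- families
  obtain ⟨Fz, lz, hlz, hFz, hcz, hUz, hrz, hgz⟩ := sieve_family z B hz2
  obtain ⟨Fw, lw, hlw, hFw, hcw, hUw, hrw, hgw⟩ := sieve_family w B (by omega)
  -- majorant and comparison function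
  set ν : ℕ → ℝ := fun n => Real.log N * (dsum Fz lz n + if n < z then 1 else 0) with hν
  set κ : ℕ → ℝ := fun n => Real.log N * (Vp z / Vp w) * rough w n with hκ
  set Kb := Real.log N * (Vp z / Vp w) with hKb
  have hKb0 : 0 ≤ Kb := by positivity
  have hrat : Vp z / Vp w ≤ 1 := by rw [div_le_one hVw]; exact Vp_anti hwz
  have hrat0 : 0 < Vp z / Vp w := by positivity
  -- pointwise bounds
  have h1 : ∀ n ∈ Finset.Icc 1 N, ‖u n‖ ≤ ν n := by
    intro n hn
    refine (hu n hn).trans ?_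
    rw [hν]
    simp only
    have hd0 : 0 ≤ dsum Fz lz n := (rough_nonneg z n).trans (hrz n)
    split_ifs with hp hlt hlt
    · nlinarith
    · have h2 : rough z n = 1 := by
        apply rough_eq_one
        intro p hpp hpz hpn
        have := (Nat.prime_dvd_prime_iff_eq hpp hp).1 hpn
        omega
      have h3 := hrz n
      rw [h2] at h3
      nlinarith
    · positivity
    · positivity
  have h2 : ∑ n ∈ Finset.Icc 1 N, ‖u n‖ ≤ 2 * N := (Finset.sum_le_sum hu).trans hmass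
  have h3 : ∀ n ∈ Finset.Icc 1 N, κ n ≤ Kb := by
    intro n _
    rw [hκ]
    simp only
    calc Real.log N * (Vp z / Vp w) * rough w n ≤ Real.log N * (Vp z / Vp w) * 1 :=
          mul_le_mul_of_nonneg_left (rough_le_one w n) (by positivity)
      _ = Kb := by rw [mul_one]
  -- the Fourier bound
  set ε := epsB B with hε
  have hε0 : 0 < ε := epsB_pos B
  have hε1 : ε ≤ 1 := epsB_le_one j
  have h4 : ∀ θ : ℝ, ‖∑ n ∈ Finset.Icc 1 N, ((ν n - κ n : ℝ) : ℂ) * e (θ * n)‖
      ≤ N * (1 / 4 ^ j) / 4 := by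
    intro θ
    have hsplit : ∑ n ∈ Finset.Icc 1 N, ((ν n - κ n : ℝ) : ℂ) * e (θ * n)
        = ∑ n ∈ Finset.Icc 1 N, ((Real.log N * dsum Fz lz n - Kb * dsum Fw lw n : ℝ) : ℂ) * e (θ * n)
          + (∑ n ∈ Finset.Icc 1 N, ((Kb * (dsum Fw lw n - rough w n) : ℝ) : ℂ) * e (θ * n)
          + ∑ n ∈ Finset.Icc 1 N, ((Real.log N * (if n < z then 1 else 0) : ℝ) : ℂ) * e (θ * n)) := by
      rw [← Finset.sum_add_distrib, ← Finset.sum_add_distrib]
      apply Finset.sum_congr rfl
      intro n _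
      rw [hν, hκ, hKb]
      push_cast
      ring
    rw [hsplit]
    -- first part
    have hA : ‖∑ n ∈ Finset.Icc 1 N,
        ((Real.log N * dsum Fz lz n - Kb * dsum Fw lw n : ℝ) : ℂ) * e (θ * n)‖
        ≤ (2 * tj j * (2 * (Real.exp ε - 1) + 1 / ((w : ℝ) - 1))) * N
          + (Real.log N * r8 + Real.log N * r8) * (8 * s) := by
      have hZ : 4 * ((z ^ (4 * B + 6) : ℕ) : ℝ) ≤ Real.sqrt N := by
        push_cast
        have h5 : 4 * r8 ≤ s := by
          have h6 : 4 ≤ r8 := by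
            have : (4:ℝ) ≤ z := by exact_mod_cast (by omega : 4 ≤ z)
            linarith
          calc 4 * r8 ≤ r8 * r8 := mul_le_mul_of_nonneg_right h6 hr80
            _ = r4 := hr8r8
            _ ≤ s := by
              rw [← hr4r4]
              have h7 : 1 ≤ r4 := by rw [← hr8r8]; nlinarith
              nlinarith
        linarith
      have hFw' : ∀ D ∈ Fw, 0 < pr D ∧ pr D ≤ z ^ (4 * B + 6) := fun D hD =>
        ⟨(hFw D hD).1, (hFw D hD).2.trans (Nat.pow_le_pow_left hwz _)⟩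
      have hcomp := transform_compare N (z ^ (4 * B + 6)) hNge1 hZ Fz Fw lz lw (Real.log N) Kb
        hlz hFz hlw hFw' (2 * tj j * (2 * (Real.exp ε - 1) + 1 / ((w : ℝ) - 1)))
        (by
          intro q hq
          have e1 := hgz q hq
          have e2 := hgw q hq
          have e3 := exact_compare w z q hwz (by omega) hq
          have e4 : Real.log N * gq Fz lz q - Kb * gq Fw lw q
              = (Real.log N * Vp z) * (((1 / Vp z) * gq Fz lz q - (1 / Vp z) * gq z.primesBelow.powerset sgn q)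
                + ((1 / Vp z) * gq z.primesBelow.powerset sgn q - (1 / Vp w) * gq w.primesBelow.powerset sgn q)
                - ((1 / Vp w) * gq Fw lw q - (1 / Vp w) * gq w.primesBelow.powerset sgn q)) := by
            rw [hKb]; field_simp; ring
          rw [e4, abs_mul, abs_of_pos (by positivity)]
          apply mul_le_mul hh _ (abs_nonneg _) (by positivity)
          have e5 := abs_sub (((1 / Vp z) * gq Fz lz q - (1 / Vp z) * gq z.primesBelow.powerset sgn q)
                + ((1 / Vp z) * gq z.primesBelow.powerset sgn q - (1 / Vp w) * gq w.primesBelow.powerset sgn q))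
                ((1 / Vp w) * gq Fw lw q - (1 / Vp w) * gq w.primesBelow.powerset sgn q)
          have e6 := abs_add_le ((1 / Vp z) * gq Fz lz q - (1 / Vp z) * gq z.primesBelow.powerset sgn q)
                ((1 / Vp z) * gq z.primesBelow.powerset sgn q - (1 / Vp w) * gq w.primesBelow.powerset sgn q)
          linarith) θ
      refine hcomp.trans (add_le_add le_rfl ?_)
      apply mul_le_mul_of_nonneg_right _ (by positivity)
      have hc1 : (Fz.card : ℝ) ≤ r8 := by
        have : (Fz.card : ℝ) ≤ (z : ℝ) ^ (4 * B + 6) := by exact_mod_cast hcz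
        linarith
      have hc2 : (Fw.card : ℝ) ≤ r8 := by
        have : (Fw.card : ℝ) ≤ (w : ℝ) ^ (4 * B + 6) := by exact_mod_cast hcw
        linarith
      have hKbl : Kb ≤ Real.log N := by
        rw [hKb]
        calc Real.log N * (Vp z / Vp w) ≤ Real.log N * 1 := mul_le_mul_of_nonneg_left hrat hlogN0.le
          _ = _ := mul_one _
      rw [abs_of_pos hlogN0, abs_of_nonneg hKb0]
      apply add_le_add
      · exact mul_le_mul_of_nonneg_left hc1 hlogN0.le
      · exact mul_le_mul hKbl hc2 (by positivity) hlogN0.le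
    -- second part
    have hBd : ‖∑ n ∈ Finset.Icc 1 N, ((Kb * (dsum Fw lw n - rough w n) : ℝ) : ℂ) * e (θ * n)‖
        ≤ 2 * tj j * (ε * Real.exp ε) * N + Real.log N * r8 := by
      have h5 : ‖∑ n ∈ Finset.Icc 1 N, ((Kb * (dsum Fw lw n - rough w n) : ℝ) : ℂ) * e (θ * n)‖
          ≤ Kb * ∑ n ∈ Finset.Icc 1 N, (Ufun w w.primesBelow B (dvi n) - rough w n) := by
        refine (norm_sum_le _ _).trans (le_of_eq ?_)
        rw [Finset.mul_sum]
        apply Finset.sum_congr rfl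
        intro n _
        rw [norm_mul, norm_e, mul_one, Complex.norm_real, Real.norm_eq_abs, abs_of_nonneg, hUw n]
        exact mul_nonneg hKb0 (by linarith [hrw n])
      refine h5.trans ?_
      have h6 := rough_defect w B N (by omega)
      rw [← hε] at h6
      have h7 : (w : ℝ) * (w : ℝ) ^ (8 * B + 12) ≤ r8 := by
        have : (w : ℝ) * (w : ℝ) ^ (8 * B + 12) = (w : ℝ) ^ (8 * B + 13) := by ring
        rw [this]; exact hwpow
      have h8 := mul_le_mul_of_nonneg_left (h6.trans (add_le_add le_rfl h7)) hKb0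
      refine h8.trans ?_
      rw [mul_add]
      apply add_le_add
      · have : Kb * (N * Vp w * (ε * Real.exp ε)) = (Real.log N * Vp z) * (ε * Real.exp ε) * N := by
          rw [hKb]; field_simp
        rw [this]
        apply mul_le_mul_of_nonneg_right _ hN0.le
        exact mul_le_mul_of_nonneg_right hh (by positivity)
      · apply mul_le_mul_of_nonneg_right _ hr80
        rw [hKb]
        calc Real.log N * (Vp z / Vp w) ≤ Real.log N * 1 := mul_le_mul_of_nonneg_left hrat hlogN0.le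
          _ = _ := mul_one _
    -- third part
    have hC : ‖∑ n ∈ Finset.Icc 1 N, ((Real.log N * (if n < z then 1 else 0) : ℝ) : ℂ) * e (θ * n)‖
        ≤ Real.log N * r8 := by
      refine (norm_sum_le _ _).trans ?_
      have h5 : ∀ n ∈ Finset.Icc 1 N,
          ‖((Real.log N * (if n < z then 1 else 0) : ℝ) : ℂ) * e (θ * n)‖
          = Real.log N * (if n < z then 1 else 0) := by
        intro n _
        rw [norm_mul, norm_e, mul_one, Complex.norm_real, Real.norm_eq_abs, abs_of_nonneg]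
        split_ifs <;> positivity
      rw [Finset.sum_congr rfl h5, ← Finset.mul_sum]
      apply mul_le_mul_of_nonneg_left _ hlogN0.le
      rw [← Finset.sum_filter, Finset.sum_const, nsmul_eq_mul, mul_one]
      refine le_trans ?_ hzle
      have : (Finset.Icc 1 N).filter (fun n => n < z) ⊆ range z := by
        intro n hn
        exact Finset.mem_range.2 (Finset.mem_filter.1 hn).2
      have := Finset.card_le_card this
      rw [Finset.card_range] at this
      exact_mod_cast this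
    have htot := norm_add_le (∑ n ∈ Finset.Icc 1 N,
        ((Real.log N * dsum Fz lz n - Kb * dsum Fw lw n : ℝ) : ℂ) * e (θ * n))
      (∑ n ∈ Finset.Icc 1 N, ((Kb * (dsum Fw lw n - rough w n) : ℝ) : ℂ) * e (θ * n)
          + ∑ n ∈ Finset.Icc 1 N, ((Real.log N * (if n < z then 1 else 0) : ℝ) : ℂ) * e (θ * n))
    have htot2 := norm_add_le
      (∑ n ∈ Finset.Icc 1 N, ((Kb * (dsum Fw lw n - rough w n) : ℝ) : ℂ) * e (θ * n))
      (∑ n ∈ Finset.Icc 1 N, ((Real.log N * (if n < z then 1 else 0) : ℝ) : ℂ) * e (θ * n))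
    have hmain : 2 * (tj j : ℝ) * (2 * (Real.exp ε - 1) + ε * Real.exp ε) ≤ (1 / 4 ^ j) / 16 := by
      refine le_trans ?_ (cond_eps j)
      apply mul_le_mul_of_nonneg_left _ (by positivity)
      exact exp_sub_one_le hε0.le hε1
    have hmain2 := cond_w j
    rw [← hwdef] at hmain2
    have hN' : 0 ≤ (N : ℝ) := hN0.le
    have hm1 := mul_le_mul_of_nonneg_right hmain hN'
    have hm2 := mul_le_mul_of_nonneg_right hmain2 hN'
    have hs1 : 1 ≤ s := by
      rw [hs, Real.one_le_sqrt]; linarith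
    have hsmall : (Real.log N * r8 + Real.log N * r8) * (8 * s) + Real.log N * r8 + Real.log N * r8
        ≤ Real.log N * (18 * (r8 * s)) := by
      have h5 : r8 ≤ r8 * s := by nlinarith
      have h6 := mul_le_mul_of_nonneg_left h5 hlogN0.le
      nlinarith
    linarith
  have hb : (0:ℝ) < (N : ℝ) / 2 ^ j := by positivity
  have hτ : (2 * (N : ℝ)) * (N * (1 / 4 ^ j) / 4) ≤ ((N : ℝ) / 2 ^ j) ^ 2 / 2 := by
    rw [div_pow, ← pow_mul, mul_comm j 2, pow_mul]
    norm_num
    apply le_of_eq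
    field_simp
    ring
  have hlev := level_abs M N hM0 hM u ν κ (2 * N) Kb (N * (1 / 4 ^ j) / 4) ((N : ℝ) / 2 ^ j)
    hKb0 hb h1 h2 h3 h4 R hR hRb hτ
  -- conclusion
  have hKbound : Kb ≤ 20400 * (CV * 15 ^ 2) * ((j : ℝ) + 1) ^ 3 := by
    have h5 : Kb = (Real.log N * Vp z) * (1 / Vp w) := by rw [hKb]; ring
    rw [h5]
    have h6 : 1 / Vp w ≤ CV * (15 * ((j : ℝ) + 1)) ^ 2 := by
      refine (hVlow w (by omega)).trans ?_
      apply mul_le_mul_of_nonneg_left _ hCV.le
      have hw1 : (1:ℝ) ≤ (w : ℝ) + 1 := by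
        have : (0:ℝ) ≤ w := by positivity
        linarith
      apply pow_le_pow_left₀ (Real.log_nonneg hw1)
      have h7 : (w : ℝ) + 1 ≤ Real.exp (15 * ((j : ℝ) + 1)) := by
        have h8 : (w : ℝ) + 1 ≤ 2 ^ 21 * 8 ^ j := by
          rw [hwdef]; unfold wj
          push_cast
          have : (1:ℝ) ≤ 8 ^ j := one_le_pow₀ (by norm_num)
          nlinarith
        have h9 : (2:ℝ) ≤ Real.exp 1 := by linarith [Real.exp_one_gt_d9]
        have h10 : (2:ℝ) ^ 21 * 8 ^ j ≤ Real.exp (15 * ((j : ℝ) + 1)) := by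
          have e1 : (2:ℝ) ^ 21 ≤ Real.exp 15 := by
            have : Real.exp 15 = Real.exp 1 ^ 15 := by rw [← Real.exp_nat_mul]; norm_num
            rw [this]
            have h11 : (2.7:ℝ) ≤ Real.exp 1 := by linarith [Real.exp_one_gt_d9]
            calc (2:ℝ) ^ 21 ≤ 2.7 ^ 15 := by norm_num
              _ ≤ _ := pow_le_pow_left₀ (by norm_num) h11 15
          have e2 : (8:ℝ) ^ j ≤ Real.exp (15 * j) := by
            have : Real.exp (15 * (j : ℝ)) = (Real.exp 15) ^ j := by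
              rw [← Real.exp_nat_mul]; congr 1; ring
            rw [this]
            apply pow_le_pow_left₀ (by norm_num)
            refine le_trans ?_ e1
            norm_num
          rw [mul_add, mul_one, Real.exp_add, mul_comm]
          exact mul_le_mul e2 e1 (by positivity) (Real.exp_pos _).le
        linarith
      have := Real.log_le_log (by linarith) h7
      rwa [Real.log_exp] at this
    have h7 : 2 * (tj j : ℝ) ≤ 20400 * ((j : ℝ) + 1) := by
      unfold tj Bj
      push_cast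
      have : (0:ℝ) ≤ j := by positivity
      linarith
    calc (Real.log N * Vp z) * (1 / Vp w)
        ≤ (20400 * ((j : ℝ) + 1)) * (CV * (15 * ((j : ℝ) + 1)) ^ 2) := by
          apply mul_le_mul (hh.trans h7) h6 (by positivity) (by positivity)
      _ = _ := by ring
  have hfin : (R.card : ℝ) * ((N : ℝ) / 2 ^ j) ^ 2
      ≤ (4 * (20400 * (CV * 15 ^ 2)) * ((j : ℝ) + 1) ^ 3 * 4 ^ j * (M / N)) * ((N : ℝ) / 2 ^ j) ^ 2 := by
    have h5 : (4 * (20400 * (CV * 15 ^ 2)) * ((j : ℝ) + 1) ^ 3 * 4 ^ j * (M / N)) * ((N : ℝ) / 2 ^ j) ^ 2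
        = 4 * N * (20400 * (CV * 15 ^ 2) * ((j : ℝ) + 1) ^ 3) * M := by
      have h6 : (4:ℝ) ^ j = 2 ^ j * 2 ^ j := by rw [← mul_pow]; norm_num
      rw [h6]
      field_simp
    rw [h5]
    refine hlev.trans ?_
    have h7 : (0:ℝ) ≤ 4 * N := by positivity
    have h8 := mul_le_mul_of_nonneg_left hKbound h7
    have h9 : (0:ℝ) ≤ M := by positivity
    have h10 := mul_le_mul_of_nonneg_right h8 h9
    linarith
  exact le_of_mul_le_mul_right hfin (by positivity)

end Pool.Agent.Helper71_SP
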