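import Pool.Agent.Helper71_SP.MomentPrimes

set_option autoImplicit false
set_option exponentiation.threshold 1000

/-!
Level sets and `5/2`-moment for the model `(1/V) 1_{rough}`.
-/

namespace Pool.Agent.Helper71_SP

open Finset Pool.Agent.Common_Sieve

/-- the model weight -/
noncomputable def Wm (v n : ℕ) : ℝ := (1 / Vp v) * rough v n

lemma Wm_nonneg (v n : ℕ) : 0 ≤ Wm v n := mul_nonneg (by have := Vp_pos v; positivity) (rough_nonneg v n)

lemma Vp_wj : ∃ C : ℝ, 0 < C ∧ ∀ j : ℕ, 1 / Vp (wj j) ≤ C * ((j : ℝ) + 1) ^ 3 := by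
  obtain ⟨CV, hCV, hVlow⟩ := Vp_lower
  refine ⟨CV * 15 ^ 2, by positivity, ?_⟩
  intro j
  have hwj := wj_ge j
  have h6 : 1 / Vp (wj j) ≤ CV * (15 * ((j : ℝ) + 1)) ^ 2 := by
    refine (hVlow (wj j) (by omega)).trans ?_
    apply mul_le_mul_of_nonneg_left _ hCV.le
    have hw1 : (1:ℝ) ≤ ((wj j : ℕ) : ℝ) + 1 := by
      have : (0:ℝ) ≤ ((wj j : ℕ) : ℝ) := by positivity
      linarith
    apply pow_le_pow_left₀ (Real.log_nonneg hw1)
    have h7 : ((wj j : ℕ) : ℝ) + 1 ≤ Real.exp (15 * ((j : ℝ) + 1)) := by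
      have h8 : ((wj j : ℕ) : ℝ) + 1 ≤ 2 ^ 21 * 8 ^ j := by
        unfold wj
        push_cast
        have : (1:ℝ) ≤ 8 ^ j := one_le_pow₀ (by norm_num)
        nlinarith
      have h10 : (2:ℝ) ^ 21 * 8 ^ j ≤ Real.exp (15 * ((j : ℝ) + 1)) := by
        have e1 : (2:ℝ) ^ 21 ≤ Real.exp 15 := by
          have : Real.exp 15 = Real.exp 1 ^ 15 := by rw [← Real.exp_nat_mul]; norm_num
          rw [this]
          have h11 : (2.7:ℝ) ≤ Real.exp 1 := by linarith [Real.exp_one_gt_d9]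
          calc (2:ℝ) ^ 21 ≤ 2.7 ^ 15 := by norm_num
            _ ≤ _ := pow_le_pow_left₀ (by norm_num) h11 15
        have e2 : (8:ℝ) ^ j ≤ Real.exp (15 * j) := by
          have : Real.exp (15 * (j : ℝ)) = (Real.exp 15) ^ j := by
            rw [← Real.exp_nat_mul]; congr 1; ring
          rw [this]
          apply pow_le_pow_left₀ (by norm_num)
          refine le_trans ?_ e1
          norm_num
        rw [mul_add, mul_one, Real.exp_add, mul_comm]
        exact mul_le_mul e2 e1 (by positivity) (Real.exp_pos _).le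
      linarith
    have := Real.log_le_log (by linarith) h7
    rwa [Real.log_exp] at this
  refine h6.trans ?_
  have h0 : (0:ℝ) ≤ j := by positivity
  have h1 : ((j : ℝ) + 1) ^ 2 ≤ ((j : ℝ) + 1) ^ 3 := pow_le_pow_right₀ (by linarith) (by norm_num)
  calc CV * (15 * ((j : ℝ) + 1)) ^ 2 = CV * 15 ^ 2 * ((j : ℝ) + 1) ^ 2 := by ring
    _ ≤ _ := mul_le_mul_of_nonneg_left h1 (by positivity)

lemma card_powerset_le (v : ℕ) : (v.primesBelow.powerset.card : ℝ) ≤ 2 ^ v := by
  rw [Finset.card_powerset]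
  push_cast
  apply pow_le_pow_right₀ (by norm_num)
  have : v.primesBelow ⊆ range v := fun p hp => Finset.mem_range.2 (Nat.mem_primesBelow.1 hp).1
  simpa using Finset.card_le_card this

/-- mass of the rough numbers -/
lemma rough_mass (v N : ℕ) : ∑ n ∈ Finset.Icc 1 N, rough v n ≤ N * Vp v + 2 ^ v := by
  have h1 : ∑ n ∈ Finset.Icc 1 N, rough v n
      = ∑ D ∈ v.primesBelow.powerset, sgn D * ((N / pr D : ℕ) : ℝ) := by
    rw [Finset.sum_congr rfl (fun n _ => rough_eq_dsum v n)]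
    unfold dsum
    rw [Finset.sum_comm]
    apply Finset.sum_congr rfl
    intro D _
    rw [← Finset.mul_sum]
    congr 1
    rw [← Nat.Ioc_filter_dvd_card_eq_div N (pr D), Finset.card_filter]
    push_cast
    rw [show Finset.Icc 1 N = Finset.Ioc 0 N by ext; simp [Finset.mem_Icc, Finset.mem_Ioc]; omega]
  rw [h1, ← gq_one_exact]
  unfold gq
  rw [Finset.mul_sum]
  have h2 : ∀ D ∈ v.primesBelow.powerset, sgn D * ((N / pr D : ℕ) : ℝ)
      ≤ N * (if 1 ∣ pr D then sgn D / pr D else 0) + 1 := by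
    intro D hD
    have hDS := Finset.mem_powerset.1 hD
    have hd0 : 0 < pr D := Finset.prod_pos (fun p hp => (Nat.prime_of_mem_primesBelow (hDS hp)).pos)
    have hdr : (0:ℝ) < pr D := by exact_mod_cast hd0
    rw [if_pos (one_dvd _)]
    have h3 : |((N / pr D : ℕ) : ℝ) - (N : ℝ) / pr D| ≤ 1 := by
      rw [abs_le]
      constructor
      · have := Nat.lt_div_mul_add (a := N) hd0
        have h4 : (N : ℝ) < (N / pr D : ℕ) * pr D + pr D := by exact_mod_cast this
        rw [neg_le_sub_iff_le_add, div_le_iff₀ hdr]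
        nlinarith
      · have h5 : ((N / pr D : ℕ) : ℝ) ≤ (N : ℝ) / pr D := Nat.cast_div_le
        linarith
    have h4 : |sgn D * (((N / pr D : ℕ) : ℝ) - (N : ℝ) / pr D)| ≤ 1 := by
      rw [abs_mul, abs_sgn, one_mul]; exact h3
    have h5 := (abs_le.1 h4).2
    have h6 : (N : ℝ) * (sgn D / pr D) = sgn D * ((N : ℝ) / pr D) := by ring
    rw [h6]
    linarith
  refine (Finset.sum_le_sum h2).trans ?_
  rw [Finset.sum_add_distrib, Finset.sum_const, nsmul_eq_mul, mul_one]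
  have := card_powerset_le v
  linarith

theorem level_model : ∃ C : ℝ, 0 < C ∧ ∀ v : ℕ, 2 ≤ v → ∃ N0 : ℕ, ∀ N ≥ N0, 1 ≤ N ∧
    (∑ n ∈ Finset.Icc 1 N, Wm v n ≤ 2 * N) ∧
    ∀ M ≥ N, ∀ j : ℕ,
    ∀ R ⊆ range M, (∀ r ∈ R, (N : ℝ) / 2 ^ j ≤ ‖Sf (fun n => (Wm v n : ℂ)) N ((r : ℝ) / M)‖) →
      (R.card : ℝ) ≤ C * ((j : ℝ) + 1) ^ 3 * 4 ^ j * (M / N) := by
  obtain ⟨CV, hCV, hVw⟩ := Vp_wj
  refine ⟨4 * CV, by positivity, ?_⟩
  intro v hv
  have hVv := Vp_pos v
  set K : ℝ := (2 / Vp v) * 2 ^ v * 64 * (v + 1) + 4 * pr v.primesBelow + 1 with hK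
  have hK0 : 0 < K := by positivity
  refine ⟨⌈K ^ 2⌉₊ + 1, ?_⟩
  intro N hN
  have hNK : K ^ 2 ≤ N := by
    have h1 := Nat.le_ceil (K ^ 2)
    have h2 : ((⌈K ^ 2⌉₊ + 1 : ℕ) : ℝ) ≤ N := by exact_mod_cast hN
    push_cast at h2
    linarith
  have hN1 : 1 ≤ N := by omega
  have hNr : (1:ℝ) ≤ N := by exact_mod_cast hN1
  have hKs : K ≤ Real.sqrt N := by
    rw [Real.le_sqrt hK0.le (by linarith)]; exact hNK
  set s := Real.sqrt N with hs
  have hss : s * s = N := Real.mul_self_sqrt (by linarith)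
  have hs1 : 1 ≤ s := by rw [hs, Real.one_le_sqrt]; exact hNr
  have hP0 : (0:ℝ) ≤ pr v.primesBelow := by positivity
  have hv0 : (0:ℝ) ≤ v := by positivity
  have h2v : (2 / Vp v) * 2 ^ v * 64 * (v + 1) ≤ s := by
    rw [hK] at hKs; linarith
  have hPs : 4 * (pr v.primesBelow : ℝ) ≤ s := by
    have : 0 ≤ (2 / Vp v) * 2 ^ v * 64 * ((v : ℝ) + 1) := by positivity
    rw [hK] at hKs; linarith
  have hbase : (1 / Vp v) * 2 ^ v ≤ s := by
    have h1 : (1 / Vp v) * 2 ^ v * 1 ≤ (1 / Vp v) * 2 ^ v * (128 * (v + 1)) := by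
      apply mul_le_mul_of_nonneg_left _ (by positivity)
      linarith
    have h2 : (1 / Vp v) * 2 ^ v * (128 * (v + 1)) = (2 / Vp v) * 2 ^ v * 64 * (v + 1) := by ring
    linarith
  have hmass : ∑ n ∈ Finset.Icc 1 N, Wm v n ≤ 2 * N := by
    unfold Wm
    rw [← Finset.mul_sum]
    calc (1 / Vp v) * ∑ n ∈ Finset.Icc 1 N, rough v n ≤ (1 / Vp v) * (N * Vp v + 2 ^ v) :=
          mul_le_mul_of_nonneg_left (rough_mass v N) (by positivity)
      _ = N + (1 / Vp v) * 2 ^ v := by field_simp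
      _ ≤ 2 * N := by nlinarith
  refine ⟨hN1, hmass, ?_⟩
  intro M hM j R hR hRb
  have hM0 : 0 < M := by omega
  have hnorm : ∀ n, ‖((Wm v n : ℝ) : ℂ)‖ = Wm v n := by
    intro n; rw [Complex.norm_real, Real.norm_eq_abs, abs_of_nonneg (Wm_nonneg v n)]
  have hb : (0:ℝ) < (N : ℝ) / 2 ^ j := by positivity
  have hfin : ∀ Kb : ℝ, Kb ≤ CV * ((j : ℝ) + 1) ^ 3 →
      (R.card : ℝ) * ((N : ℝ) / 2 ^ j) ^ 2 ≤ 2 * (2 * N) * Kb * M →
      (R.card : ℝ) ≤ 4 * CV * ((j : ℝ) + 1) ^ 3 * 4 ^ j * (M / N) := by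
    intro Kb hKb hlev
    have hfin : (R.card : ℝ) * ((N : ℝ) / 2 ^ j) ^ 2
      ≤ (4 * CV * ((j : ℝ) + 1) ^ 3 * 4 ^ j * (M / N)) * ((N : ℝ) / 2 ^ j) ^ 2 := by
      have h5 : (4 * CV * ((j : ℝ) + 1) ^ 3 * 4 ^ j * (M / N)) * ((N : ℝ) / 2 ^ j) ^ 2
          = 4 * N * (CV * ((j : ℝ) + 1) ^ 3) * M := by
        have h6 : (4:ℝ) ^ j = 2 ^ j * 2 ^ j := by rw [← mul_pow]; norm_num
        rw [h6]
        field_simp
      rw [h5]
      refine hlev.trans ?_
      have h7 : (0:ℝ) ≤ 4 * N := by positivity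
      have h8 := mul_le_mul_of_nonneg_left hKb h7
      have h9 : (0:ℝ) ≤ M := by positivity
      have h10 := mul_le_mul_of_nonneg_right h8 h9
      linarith
    exact le_of_mul_le_mul_right hfin (by positivity)
  have h1 : ∀ n ∈ Finset.Icc 1 N, ‖((Wm v n : ℝ) : ℂ)‖ ≤ Wm v n := fun n _ => (hnorm n).le
  have h2 : ∑ n ∈ Finset.Icc 1 N, ‖((Wm v n : ℝ) : ℂ)‖ ≤ 2 * N := by
    rw [Finset.sum_congr rfl (fun n _ => hnorm n)]; exact hmass
  have hwj := wj_ge j
  rcases le_or_gt v (wj j) with hvw | hvw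
  · -- direct
    have hKb : 1 / Vp v ≤ CV * ((j : ℝ) + 1) ^ 3 := by
      refine le_trans ?_ (hVw j)
      exact one_div_le_one_div_of_le (Vp_pos _) (Vp_anti hvw)
    refine hfin _ hKb ?_
    refine level_abs M N hM0 hM (fun n => (Wm v n : ℂ)) (Wm v) (Wm v) (2 * N) (1 / Vp v) 0
      ((N : ℝ) / 2 ^ j) (by positivity) hb h1 h2 ?_ ?_ R hR hRb ?_
    · intro n _
      unfold Wm
      calc (1 / Vp v) * rough v n ≤ (1 / Vp v) * 1 :=
            mul_le_mul_of_nonneg_left (rough_le_one v n) (by positivity)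
        _ = _ := mul_one _
    · intro θ; simp
    · rw [mul_zero]; positivity
  · -- comparison
    have hVwj := Vp_pos (wj j)
    refine hfin _ (hVw j) ?_
    refine level_abs M N hM0 hM (fun n => (Wm v n : ℂ)) (Wm v) (Wm (wj j)) (2 * N) (1 / Vp (wj j))
      (N * (1 / 4 ^ j) / 4) ((N : ℝ) / 2 ^ j) (by positivity) hb h1 h2 ?_ ?_ R hR hRb ?_
    · intro n _
      unfold Wm
      calc (1 / Vp (wj j)) * rough (wj j) n ≤ (1 / Vp (wj j)) * 1 :=
            mul_le_mul_of_nonneg_left (rough_le_one _ n) (by positivity)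
        _ = _ := mul_one _
    · intro θ
      have hpr : ∀ D ∈ v.primesBelow.powerset, 0 < pr D ∧ pr D ≤ pr v.primesBelow := by
        intro D hD
        have hDS := Finset.mem_powerset.1 hD
        refine ⟨Finset.prod_pos (fun p hp => (Nat.prime_of_mem_primesBelow (hDS hp)).pos), ?_⟩
        exact Finset.prod_le_prod_of_subset_of_one_le' hDS
          (fun p hp _ => (Nat.prime_of_mem_primesBelow hp).one_le)
      have hsub : (wj j).primesBelow ⊆ v.primesBelow := by
        intro p hp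
        rw [Nat.mem_primesBelow] at hp ⊢
        exact ⟨by omega, hp.2⟩
      have hpr' : ∀ D ∈ (wj j).primesBelow.powerset, 0 < pr D ∧ pr D ≤ pr v.primesBelow := by
        intro D hD
        exact hpr D (Finset.mem_powerset.2 ((Finset.mem_powerset.1 hD).trans hsub))
      have hcomp := transform_compare N (pr v.primesBelow) hN1 hPs v.primesBelow.powerset
        (wj j).primesBelow.powerset sgn sgn (1 / Vp v) (1 / Vp (wj j))
        (fun D _ => (abs_sgn D).le) hpr (fun D _ => (abs_sgn D).le) hpr'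
        (1 / (((wj j : ℕ) : ℝ) - 1)) (fun q hq => exact_compare (wj j) v q hvw.le (by omega) hq) θ
      have hrew : ∑ n ∈ Finset.Icc 1 N, ((Wm v n - Wm (wj j) n : ℝ) : ℂ) * e (θ * n)
          = ∑ n ∈ Finset.Icc 1 N, (((1 / Vp v) * dsum v.primesBelow.powerset sgn n
            - (1 / Vp (wj j)) * dsum (wj j).primesBelow.powerset sgn n : ℝ) : ℂ) * e (θ * n) := by
        apply Finset.sum_congr rfl
        intro n _
        unfold Wm
        rw [rough_eq_dsum, rough_eq_dsum]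
      rw [hrew]
      refine hcomp.trans ?_
      -- numerical bounds
      have h8 : (1:ℝ) ≤ 8 ^ j := one_le_pow₀ (by norm_num)
      have h4 : (0:ℝ) < 4 ^ j := by positivity
      have h48 : (4:ℝ) ^ j ≤ 8 ^ j := pow_le_pow_left₀ (by norm_num) (by norm_num) j
      have hA : (1 / (((wj j : ℕ) : ℝ) - 1)) * N ≤ N * (1 / 4 ^ j) / 8 := by
        have e1 : (1 / (((wj j : ℕ) : ℝ) - 1)) ≤ (1 / 4 ^ j) / 8 := by
          rw [div_div]
          apply one_div_le_one_div_of_le (by positivity)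
          unfold wj
          push_cast
          linarith
        have := mul_le_mul_of_nonneg_right e1 (show (0:ℝ) ≤ N by linarith)
        linarith
      have hB : (|1 / Vp v| * (v.primesBelow.powerset.card : ℝ)
          + |1 / Vp (wj j)| * ((wj j).primesBelow.powerset.card : ℝ)) * (8 * s)
          ≤ N * (1 / 4 ^ j) / 8 := by
        rw [abs_of_pos (by positivity), abs_of_pos (by positivity)]
        have e1 : (1 / Vp v) * (v.primesBelow.powerset.card : ℝ) ≤ (1 / Vp v) * 2 ^ v :=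
          mul_le_mul_of_nonneg_left (card_powerset_le v) (by positivity)
        have e2 : (1 / Vp (wj j)) * ((wj j).primesBelow.powerset.card : ℝ) ≤ (1 / Vp v) * 2 ^ v := by
          apply mul_le_mul
          · exact one_div_le_one_div_of_le hVv (Vp_anti hvw.le)
          · refine (card_powerset_le (wj j)).trans ?_
            exact pow_le_pow_right₀ (by norm_num) hvw.le
          · positivity
          · positivity
        have e3 : ((1 / Vp v) * (v.primesBelow.powerset.card : ℝ)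
          + (1 / Vp (wj j)) * ((wj j).primesBelow.powerset.card : ℝ)) * (8 * s)
          ≤ ((2 / Vp v) * 2 ^ v) * (8 * s) := by
          apply mul_le_mul_of_nonneg_right _ (by positivity)
          have : (2 / Vp v) * 2 ^ v = (1 / Vp v) * 2 ^ v + (1 / Vp v) * 2 ^ v := by ring
          linarith
        refine e3.trans ?_
        rw [le_div_iff₀ (by norm_num), mul_one_div, le_div_iff₀ h4]
        have e4 : (4:ℝ) ^ j ≤ v + 1 := by
          have e5 : 4 ^ j ≤ wj j := by
            unfold wj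
            have : 4 ^ j ≤ 8 ^ j := Nat.pow_le_pow_left (by norm_num) j
            omega
          have e6 : ((4 ^ j : ℕ) : ℝ) ≤ v := by exact_mod_cast e5.trans hvw.le
          push_cast at e6
          linarith
        calc ((2 / Vp v) * 2 ^ v) * (8 * s) * 8 * 4 ^ j
            = ((2 / Vp v) * 2 ^ v * 64) * 4 ^ j * s := by ring
          _ ≤ ((2 / Vp v) * 2 ^ v * 64) * (v + 1) * s := by
              apply mul_le_mul_of_nonneg_right _ (by linarith)
              exact mul_le_mul_of_nonneg_left e4 (by positivity)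
          _ ≤ s * s := mul_le_mul_of_nonneg_right h2v (by linarith)
          _ = N := hss
      linarith
    · rw [div_pow, ← pow_mul, mul_comm j 2, pow_mul]
      norm_num
      apply le_of_eq
      field_simp
      ring

theorem moment_model : ∃ C : ℝ, 0 < C ∧ ∀ v : ℕ, 2 ≤ v → ∃ N0 : ℕ, ∀ N ≥ N0, ∀ M ≥ N,
    ∑ r ∈ range M, ph ‖Sf (fun n => (Wm v n : ℂ)) N ((r : ℝ) / M)‖ ≤ C * M * (N * Real.sqrt N) := by
  obtain ⟨S, hS, hmom⟩ := moment_of_levels
  obtain ⟨C, hC, hlev⟩ := level_model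
  refine ⟨C * S + 1, by positivity, ?_⟩
  intro v hv
  obtain ⟨N0, hN0⟩ := hlev v hv
  refine ⟨N0, ?_⟩
  intro N hN M hM
  obtain ⟨hN1, hmass, hl⟩ := hN0 N hN
  have hNr : (1:ℝ) ≤ N := by exact_mod_cast hN1
  have hM0 : 0 < M := by omega
  have hnorm : ∀ n, ‖((Wm v n : ℝ) : ℂ)‖ = Wm v n := by
    intro n; rw [Complex.norm_real, Real.norm_eq_abs, abs_of_nonneg (Wm_nonneg v n)]
  have hf2 : ∀ r ∈ range M, ‖Sf (fun n => (Wm v n : ℂ)) N ((r : ℝ) / M)‖ ≤ 2 * N := by
    intro r _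
    refine le_trans ?_ hmass
    unfold Sf
    refine (norm_sum_le _ _).trans (le_of_eq ?_)
    apply Finset.sum_congr rfl
    intro n _
    rw [norm_mul, norm_e, mul_one, hnorm]
  apply hmom M N N hM0 (by omega) (fun r => ‖Sf (fun n => (Wm v n : ℂ)) N ((r : ℝ) / M)‖)
    (fun r _ => norm_nonneg _) hf2 C 1 hC.le
  · intro j hj
    apply hl M hM j _ (Finset.filter_subset _ _)
    intro r hr
    exact (Finset.mem_filter.1 hr).2
  · have h1 : ∀ r ∈ (range M).filter
        (fun r : ℕ => ‖Sf (fun n => (Wm v n : ℂ)) N ((r : ℝ) / M)‖ < (N : ℝ) / 2 ^ N),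
        ph ‖Sf (fun n => (Wm v n : ℂ)) N ((r : ℝ) / M)‖ ≤ 1 := by
      intro r hr
      have h2 := (Finset.mem_filter.1 hr).2
      have h3 : (N : ℝ) / 2 ^ N ≤ 1 := by
        rw [div_le_one (by positivity)]
        exact_mod_cast (Nat.lt_two_pow_self (n := N)).le
      have h4 : ph 1 = 1 := by unfold ph; simp
      rw [← h4]
      exact ph_mono (norm_nonneg _) (by linarith)
    refine (Finset.sum_le_sum h1).trans ?_
    rw [Finset.sum_const, nsmul_eq_mul, mul_one, one_mul]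
    have h2 : (((range M).filter
        (fun r : ℕ => ‖Sf (fun n => (Wm v n : ℂ)) N ((r : ℝ) / M)‖ < (N : ℝ) / 2 ^ N)).card : ℝ) ≤ M := by
      have := Finset.card_filter_le (range M)
        (fun r : ℕ => ‖Sf (fun n => (Wm v n : ℂ)) N ((r : ℝ) / M)‖ < (N : ℝ) / 2 ^ N)
      rw [Finset.card_range] at this
      exact_mod_cast this
    refine h2.trans ?_
    have h3 : 1 ≤ Real.sqrt N := by rw [Real.one_le_sqrt]; exact hNr
    have h4 : (0:ℝ) ≤ M := by positivity
    have h5 : (1:ℝ) ≤ N * Real.sqrt N := by nlinarith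
    nlinarith

end Pool.Agent.Helper71_SP
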