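import Pool.Agent.Helper71_SP.LevelPrimes

set_option autoImplicit false
set_option exponentiation.threshold 1000

/-!
`5/2`-moments of exponential sums from large values estimates.
-/

namespace Pool.Agent.Helper71_SP

open Finset Pool.Agent.Common_Sieve

/-- `x^{5/2}` -/
noncomputable def ph (x : ℝ) : ℝ := x ^ 2 * Real.sqrt x

lemma ph_nonneg (x : ℝ) : 0 ≤ ph x := by unfold ph; positivity

lemma ph_mono {x y : ℝ} (hx : 0 ≤ x) (h : x ≤ y) : ph x ≤ ph y := by
  unfold ph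
  apply mul_le_mul (pow_le_pow_left₀ hx h 2) (Real.sqrt_le_sqrt h) (Real.sqrt_nonneg _) (by positivity)

lemma ph_add_le {x y : ℝ} (hx : 0 ≤ x) (hy : 0 ≤ y) : ph (x + y) ≤ 8 * (ph x + ph y) := by
  have key : ∀ z : ℝ, 0 ≤ z → ph (2 * z) ≤ 8 * ph z := by
    intro z hz
    unfold ph
    rw [Real.sqrt_mul (by norm_num)]
    have h2 : Real.sqrt 2 ≤ 2 := by
      rw [Real.sqrt_le_left (by norm_num)]; norm_num
    have h3 : 0 ≤ z ^ 2 * Real.sqrt z := by positivity
    nlinarith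
  rcases le_total x y with h | h
  · have h1 : ph (x + y) ≤ ph (2 * y) := ph_mono (by linarith) (by linarith)
    have h2 := key y hy
    have h3 := ph_nonneg x
    linarith
  · have h1 : ph (x + y) ≤ ph (2 * x) := ph_mono (by linarith) (by linarith)
    have h2 := key x hx
    have h3 := ph_nonneg y
    linarith

lemma mul_mul_sqrt_le {x y z : ℝ} (hx : 0 ≤ x) (hy : 0 ≤ y) (hz : 0 ≤ z) :
    x * y * Real.sqrt z ≤ ph x + ph y + ph z := by
  have key : ∀ m : ℝ, x ≤ m → y ≤ m → z ≤ m → x * y * Real.sqrt z ≤ ph m := by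
    intro m h1 h2 h3
    have hm : 0 ≤ m := hx.trans h1
    unfold ph
    apply mul_le_mul _ (Real.sqrt_le_sqrt h3) (Real.sqrt_nonneg _) (by positivity)
    rw [sq]
    exact mul_le_mul h1 h2 hy hm
  have h1 := ph_nonneg x
  have h2 := ph_nonneg y
  have h3 := ph_nonneg z
  rcases le_total x y with h | h
  · rcases le_total y z with h' | h'
    · have := key z (h.trans h') h' le_rfl; linarith
    · have := key y h le_rfl h'; linarith
  · rcases le_total x z with h' | h'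
    · have := key z h' (h.trans h') le_rfl; linarith
    · have := key x le_rfl h h'; linarith

lemma dyadic (N : ℝ) (hN : 0 < N) (J : ℕ) (x : ℝ) (hx0 : 0 ≤ x) (hx : x ≤ 2 * N) (hxJ : N / 2 ^ J ≤ x) :
    ph x ≤ ∑ j ∈ range (J + 1), if N / 2 ^ j ≤ x then ph (2 * N / 2 ^ j) else 0 := by
  classical
  have hex : ∃ j, N / 2 ^ j ≤ x := ⟨J, hxJ⟩
  set j := Nat.find hex with hj
  have h1 : N / 2 ^ j ≤ x := Nat.find_spec hex
  have h2 : j ≤ J := Nat.find_min' hex hxJ
  have h3 : x ≤ 2 * N / 2 ^ j := by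
    rcases Nat.eq_zero_or_pos j with h0 | h0
    · rw [h0]; simpa using hx
    · have h4 : ¬ (N / 2 ^ (j - 1) ≤ x) := Nat.find_min hex (by omega)
      push Not at h4
      have h5 : (2:ℝ) ^ j = 2 * 2 ^ (j - 1) := by
        rw [← pow_succ']; congr 1; omega
      rw [h5, mul_div_mul_left _ _ (by norm_num : (2:ℝ) ≠ 0)]
      exact h4.le
  have h4 : ph x ≤ if N / 2 ^ j ≤ x then ph (2 * N / 2 ^ j) else 0 := by
    rw [if_pos h1]; exact ph_mono hx0 h3
  refine h4.trans ?_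
  apply Finset.single_le_sum (f := fun j => if N / 2 ^ j ≤ x then ph (2 * N / 2 ^ j) else 0)
    (fun i _ => ?_) (Finset.mem_range.2 (by omega))
  split_ifs
  · exact ph_nonneg _
  · exact le_rfl

lemma exists_series : ∃ S : ℝ, 0 < S ∧ ∀ J : ℕ,
    ∑ j ∈ range J, ((j : ℝ) + 1) ^ 3 * (1 / Real.sqrt 2) ^ j ≤ S := by
  have h2 : (1:ℝ) < Real.sqrt 2 := by
    rw [Real.lt_sqrt (by norm_num)]; norm_num
  have h0 : ‖(1 / Real.sqrt 2 : ℝ)‖ < 1 := by
    rw [Real.norm_eq_abs, abs_of_pos (by positivity), div_lt_one (by linarith)]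
    exact h2
  have hs : Summable (fun j : ℕ => ((j : ℝ) + 1) ^ 3 * (1 / Real.sqrt 2) ^ j) := by
    have s3 := summable_pow_mul_geometric_of_norm_lt_one 3 h0
    have s2 := summable_pow_mul_geometric_of_norm_lt_one 2 h0
    have s1 := summable_pow_mul_geometric_of_norm_lt_one 1 h0
    have s0 := summable_pow_mul_geometric_of_norm_lt_one 0 h0
    have := ((s3.add (s2.mul_left 3)).add (s1.mul_left 3)).add s0
    refine this.congr ?_
    intro j
    ring
  refine ⟨∑' j : ℕ, ((j : ℝ) + 1) ^ 3 * (1 / Real.sqrt 2) ^ j + 1, ?_, ?_⟩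
  · have : 0 ≤ ∑' j : ℕ, ((j : ℝ) + 1) ^ 3 * (1 / Real.sqrt 2) ^ j := tsum_nonneg (fun j => by positivity)
    linarith
  · intro J
    have := hs.sum_le_tsum (range J) (fun j _ => by positivity)
    linarith

theorem moment_of_levels : ∃ S : ℝ, 0 < S ∧ ∀ (M N J : ℕ), 0 < M → 0 < N → ∀ f : ℕ → ℝ,
    (∀ r ∈ range M, 0 ≤ f r) → (∀ r ∈ range M, f r ≤ 2 * N) → ∀ C D : ℝ, 0 ≤ C →
    (∀ j ≤ J, (((range M).filter (fun r => (N : ℝ) / 2 ^ j ≤ f r)).card : ℝ)
      ≤ C * ((j : ℝ) + 1) ^ 3 * 4 ^ j * (M / N)) →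
    (∑ r ∈ (range M).filter (fun r => f r < (N : ℝ) / 2 ^ J), ph (f r) ≤ D * M * (N * Real.sqrt N)) →
    ∑ r ∈ range M, ph (f r) ≤ (C * S + D) * M * (N * Real.sqrt N) := by
  obtain ⟨S, hS, hSJ⟩ := exists_series
  refine ⟨4 * Real.sqrt 2 * S, by positivity, ?_⟩
  intro M N J hM hN f hf0 hf2 C D hC hlev htail
  have hNr : (0:ℝ) < N := by exact_mod_cast hN
  have hMr : (0:ℝ) < M := by exact_mod_cast hM
  have h1 : ∀ r ∈ range M, ph (f r) ≤ (if f r < (N : ℝ) / 2 ^ J then ph (f r) else 0)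
      + ∑ j ∈ range (J + 1), if (N : ℝ) / 2 ^ j ≤ f r then ph (2 * N / 2 ^ j) else 0 := by
    intro r hr
    by_cases h : f r < (N : ℝ) / 2 ^ J
    · rw [if_pos h]
      have : 0 ≤ ∑ j ∈ range (J + 1), if (N : ℝ) / 2 ^ j ≤ f r then ph (2 * N / 2 ^ j) else 0 :=
        Finset.sum_nonneg (fun j _ => by split_ifs; exacts [ph_nonneg _, le_rfl])
      linarith
    · rw [if_neg h, zero_add]
      push Not at h
      exact dyadic N hNr J (f r) (hf0 r hr) (hf2 r hr) h
  refine (Finset.sum_le_sum h1).trans ?_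
  rw [Finset.sum_add_distrib, ← Finset.sum_filter, Finset.sum_comm]
  have h2 : ∀ j ∈ range (J + 1), ∑ r ∈ range M, (if (N : ℝ) / 2 ^ j ≤ f r then ph (2 * N / 2 ^ j) else 0)
      ≤ (C * (4 * Real.sqrt 2) * M * (N * Real.sqrt N)) * (((j : ℝ) + 1) ^ 3 * (1 / Real.sqrt 2) ^ j) := by
    intro j hj
    rw [← Finset.sum_filter, Finset.sum_const, nsmul_eq_mul]
    have h3 := hlev j (by have := Finset.mem_range.1 hj; omega)
    have h4 : ph (2 * N / 2 ^ j) = 4 * N ^ 2 / 4 ^ j * (Real.sqrt 2 * Real.sqrt N * (1 / Real.sqrt 2) ^ j) := by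
      unfold ph
      have e1 : Real.sqrt (2 * N / 2 ^ j) = Real.sqrt 2 * Real.sqrt N * (1 / Real.sqrt 2) ^ j := by
        rw [Real.sqrt_div (by positivity), Real.sqrt_mul (by norm_num), one_div, inv_pow, ← div_eq_mul_inv]
        congr 1
        rw [Real.sqrt_eq_iff_mul_self_eq (by positivity) (by positivity), ← mul_pow,
          Real.mul_self_sqrt (by norm_num)]
      have e2 : ((2:ℝ) ^ j) ^ 2 = 4 ^ j := by
        rw [← pow_mul, mul_comm j 2, pow_mul]; norm_num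
      rw [e1, div_pow, e2, mul_pow]
      norm_num
    calc (((range M).filter (fun r => (N : ℝ) / 2 ^ j ≤ f r)).card : ℝ) * ph (2 * N / 2 ^ j)
        ≤ (C * ((j : ℝ) + 1) ^ 3 * 4 ^ j * (M / N)) * ph (2 * N / 2 ^ j) :=
          mul_le_mul_of_nonneg_right h3 (ph_nonneg _)
      _ = _ := by
          rw [h4]; field_simp
  have h3 := Finset.sum_le_sum h2
  rw [← Finset.mul_sum] at h3
  have h4 := mul_le_mul_of_nonneg_left (hSJ (J + 1))
    (show 0 ≤ C * (4 * Real.sqrt 2) * M * (N * Real.sqrt N) by positivity)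
  calc _ ≤ D * M * (N * Real.sqrt N) + C * (4 * Real.sqrt 2) * M * (N * Real.sqrt N) * S := by
        linarith
    _ = _ := by ring

end Pool.Agent.Helper71_SP
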