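import Pool.Agent.Helper71_SP.Moment

set_option autoImplicit false
set_option exponentiation.threshold 1000

/-!
`5/2`-moment for functions bounded by the primes.
-/

namespace Pool.Agent.Helper71_SP

open Finset Pool.Agent.Common_Sieve

/-- growth of the admissible levels -/
lemma exists_j0 : ∃ j0 : ℕ, ∀ j ≥ j0, (tj (j + 1) : ℝ) * Real.log (wj (j + 1)) ≤ Real.sqrt 2 ^ j := by
  have h2 : (1:ℝ) < Real.sqrt 2 := by
    rw [Real.lt_sqrt (by norm_num)]; norm_num
  have h1 := (tendsto_pow_const_div_const_pow_of_one_lt 2 h2).eventually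
    (gt_mem_nhds (show (0:ℝ) < 1 / 1000000 by norm_num))
  obtain ⟨j1, hj1⟩ := (h1.and (Filter.eventually_ge_atTop 1)).exists_forall_of_atTop
  refine ⟨j1, ?_⟩
  intro j hj
  obtain ⟨h3, h4⟩ := hj1 j hj
  have hpos : (0:ℝ) < Real.sqrt 2 ^ j := by positivity
  rw [div_lt_iff₀ hpos] at h3
  have hjr : (1:ℝ) ≤ j := by exact_mod_cast h4
  have h5 : Real.log (wj (j + 1)) ≤ 20 * j := by
    have h6 : ((wj (j + 1) : ℕ) : ℝ) ≤ Real.exp (20 * j) := by
      unfold wj
      push_cast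
      have h7 : Real.exp (20 * j) = Real.exp 20 ^ j := by
        rw [← Real.exp_nat_mul]; ring_nf
      have h8 : (8000000 * 8 : ℝ) ≤ Real.exp 20 := by
        have : Real.exp 20 = Real.exp 1 ^ 20 := by rw [← Real.exp_nat_mul]; norm_num
        rw [this]
        calc (8000000 * 8 : ℝ) ≤ 2.7 ^ 20 := by norm_num
          _ ≤ Real.exp 1 ^ 20 := pow_le_pow_left₀ (by norm_num) (by linarith [Real.exp_one_gt_d9]) _
      rw [h7]
      calc (1000000 * 8 ^ (j + 1) : ℝ) = 8000000 * 8 ^ j := by ring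
        _ ≤ 8000000 ^ j * 8 ^ j := by
            apply mul_le_mul_of_nonneg_right _ (by positivity)
            exact le_self_pow₀ (by norm_num) (by omega)
        _ = (8000000 * 8) ^ j := by rw [mul_pow]
        _ ≤ _ := pow_le_pow_left₀ (by norm_num) h8 _
    have hw0 : (0:ℝ) < ((wj (j + 1) : ℕ) : ℝ) := by
      have := wj_ge (j + 1); exact_mod_cast (by omega : 0 < wj (j + 1))
    rw [Real.log_le_iff_le_exp hw0]
    exact h6
  have h6 : (tj (j + 1) : ℝ) ≤ 10400 * j := by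
    unfold tj Bj
    push_cast
    nlinarith
  have h7 : (0:ℝ) ≤ Real.log (wj (j + 1)) := by
    apply Real.log_nonneg
    have := wj_ge (j + 1); exact_mod_cast (by omega : 1 ≤ wj (j + 1))
  calc (tj (j + 1) : ℝ) * Real.log (wj (j + 1)) ≤ (10400 * j) * (20 * j) :=
        mul_le_mul h6 h5 h7 (by positivity)
    _ = 208000 * (j : ℝ) ^ 2 := by ring
    _ ≤ _ := by nlinarith

lemma wt_mono {i j : ℕ} (h : i ≤ j) : wj i ^ tj i ≤ wj j ^ tj j := by
  have h1 : wj i ≤ wj j := by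
    unfold wj
    exact Nat.mul_le_mul_left _ (Nat.pow_le_pow_right (by norm_num) h)
  have h2 : tj i ≤ tj j := by unfold tj Bj; omega
  have h3 := wj_ge j
  exact (Nat.pow_le_pow_left h1 _).trans (Nat.pow_le_pow_right (by omega) h2)

lemma exists_J : ∃ N0 : ℕ, ∀ N ≥ N0, ∃ J : ℕ, (∀ j ≤ J, wj j ^ tj j ≤ N) ∧
    Real.log N ^ 2 ≤ 2 ^ J := by
  obtain ⟨j0, hj0⟩ := exists_j0
  have ht : Filter.Tendsto (fun N : ℕ => Real.log N) Filter.atTop Filter.atTop :=
    Real.tendsto_log_atTop.comp tendsto_natCast_atTop_atTop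
  obtain ⟨N0, hN0⟩ := ((ht.eventually_ge_atTop (2 ^ (j0 + 2))).and
    (Filter.eventually_ge_atTop 2)).exists_forall_of_atTop
  refine ⟨N0, ?_⟩
  intro N hN
  obtain ⟨h1, hN2⟩ := hN0 N hN
  have hlog1 : (1:ℝ) ≤ Real.log N := le_trans (one_le_pow₀ (by norm_num)) h1
  set x := Real.log N ^ 2 with hx
  have hx1 : Real.log N ≤ x := by rw [hx]; nlinarith
  set J := Nat.clog 2 ⌈x⌉₊ with hJ
  have hup : x ≤ 2 ^ J := by
    have h2 : ⌈x⌉₊ ≤ 2 ^ J := Nat.le_pow_clog (by norm_num) _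
    have h3 : x ≤ ⌈x⌉₊ := Nat.le_ceil x
    have h4 : ((⌈x⌉₊ : ℕ) : ℝ) ≤ ((2 ^ J : ℕ) : ℝ) := by exact_mod_cast h2
    push_cast at h4
    linarith
  have hJge : j0 + 2 ≤ J := by
    by_contra hlt
    push Not at hlt
    have h2 : (2:ℝ) ^ J ≤ 2 ^ (j0 + 1) := pow_le_pow_right₀ (by norm_num) (by omega)
    have h3 : (2:ℝ) ^ (j0 + 2) = 2 * 2 ^ (j0 + 1) := by rw [pow_succ]; ring
    have h4 : (0:ℝ) < 2 ^ (j0 + 1) := by positivity
    linarith
  have hlow : (2:ℝ) ^ (J - 1) < x := by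
    have h2 : 1 < ⌈x⌉₊ := by
      rw [Nat.lt_ceil]
      have h3 : (1:ℝ) < 2 ^ (j0 + 2) := one_lt_pow₀ (by norm_num) (by omega)
      push_cast
      linarith
    have h3 := Nat.pow_pred_clog_lt_self (b := 2) (by norm_num) h2
    rw [Nat.lt_ceil] at h3
    rw [← hJ] at h3
    push_cast at h3
    exact h3
  refine ⟨J, ?_, hup⟩
  intro j hj
  refine (wt_mono hj).trans ?_
  have h2 := hj0 (J - 1) (by omega)
  rw [show J - 1 + 1 = J by omega] at h2
  have h3 : Real.sqrt 2 ^ (J - 1) ≤ Real.log N := by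
    apply le_of_pow_le_pow_left₀ (n := 2) (by norm_num) (by linarith)
    rw [← pow_mul, mul_comm, pow_mul, Real.sq_sqrt (by norm_num)]
    exact hlow.le
  have hw0 : (0:ℝ) < ((wj J : ℕ) : ℝ) := by
    have := wj_ge J; exact_mod_cast (by omega : 0 < wj J)
  have hNpos : (0:ℝ) < N := by exact_mod_cast (by omega : 0 < N)
  have h4 : Real.log (((wj J : ℕ) : ℝ) ^ tj J) ≤ Real.log N := by
    rw [Real.log_pow]; linarith
  have h5 := (Real.log_le_log_iff (by positivity) hNpos).1 h4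
  exact_mod_cast h5

theorem moment_primes : ∃ C : ℝ, 0 < C ∧ ∃ N0 : ℕ, ∀ N ≥ N0, ∀ M ≥ N, ∀ u : ℕ → ℂ,
    (∀ n ∈ Finset.Icc 1 N, ‖u n‖ ≤ if n.Prime then Real.log N else 0) →
    ∑ r ∈ range M, ph ‖Sf u N ((r : ℝ) / M)‖ ≤ C * M * (N * Real.sqrt N) := by
  obtain ⟨S, hS, hmom⟩ := moment_of_levels
  obtain ⟨C, hC, N1, hlev⟩ := level_primes
  obtain ⟨N2, hJ⟩ := exists_J
  obtain ⟨N3, hmass⟩ := primes_mass
  refine ⟨C * S + 2, by positivity, max (max N1 N2) (max N3 2), ?_⟩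
  intro N hN M hM u hu
  have hN1 : N1 ≤ N := le_trans ((le_max_left _ _).trans (le_max_left _ _)) hN
  have hN2 : N2 ≤ N := le_trans ((le_max_right _ _).trans (le_max_left _ _)) hN
  have hN3 : N3 ≤ N := le_trans ((le_max_left _ _).trans (le_max_right _ _)) hN
  have hN4 : 2 ≤ N := le_trans ((le_max_right _ _).trans (le_max_right _ _)) hN
  have hNr : (2:ℝ) ≤ N := by exact_mod_cast hN4
  have hM0 : 0 < M := by omega
  have hlog0 : 0 < Real.log N := Real.log_pos (by linarith)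
  obtain ⟨J, hJ1, hJ2⟩ := hJ N hN2
  have hmassN := hmass N hN3
  have hu1 : ∑ n ∈ Finset.Icc 1 N, ‖u n‖ ≤ 2 * N := (Finset.sum_le_sum hu).trans hmassN
  have hf2 : ∀ r ∈ range M, ‖Sf u N ((r : ℝ) / M)‖ ≤ 2 * N := by
    intro r _
    refine le_trans ?_ hu1
    unfold Sf
    refine (norm_sum_le _ _).trans (le_of_eq ?_)
    apply Finset.sum_congr rfl
    intro n _
    rw [norm_mul, norm_e, mul_one]
  apply hmom M N J hM0 (by omega) (fun r => ‖Sf u N ((r : ℝ) / M)‖) (fun r _ => norm_nonneg _) hf2 C 2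
    hC.le
  · intro j hj
    apply hlev N hN1 M hM j (hJ1 j hj) u hu _ (Finset.filter_subset _ _)
    intro r hr
    exact (Finset.mem_filter.1 hr).2
  · -- the tail
    have hpars := parseval u M N hM0 hM
    have hL2 : ∑ n ∈ Finset.Icc 1 N, ‖u n‖ ^ 2 ≤ Real.log N * (2 * N) := by
      calc ∑ n ∈ Finset.Icc 1 N, ‖u n‖ ^ 2 ≤ ∑ n ∈ Finset.Icc 1 N, Real.log N * ‖u n‖ := by
            apply Finset.sum_le_sum
            intro n hn
            rw [sq]
            apply mul_le_mul_of_nonneg_right _ (norm_nonneg _)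
            refine (hu n hn).trans ?_
            split_ifs
            · exact le_rfl
            · exact hlog0.le
        _ = Real.log N * ∑ n ∈ Finset.Icc 1 N, ‖u n‖ := by rw [Finset.mul_sum]
        _ ≤ _ := mul_le_mul_of_nonneg_left hu1 hlog0.le
    have h1 : ∀ r ∈ (range M).filter (fun r : ℕ => ‖Sf u N ((r : ℝ) / M)‖ < (N : ℝ) / 2 ^ J),
        ph ‖Sf u N ((r : ℝ) / M)‖ ≤ ‖Sf u N ((r : ℝ) / M)‖ ^ 2 * (Real.sqrt N / Real.log N) := by
      intro r hr
      have h2 := (Finset.mem_filter.1 hr).2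
      unfold ph
      apply mul_le_mul_of_nonneg_left _ (by positivity)
      rw [Real.sqrt_le_left (by positivity), div_pow, Real.sq_sqrt (by linarith)]
      refine h2.le.trans ?_
      apply div_le_div_of_nonneg_left (by linarith) (by positivity) hJ2
    refine (Finset.sum_le_sum h1).trans ?_
    rw [← Finset.sum_mul]
    have h2 : ∑ r ∈ (range M).filter (fun r : ℕ => ‖Sf u N ((r : ℝ) / M)‖ < (N : ℝ) / 2 ^ J),
        ‖Sf u N ((r : ℝ) / M)‖ ^ 2 ≤ M * (Real.log N * (2 * N)) := by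
      refine le_trans ?_ (le_trans hpars.le (mul_le_mul_of_nonneg_left hL2 (by positivity)))
      apply Finset.sum_le_sum_of_subset_of_nonneg (Finset.filter_subset _ _)
      intro r _ _
      positivity
    calc _ ≤ (M * (Real.log N * (2 * N))) * (Real.sqrt N / Real.log N) :=
          mul_le_mul_of_nonneg_right h2 (by positivity)
      _ = 2 * M * (N * Real.sqrt N) := by field_simp

end Pool.Agent.Helper71_SP
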