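import Mathlib

set_option autoImplicit false

/-!
Interface between the restriction theorem and `DegMinus`.
-/

namespace Pool.Agent.Helper71_SP

open Finset

/-- `Λ` minus its `w`-model -/
noncomputable def Ew (w n : ℕ) : ℝ :=
  ArithmeticFunction.vonMangoldt n -
    (if Nat.Coprime n (primorial w) then (primorial w : ℝ) / (Nat.totient (primorial w)) else 0)

/-- bilinear cancellation of `Ew` along `a x + b y`, `x, y` prime -/
def TB (a b : ℤ) : Prop :=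
  ∀ ε : ℝ, 0 < ε → ∃ w0 : ℕ, ∀ w : ℕ, w0 ≤ w → ∃ N0 : ℕ, ∀ N : ℕ, N0 ≤ N →
    ∀ X Y : Finset ℕ, X ⊆ (Finset.Icc 1 N).filter Nat.Prime →
      Y ⊆ (Finset.Icc 1 N).filter Nat.Prime →
      |∑ x ∈ X, ∑ y ∈ Y,
        (if 1 ≤ a * (x : ℤ) + b * (y : ℤ) ∧ a * (x : ℤ) + b * (y : ℤ) ≤ (N : ℤ)
          then Ew w (a * (x : ℤ) + b * (y : ℤ)).toNat else 0)|
        ≤ ε * ((N : ℝ) / Real.log N) ^ 2

/-- the main term: almost prime values, uniformly over primes `x` -/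
def MainTerm (a b : ℤ) (x0 x1 y0 y1 : ℝ) : Prop :=
  ∀ w : ℕ, ∃ K : ℕ, ∀ k : ℕ, K ≤ k → ∀ x : ℕ, x.Prime → x0 * k < x → (x : ℝ) ≤ x1 * k →
    (y1 - y0) / 4 * k / Real.log k ≤
      ((primorial w : ℝ) / (Nat.totient (primorial w))) *
        (((Finset.range (⌊y1 * k⌋₊ + 1)).filter (fun p : ℕ => p.Prime ∧ y0 * k < p ∧
          (p : ℝ) ≤ y1 * k ∧ Nat.Coprime (a * (x : ℤ) + b * (p : ℤ)).toNat (primorial w))).card : ℝ)

end Pool.Agent.Helper71_SP
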