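import Pool.Agent.Helper71_SP.Moment

set_option autoImplicit false

/-!
Trilinear sums through exponential sums on `ℤ/M`.
-/

namespace Pool.Agent.Helper71_SP

open Finset

lemma sum_e_range0 (M : ℕ) (hM : 0 < M) (a : ℤ) :
    ∑ r ∈ range M, e ((a : ℝ) / M * r) = if (M : ℤ) ∣ a then (M : ℂ) else 0 := by
  rw [← sum_e_range M hM a]
  have hMr : (M : ℝ) ≠ 0 := by exact_mod_cast hM.ne'
  have e1 : ∑ n ∈ Finset.Icc 1 M, e ((a : ℝ) / M * n)
      = ∑ n ∈ Finset.range M, e ((a : ℝ) / M * ((n + 1 : ℕ) : ℝ)) := by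
    rw [show Finset.Icc 1 M = Finset.Ico (0 + 1) (M + 1) by ext; simp [Finset.mem_Icc, Finset.mem_Ico]]
    rw [← Finset.sum_Ico_add', ← Finset.range_eq_Ico]
  rw [e1]
  have e2 := Finset.sum_range_succ (fun n : ℕ => e ((a : ℝ) / M * n)) M
  have e3 := Finset.sum_range_succ' (fun n : ℕ => e ((a : ℝ) / M * n)) M
  rw [e2] at e3
  have e4 : e ((a : ℝ) / M * (M : ℝ)) = e ((a : ℝ) / M * ((0 : ℕ) : ℝ)) := by
    rw [div_mul_cancel₀ _ hMr, Nat.cast_zero, mul_zero, e_int, e_zero]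
  rw [e4] at e3
  exact add_right_cancel e3

/-- the trilinear identity -/
theorem trilinear (a b : ℤ) (M N : ℕ) (hM : (|a| + |b| + 1) * N < M) (u v f : ℕ → ℂ) :
    ∑ r ∈ range M, Sf u N ((a * r : ℝ) / M) * Sf v N ((b * r : ℝ) / M) * Sf f N (((-1 : ℤ) * r : ℝ) / M)
      = M * ∑ x ∈ Finset.Icc 1 N, ∑ y ∈ Finset.Icc 1 N, u x * v y *
        (if 1 ≤ a * (x : ℤ) + b * (y : ℤ) ∧ a * (x : ℤ) + b * (y : ℤ) ≤ (N : ℤ)
          then f (a * (x : ℤ) + b * (y : ℤ)).toNat else 0) := by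
  have hM0 : 0 < M := by
    have : (0:ℤ) < M := lt_of_le_of_lt (by positivity) hM
    exact_mod_cast this
  have hMr : (M : ℝ) ≠ 0 := by exact_mod_cast hM0.ne'
  have h1 : ∀ r ∈ range M, Sf u N ((a * r : ℝ) / M) * Sf v N ((b * r : ℝ) / M)
      * Sf f N (((-1 : ℤ) * r : ℝ) / M)
      = ∑ x ∈ Finset.Icc 1 N, ∑ y ∈ Finset.Icc 1 N, ∑ n ∈ Finset.Icc 1 N,
        u x * v y * f n * e (((a * x + b * y - n : ℤ) : ℝ) / M * r) := by
    intro r _
    unfold Sf
    rw [Finset.sum_mul_sum, Finset.sum_mul]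
    apply Finset.sum_congr rfl
    intro x _
    rw [Finset.sum_mul]
    apply Finset.sum_congr rfl
    intro y _
    rw [Finset.mul_sum]
    apply Finset.sum_congr rfl
    intro n _
    have : e (((a * x + b * y - n : ℤ) : ℝ) / M * r)
        = e ((a * r : ℝ) / M * x) * e ((b * r : ℝ) / M * y) * e (((-1 : ℤ) * r : ℝ) / M * n) := by
      rw [← e_add, ← e_add]
      congr 1
      push_cast
      ring
    rw [this]
    ring
  rw [Finset.sum_congr rfl h1, Finset.sum_comm, Finset.mul_sum]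
  apply Finset.sum_congr rfl
  intro x hx
  rw [Finset.sum_comm, Finset.mul_sum]
  apply Finset.sum_congr rfl
  intro y hy
  rw [Finset.sum_comm]
  have hx' := Finset.mem_Icc.1 hx
  have hy' := Finset.mem_Icc.1 hy
  have h2 : ∀ n ∈ Finset.Icc 1 N, ∑ r ∈ range M, u x * v y * f n * e (((a * x + b * y - n : ℤ) : ℝ) / M * r)
      = if (a * (x : ℤ) + b * (y : ℤ)) = n then M * (u x * v y * f n) else 0 := by
    intro n hn
    have hn' := Finset.mem_Icc.1 hn
    rw [← Finset.mul_sum, sum_e_range0 M hM0]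
    by_cases h : (a * (x : ℤ) + b * (y : ℤ)) = n
    · rw [if_pos (by rw [h, sub_self]; exact dvd_zero _), if_pos h]; ring
    · rw [if_neg, if_neg h, mul_zero]
      intro hd
      apply h
      have h3 : |a * (x : ℤ) + b * (y : ℤ) - n| < M := by
        have e1 : |a * (x : ℤ) + b * (y : ℤ) - n| ≤ |a| * N + |b| * N + N := by
          have f1 : |a * (x : ℤ)| ≤ |a| * N := by
            rw [abs_mul, Nat.abs_cast]
            exact mul_le_mul_of_nonneg_left (by exact_mod_cast hx'.2) (abs_nonneg _)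
          have f2 : |b * (y : ℤ)| ≤ |b| * N := by
            rw [abs_mul, Nat.abs_cast]
            exact mul_le_mul_of_nonneg_left (by exact_mod_cast hy'.2) (abs_nonneg _)
          have f3 := abs_sub (a * (x : ℤ) + b * (y : ℤ)) (n : ℤ)
          have f4 := abs_add_le (a * (x : ℤ)) (b * (y : ℤ))
          rw [Nat.abs_cast] at f3
          have f5 : (n : ℤ) ≤ N := by exact_mod_cast hn'.2
          linarith
        have e2 : |a| * (N : ℤ) + |b| * N + N = (|a| + |b| + 1) * N := by ring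
        omega
      have h4 := Int.eq_zero_of_abs_lt_dvd hd h3
      omega
  rw [Finset.sum_congr rfl h2]
  by_cases h : 1 ≤ a * (x : ℤ) + b * (y : ℤ) ∧ a * (x : ℤ) + b * (y : ℤ) ≤ (N : ℤ)
  · rw [if_pos h]
    have h5 : ∀ n ∈ Finset.Icc 1 N, (if (a * (x : ℤ) + b * (y : ℤ)) = n then M * (u x * v y * f n) else 0)
        = if (a * (x : ℤ) + b * (y : ℤ)).toNat = n then M * (u x * v y * f n) else 0 := by
      intro n _
      have : ((a * (x : ℤ) + b * (y : ℤ)) = n) ↔ ((a * (x : ℤ) + b * (y : ℤ)).toNat = n) := by omega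
      simp only [this]
    rw [Finset.sum_congr rfl h5, Finset.sum_ite_eq, if_pos]
    rw [Finset.mem_Icc]
    omega
  · rw [if_neg h, mul_zero, mul_zero]
    apply Finset.sum_eq_zero
    intro n hn
    have hn' := Finset.mem_Icc.1 hn
    rw [if_neg]
    intro h6
    apply h
    omega

lemma Sf_add_int (u : ℕ → ℂ) (N : ℕ) (θ : ℝ) (k : ℤ) : Sf u N (θ + k) = Sf u N θ := by
  unfold Sf
  apply Finset.sum_congr rfl
  intro n _
  congr 1
  have : (θ + k) * (n : ℝ) = θ * n + ((k * n : ℤ) : ℝ) := by push_cast; ring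
  rw [this, e_add_int]

/-- dilation invariance of sums over `ℤ/M`, `M` prime -/
lemma sum_dilate (G : ℝ → ℝ) (hG : ∀ (θ : ℝ) (k : ℤ), G (θ + k) = G θ) (M : ℕ) (hM : M.Prime)
    (a : ℤ) (ha : ¬ (M : ℤ) ∣ a) :
    ∑ r ∈ range M, G ((a * r : ℝ) / M) = ∑ r ∈ range M, G ((r : ℝ) / M) := by
  have hM0 : 0 < M := hM.pos
  have hMr : (M : ℝ) ≠ 0 := by exact_mod_cast hM0.ne'
  have hMz : (M : ℤ) ≠ 0 := by exact_mod_cast hM0.ne'
  set i : ℕ → ℕ := fun r => ((a * r) % M).toNat with hi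
  have hicast : ∀ r : ℕ, ((i r : ℕ) : ℤ) = (a * r) % M := by
    intro r
    rw [hi]
    simp only
    exact Int.toNat_of_nonneg (Int.emod_nonneg _ hMz)
  have hmaps : ∀ r ∈ range M, i r ∈ range M := by
    intro r _
    rw [Finset.mem_range]
    have h1 := hicast r
    have h2 := Int.emod_lt_of_pos (a * r) (by exact_mod_cast hM0 : (0:ℤ) < M)
    omega
  have hinj : Set.InjOn i (range M : Finset ℕ) := by
    intro r hr s hs hrs
    have hr' := Finset.mem_range.1 (Finset.mem_coe.1 hr)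
    have hs' := Finset.mem_range.1 (Finset.mem_coe.1 hs)
    have h1 : (a * r) % M = (a * s) % M := by rw [← hicast, ← hicast, hrs]
    have h2 : (M : ℤ) ∣ a * r - a * s := Int.ModEq.dvd (show a * s ≡ a * r [ZMOD M] from h1.symm)
    rw [← mul_sub] at h2
    have hp : Prime (M : ℤ) := Nat.prime_iff_prime_int.1 hM
    have h3 := (hp.dvd_or_dvd h2).resolve_left ha
    have h4 : |(r : ℤ) - s| < M := by rw [abs_lt]; omega
    have h5 := Int.eq_zero_of_abs_lt_dvd h3 h4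
    omega
  have hsurj : Set.SurjOn i (range M : Finset ℕ) (range M : Finset ℕ) :=
    Finset.surjOn_of_injOn_of_card_le i hmaps hinj le_rfl
  apply Finset.sum_nbij i hmaps hinj hsurj
  intro r _
  have h1 : (a * r : ℝ) / M = ((i r : ℕ) : ℝ) / M + ((a * r / M : ℤ) : ℝ) := by
    have h2 := Int.emod_add_mul_ediv (a * r) M
    rw [← hicast] at h2
    have h3 : ((i r : ℕ) : ℝ) + M * ((a * r / M : ℤ) : ℝ) = a * r := by exact_mod_cast h2
    rw [← h3]
    field_simp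
  rw [h1, hG]

/-- main bound for the trilinear form -/
theorem trilinear_bound (a b : ℤ) (M N : ℕ) (hMp : M.Prime) (hM : (|a| + |b| + 1) * N < M)
    (ha : ¬ (M : ℤ) ∣ a) (hb : ¬ (M : ℤ) ∣ b) (u v f : ℕ → ℂ) (B : ℝ)
    (hB : ∀ θ : ℝ, ‖Sf f N θ‖ ≤ B) :
    M * ‖∑ x ∈ Finset.Icc 1 N, ∑ y ∈ Finset.Icc 1 N, u x * v y *
        (if 1 ≤ a * (x : ℤ) + b * (y : ℤ) ∧ a * (x : ℤ) + b * (y : ℤ) ≤ (N : ℤ)
          then f (a * (x : ℤ) + b * (y : ℤ)).toNat else 0)‖
      ≤ Real.sqrt B * (∑ r ∈ range M, ph ‖Sf u N ((r : ℝ) / M)‖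
        + ∑ r ∈ range M, ph ‖Sf v N ((r : ℝ) / M)‖
        + ∑ r ∈ range M, ph ‖Sf f N ((r : ℝ) / M)‖) := by
  have h0 := trilinear a b M N hM u v f
  have h1 : (M : ℝ) * ‖∑ x ∈ Finset.Icc 1 N, ∑ y ∈ Finset.Icc 1 N, u x * v y *
        (if 1 ≤ a * (x : ℤ) + b * (y : ℤ) ∧ a * (x : ℤ) + b * (y : ℤ) ≤ (N : ℤ)
          then f (a * (x : ℤ) + b * (y : ℤ)).toNat else 0)‖
      = ‖∑ r ∈ range M, Sf u N ((a * r : ℝ) / M) * Sf v N ((b * r : ℝ) / M)
        * Sf f N (((-1 : ℤ) * r : ℝ) / M)‖ := by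
    rw [h0, norm_mul, Complex.norm_natCast]
  rw [h1]
  have hGper : ∀ g : ℕ → ℂ, ∀ (θ : ℝ) (k : ℤ), ph ‖Sf g N (θ + k)‖ = ph ‖Sf g N θ‖ := by
    intro g θ k; rw [Sf_add_int]
  have hneg : ¬ (M : ℤ) ∣ (-1) := by
    intro h
    have h2 : (M : ℤ) ∣ 1 := (Int.dvd_neg).1 h
    have := Int.eq_one_of_dvd_one (by positivity) h2
    have h3 := hMp.two_le
    omega
  rw [← sum_dilate (fun θ => ph ‖Sf u N θ‖) (hGper u) M hMp a ha,
    ← sum_dilate (fun θ => ph ‖Sf v N θ‖) (hGper v) M hMp b hb,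
    ← sum_dilate (fun θ => ph ‖Sf f N θ‖) (hGper f) M hMp (-1) hneg,
    ← Finset.sum_add_distrib, ← Finset.sum_add_distrib, Finset.mul_sum]
  refine (norm_sum_le _ _).trans (Finset.sum_le_sum ?_)
  intro r _
  rw [norm_mul, norm_mul]
  set X := ‖Sf u N ((a * r : ℝ) / M)‖
  set Y := ‖Sf v N ((b * r : ℝ) / M)‖
  set Z := ‖Sf f N (((-1 : ℤ) * r : ℝ) / M)‖ with hZ
  have hX : 0 ≤ X := norm_nonneg _
  have hY : 0 ≤ Y := norm_nonneg _
  have hZ0 : 0 ≤ Z := norm_nonneg _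
  have h3 : X * Y * Z = Real.sqrt Z * (X * Y * Real.sqrt Z) := by
    have := Real.mul_self_sqrt hZ0
    calc X * Y * Z = X * Y * (Real.sqrt Z * Real.sqrt Z) := by rw [this]
      _ = _ := by ring
  rw [h3]
  apply mul_le_mul (Real.sqrt_le_sqrt (hB _)) (mul_mul_sqrt_le hX hY hZ0) (by positivity)
    (Real.sqrt_nonneg _)

end Pool.Agent.Helper71_SP
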