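import Pool.Agent.Helper71_SP.Model
import Pool.Agent.Helper71_SP.Trilinear
import Pool.Agent.Helper71_SP.TBDefs

set_option autoImplicit false

/-!
Bilinear cancellation (`TB`) from the Fourier bound (`FB`) and the restriction estimates.
-/

namespace Pool.Agent.Helper71_SP

open Finset Pool.Agent.Common_Sieve

/-- uniform Fourier bound for `Λ - model` -/
def FB : Prop := ∀ ε : ℝ, 0 < ε → ∃ w0 : ℕ, ∀ w ≥ w0, ∃ N0 : ℕ, ∀ N ≥ N0, ∀ θ : ℝ,
  ‖Sf (fun n => (Ew w n : ℂ)) N θ‖ ≤ ε * N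

lemma primorial_eq_pr (w : ℕ) : primorial w = pr (w + 1).primesBelow := rfl

lemma rough_eq_ite (w n : ℕ) : rough (w + 1) n = if Nat.Coprime n (primorial w) then 1 else 0 := by
  have hiff : Nat.Coprime n (primorial w) ↔ ∀ p ∈ (w + 1).primesBelow, Nat.Coprime n p := by
    rw [primorial_eq_pr]
    unfold pr
    exact Nat.coprime_prod_right_iff
  by_cases h : ∀ p ∈ (w + 1).primesBelow, Nat.Coprime n p
  · rw [if_pos (hiff.2 h)]
    apply rough_eq_one
    intro p hp hpw hd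
    have h1 := h p (Nat.mem_primesBelow.2 ⟨hpw, hp⟩)
    have h2 : Nat.gcd n p = p := Nat.gcd_eq_right hd
    have h3 : p = 1 := by rw [← h2]; exact h1
    exact hp.one_lt.ne' h3
  · rw [if_neg (fun h' => h (hiff.1 h'))]
    push Not at h
    obtain ⟨p, hp, hnp⟩ := h
    unfold rough
    apply Finset.prod_eq_zero hp
    have hpp := Nat.prime_of_mem_primesBelow hp
    have : p ∣ n := by
      by_contra hd
      exact hnp ((Nat.Prime.coprime_iff_not_dvd hpp).2 hd).symm
    unfold dvi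
    rw [if_pos this, sub_self]

lemma inv_Vp_eq (w : ℕ) : 1 / Vp (w + 1) = (primorial w : ℝ) / (Nat.totient (primorial w)) := by
  have h1 : (primorial w).primeFactors = (w + 1).primesBelow := by
    rw [primorial_eq_pr]
    exact Nat.primeFactors_prod (fun p hp => Nat.prime_of_mem_primesBelow hp)
  have h2 : ((Nat.totient (primorial w) : ℕ) : ℚ) = primorial w * ∏ p ∈ (w + 1).primesBelow, (1 - (p : ℚ)⁻¹) := by
    rw [Nat.totient_eq_mul_prod_factors, h1]
  have h3 : ((Nat.totient (primorial w) : ℕ) : ℝ) = primorial w * Vp (w + 1) := by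
    unfold Vp
    have h4 : (((Nat.totient (primorial w) : ℕ) : ℚ) : ℝ)
        = ((primorial w * ∏ p ∈ (w + 1).primesBelow, (1 - (p : ℚ)⁻¹) : ℚ) : ℝ) := by rw [h2]
    push_cast at h4
    rw [h4]
    congr 1
    apply Finset.prod_congr rfl
    intro p _
    rw [one_div]
  rw [h3]
  have h5 : (0:ℝ) < primorial w := by exact_mod_cast primorial_pos w
  have h6 := Vp_pos (w + 1)
  field_simp

lemma Ew_eq (w n : ℕ) : Ew w n = ArithmeticFunction.vonMangoldt n - Wm (w + 1) n := by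
  unfold Ew Wm
  rw [rough_eq_ite, inv_Vp_eq]
  split_ifs <;> ring

/-- prime part of `Λ` -/
noncomputable def u0 (n : ℕ) : ℝ := if n.Prime then Real.log n else 0

lemma prime_powers : ∃ K : ℝ, 0 < K ∧ ∀ N : ℕ,
    ∑ n ∈ Finset.Icc 1 N, |ArithmeticFunction.vonMangoldt n - u0 n| ≤ K * Real.sqrt N := by
  obtain ⟨C, hC⟩ := Chebyshev.psi_sub_theta_le_mul_sqrt
  refine ⟨|C| + 1, by positivity, ?_⟩
  intro N
  have h1 := hC (N : ℝ)
  rw [Chebyshev.psi_sub_theta_eq_sum_not_prime, Nat.floor_natCast, Finset.sum_filter] at h1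
  have h2 : ∑ n ∈ Finset.Icc 1 N, |ArithmeticFunction.vonMangoldt n - u0 n|
      = ∑ n ∈ Finset.Ioc 0 N, if ¬ n.Prime then ArithmeticFunction.vonMangoldt n else 0 := by
    rw [show Finset.Icc 1 N = Finset.Ioc 0 N by ext; simp [Finset.mem_Icc, Finset.mem_Ioc]; omega]
    apply Finset.sum_congr rfl
    intro n _
    unfold u0
    by_cases h : n.Prime
    · rw [if_pos h, if_neg (not_not.2 h), ArithmeticFunction.vonMangoldt_apply_prime h, sub_self, abs_zero]
    · rw [if_neg h, if_pos h, sub_zero, abs_of_nonneg ArithmeticFunction.vonMangoldt_nonneg]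
  rw [h2]
  refine h1.trans ?_
  apply mul_le_mul_of_nonneg_right _ (Real.sqrt_nonneg _)
  linarith [le_abs_self C]

theorem moment_E : ∃ C : ℝ, 0 < C ∧ ∀ w : ℕ, 1 ≤ w → ∃ N0 : ℕ, ∀ N ≥ N0, ∀ M ≥ N,
    ∑ r ∈ range M, ph ‖Sf (fun n => (Ew w n : ℂ)) N ((r : ℝ) / M)‖ ≤ C * M * (N * Real.sqrt N) := by
  obtain ⟨C1, hC1, N1, h1⟩ := moment_primes
  obtain ⟨C2, hC2, h2⟩ := moment_model
  obtain ⟨K, hK, hKN⟩ := prime_powers
  refine ⟨8 * C1 + 64 * C2 + 64 * (K ^ 2 * Real.sqrt K), by positivity, ?_⟩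
  intro w hw
  obtain ⟨N2, h3⟩ := h2 (w + 1) (by omega)
  refine ⟨max (max N1 N2) 1, ?_⟩
  intro N hN M hM
  have hN1 : N1 ≤ N := le_trans ((le_max_left _ _).trans (le_max_left _ _)) hN
  have hN2 : N2 ≤ N := le_trans ((le_max_right _ _).trans (le_max_left _ _)) hN
  have hN3 : 1 ≤ N := le_trans (le_max_right _ _) hN
  have hNr : (1:ℝ) ≤ N := by exact_mod_cast hN3
  have hMr : (0:ℝ) ≤ M := by positivity
  have hlogN : 0 ≤ Real.log N := Real.log_nonneg hNr
  have hA := h1 N hN1 M hM (fun n => (u0 n : ℂ)) (by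
    intro n hn
    have hn' := Finset.mem_Icc.1 hn
    unfold u0
    split_ifs with hp
    · rw [Complex.norm_real, Real.norm_eq_abs, abs_of_nonneg]
      · apply Real.log_le_log
        · exact_mod_cast hp.pos
        · exact_mod_cast hn'.2
      · exact Real.log_nonneg (by exact_mod_cast hp.one_le)
    · simp)
  have hB := h3 N hN2 M hM
  have hQ : ∀ θ : ℝ, ‖Sf (fun n => ((ArithmeticFunction.vonMangoldt n - u0 n : ℝ) : ℂ)) N θ‖
      ≤ K * Real.sqrt N := by
    intro θ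
    refine le_trans ?_ (hKN N)
    unfold Sf
    refine (norm_sum_le _ _).trans (le_of_eq ?_)
    apply Finset.sum_congr rfl
    intro n _
    rw [norm_mul, norm_e, mul_one, Complex.norm_real, Real.norm_eq_abs]
  have hsqrt1 : 1 ≤ Real.sqrt N := by rw [Real.one_le_sqrt]; exact hNr
  have hphQ : ph (K * Real.sqrt N) ≤ K ^ 2 * Real.sqrt K * (N * Real.sqrt N) := by
    unfold ph
    rw [mul_pow, Real.sq_sqrt (by linarith), Real.sqrt_mul hK.le]
    have h5 : Real.sqrt (Real.sqrt N) ≤ Real.sqrt N := by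
      apply Real.sqrt_le_sqrt
      rw [Real.sqrt_le_left (by linarith)]
      nlinarith
    calc K ^ 2 * N * (Real.sqrt K * Real.sqrt (Real.sqrt N))
        ≤ K ^ 2 * N * (Real.sqrt K * Real.sqrt N) := by
          apply mul_le_mul_of_nonneg_left _ (by positivity)
          exact mul_le_mul_of_nonneg_left h5 (Real.sqrt_nonneg _)
      _ = _ := by ring
  have hpt : ∀ r ∈ range M, ph ‖Sf (fun n => (Ew w n : ℂ)) N ((r : ℝ) / M)‖
      ≤ 8 * ph ‖Sf (fun n => (u0 n : ℂ)) N ((r : ℝ) / M)‖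
        + 64 * ph ‖Sf (fun n => (Wm (w + 1) n : ℂ)) N ((r : ℝ) / M)‖
        + 64 * (K ^ 2 * Real.sqrt K * (N * Real.sqrt N)) := by
    intro r _
    set θ := (r : ℝ) / M
    have e1 : Sf (fun n => (Ew w n : ℂ)) N θ = Sf (fun n => (u0 n : ℂ)) N θ
        + (Sf (fun n => ((ArithmeticFunction.vonMangoldt n - u0 n : ℝ) : ℂ)) N θ
          - Sf (fun n => (Wm (w + 1) n : ℂ)) N θ) := by
      unfold Sf
      rw [← Finset.sum_sub_distrib, ← Finset.sum_add_distrib]
      apply Finset.sum_congr rfl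
      intro n _
      simp only [Ew_eq]
      push_cast
      ring
    have e2 : ‖Sf (fun n => (Ew w n : ℂ)) N θ‖ ≤ ‖Sf (fun n => (u0 n : ℂ)) N θ‖
        + (‖Sf (fun n => (Wm (w + 1) n : ℂ)) N θ‖ + K * Real.sqrt N) := by
      rw [e1]
      refine (norm_add_le _ _).trans (add_le_add le_rfl ?_)
      refine (norm_sub_le _ _).trans ?_
      have := hQ θ
      linarith
    have e3 : (0:ℝ) ≤ K * Real.sqrt N := by positivity
    refine (ph_mono (norm_nonneg _) e2).trans ?_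
    refine (ph_add_le (norm_nonneg _) (by positivity)).trans ?_
    have e4 := ph_add_le (norm_nonneg (Sf (fun n => (Wm (w + 1) n : ℂ)) N θ)) e3
    linarith
  refine (Finset.sum_le_sum hpt).trans ?_
  rw [Finset.sum_add_distrib, Finset.sum_add_distrib, ← Finset.mul_sum, ← Finset.mul_sum,
    Finset.sum_const, Finset.card_range, nsmul_eq_mul]
  calc _ ≤ 8 * (C1 * M * (N * Real.sqrt N)) + 64 * (C2 * M * (N * Real.sqrt N))
        + M * (64 * (K ^ 2 * Real.sqrt K * (N * Real.sqrt N))) := by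
        apply add_le_add _ le_rfl
        apply add_le_add
        · exact mul_le_mul_of_nonneg_left hA (by norm_num)
        · exact mul_le_mul_of_nonneg_left hB (by norm_num)
    _ = _ := by ring

theorem tb_of_fb (hFB : FB) (a b : ℤ) (ha : a ≠ 0) (hb : b ≠ 0) : TB a b := by
  obtain ⟨C1, hC1, N1, h1⟩ := moment_primes
  obtain ⟨C3, hC3, h3⟩ := moment_E
  intro ε hε
  set δ : ℝ := (ε / (2 * C1 + C3)) ^ 2 with hδ
  have hδ0 : 0 < δ := by positivity
  obtain ⟨w0, hw0⟩ := hFB δ hδ0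
  refine ⟨max w0 1, ?_⟩
  intro w hw
  obtain ⟨N2, hN2⟩ := hw0 w (le_trans (le_max_left _ _) hw)
  obtain ⟨N3, hN3⟩ := h3 w (le_trans (le_max_right _ _) hw)
  refine ⟨max (max N1 N2) (max N3 2), ?_⟩
  intro N hN X Y hX hY
  have hNN1 : N1 ≤ N := le_trans ((le_max_left _ _).trans (le_max_left _ _)) hN
  have hNN2 : N2 ≤ N := le_trans ((le_max_right _ _).trans (le_max_left _ _)) hN
  have hNN3 : N3 ≤ N := le_trans ((le_max_left _ _).trans (le_max_right _ _)) hN
  have hNN4 : 2 ≤ N := le_trans ((le_max_right _ _).trans (le_max_right _ _)) hN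
  have hNr : (2:ℝ) ≤ N := by exact_mod_cast hNN4
  have hN0 : (0:ℝ) < N := by linarith
  have hlog : 0 < Real.log N := Real.log_pos (by linarith)
  obtain ⟨M, hMge, hMp⟩ := Nat.exists_infinite_primes (((|a| + |b| + 1) * N + 1).toNat)
  have hMz : (|a| + |b| + 1) * (N : ℤ) < M := by
    have h4 : ((|a| + |b| + 1) * (N : ℤ) + 1) ≤ M := by
      have := Int.self_le_toNat ((|a| + |b| + 1) * (N : ℤ) + 1)
      have h5 : ((((|a| + |b| + 1) * (N : ℤ) + 1).toNat : ℕ) : ℤ) ≤ M := by exact_mod_cast hMge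
      linarith
    omega
  have hNz : (1:ℤ) ≤ N := by exact_mod_cast (by omega : 1 ≤ N)
  have haM : |a| < M := by nlinarith [abs_nonneg a, abs_nonneg b]
  have hbM : |b| < M := by nlinarith [abs_nonneg a, abs_nonneg b]
  have hNM : N ≤ M := by
    have : (N : ℤ) ≤ M := by nlinarith [abs_nonneg a, abs_nonneg b]
    exact_mod_cast this
  have ha' : ¬ (M : ℤ) ∣ a := fun h => ha (Int.eq_zero_of_abs_lt_dvd h haM)
  have hb' : ¬ (M : ℤ) ∣ b := fun h => hb (Int.eq_zero_of_abs_lt_dvd h hbM)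
  set u : ℕ → ℂ := fun n => if n ∈ X then (Real.log N : ℂ) else 0 with hu
  set v : ℕ → ℂ := fun n => if n ∈ Y then (Real.log N : ℂ) else 0 with hv
  have hbound : ∀ Z : Finset ℕ, Z ⊆ (Finset.Icc 1 N).filter Nat.Prime →
      ∀ n ∈ Finset.Icc 1 N, ‖(if n ∈ Z then (Real.log N : ℂ) else 0)‖
        ≤ if n.Prime then Real.log N else 0 := by
    intro Z hZ n _
    by_cases h : n ∈ Z
    · have h5 := (Finset.mem_filter.1 (hZ h)).2
      rw [if_pos h, if_pos h5, Complex.norm_real, Real.norm_eq_abs, abs_of_pos hlog]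
    · rw [if_neg h, norm_zero]
      split_ifs
      · exact hlog.le
      · exact le_rfl
  have hmu := h1 N hNN1 M hNM u (hbound X hX)
  have hmv := h1 N hNN1 M hNM v (hbound Y hY)
  have hmE := hN3 N hNN3 M hNM
  have hsup := hN2 N hNN2
  have htri := trilinear_bound a b M N hMp hMz ha' hb' u v (fun n => (Ew w n : ℂ)) (δ * N) hsup
  set T : ℝ := ∑ x ∈ X, ∑ y ∈ Y,
        (if 1 ≤ a * (x : ℤ) + b * (y : ℤ) ∧ a * (x : ℤ) + b * (y : ℤ) ≤ (N : ℤ)
          then Ew w (a * (x : ℤ) + b * (y : ℤ)).toNat else 0) with hT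
  have hTeq : ∑ x ∈ Finset.Icc 1 N, ∑ y ∈ Finset.Icc 1 N, u x * v y *
        (if 1 ≤ a * (x : ℤ) + b * (y : ℤ) ∧ a * (x : ℤ) + b * (y : ℤ) ≤ (N : ℤ)
          then ((Ew w (a * (x : ℤ) + b * (y : ℤ)).toNat : ℝ) : ℂ) else 0)
      = ((Real.log N ^ 2 * T : ℝ) : ℂ) := by
    have hXI : X ⊆ Finset.Icc 1 N := hX.trans (Finset.filter_subset _ _)
    have hYI : Y ⊆ Finset.Icc 1 N := hY.trans (Finset.filter_subset _ _)
    have e1 : ∀ x ∈ Finset.Icc 1 N, ∑ y ∈ Finset.Icc 1 N, u x * v y *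
        (if 1 ≤ a * (x : ℤ) + b * (y : ℤ) ∧ a * (x : ℤ) + b * (y : ℤ) ≤ (N : ℤ)
          then ((Ew w (a * (x : ℤ) + b * (y : ℤ)).toNat : ℝ) : ℂ) else 0)
        = if x ∈ X then ∑ y ∈ Y, (Real.log N : ℂ) ^ 2 *
        (if 1 ≤ a * (x : ℤ) + b * (y : ℤ) ∧ a * (x : ℤ) + b * (y : ℤ) ≤ (N : ℤ)
          then ((Ew w (a * (x : ℤ) + b * (y : ℤ)).toNat : ℝ) : ℂ) else 0) else 0 := by
      intro x _
      by_cases hx : x ∈ X
      · rw [if_pos hx]
        rw [← Finset.sum_subset hYI (fun y _ hy => by rw [hv]; simp only [if_neg hy]; ring)]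
        apply Finset.sum_congr rfl
        intro y hy
        rw [hu, hv]
        simp only [if_pos hx, if_pos hy]
        ring
      · rw [if_neg hx]
        apply Finset.sum_eq_zero
        intro y _
        rw [hu]
        simp only [if_neg hx]
        ring
    rw [Finset.sum_congr rfl e1, ← Finset.sum_filter]
    have e2 : (Finset.Icc 1 N).filter (fun x => x ∈ X) = X := by
      ext x; rw [Finset.mem_filter]; exact ⟨fun h => h.2, fun h => ⟨hXI h, h⟩⟩
    rw [e2, hT]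
    push_cast
    rw [Finset.mul_sum]
    apply Finset.sum_congr rfl
    intro x _
    rw [Finset.mul_sum]
    apply Finset.sum_congr rfl
    intro y _
    congr 1
    split_ifs <;> simp
  rw [hTeq, Complex.norm_real, Real.norm_eq_abs, abs_mul, abs_of_pos (by positivity)] at htri
  have hM0 : (0:ℝ) < M := by exact_mod_cast hMp.pos
  have h5 : (M : ℝ) * (Real.log N ^ 2 * |T|) ≤ M * (ε * N ^ 2) := by
    refine htri.trans ?_
    have h6 : ∑ r ∈ range M, ph ‖Sf u N ((r : ℝ) / M)‖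
        + ∑ r ∈ range M, ph ‖Sf v N ((r : ℝ) / M)‖
        + ∑ r ∈ range M, ph ‖Sf (fun n => (Ew w n : ℂ)) N ((r : ℝ) / M)‖
        ≤ (2 * C1 + C3) * M * (N * Real.sqrt N) := by linarith
    refine (mul_le_mul_of_nonneg_left h6 (Real.sqrt_nonneg _)).trans (le_of_eq ?_)
    have h7 : Real.sqrt (δ * N) = ε / (2 * C1 + C3) * Real.sqrt N := by
      rw [Real.sqrt_mul hδ0.le, hδ, Real.sqrt_sq (by positivity)]
    rw [h7]
    have h8 : Real.sqrt N * Real.sqrt N = N := Real.mul_self_sqrt hN0.le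
    calc ε / (2 * C1 + C3) * Real.sqrt N * ((2 * C1 + C3) * M * (N * Real.sqrt N))
        = (ε / (2 * C1 + C3) * (2 * C1 + C3)) * M * N * (Real.sqrt N * Real.sqrt N) := by ring
      _ = M * (ε * N ^ 2) := by
          rw [h8, div_mul_cancel₀ _ (by positivity)]; ring
  have h6 := le_of_mul_le_mul_left h5 hM0
  rw [div_pow, ← mul_div_assoc, le_div_iff₀ (by positivity)]
  linarith

end Pool.Agent.Helper71_SP
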