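import Pool.Agent.Helper71_SP.Exp

set_option autoImplicit false

/-!
Fourier transform of a short divisor sum, on major and minor arcs simultaneously.
-/

namespace Pool.Agent.Helper71_SP

open Finset

/-- product of a set of numbers -/
def pr (D : Finset ℕ) : ℕ := ∏ p ∈ D, p

/-- divisor sum -/
noncomputable def dsum (F : Finset (Finset ℕ)) (l : Finset ℕ → ℝ) (n : ℕ) : ℝ :=
  ∑ D ∈ F, l D * (if pr D ∣ n then 1 else 0)

/-- Fourier coefficient at rationals with denominator `q` -/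
noncomputable def gq (F : Finset (Finset ℕ)) (l : Finset ℕ → ℝ) (q : ℕ) : ℝ :=
  ∑ D ∈ F, if q ∣ pr D then l D / pr D else 0

/-- one term of the transform -/
lemma term_transform (N Z : ℕ) (hN : 1 ≤ N) (hZ : 4 * (Z : ℝ) ≤ Real.sqrt N) (θ β : ℝ) (a : ℤ) (q : ℕ)
    (hq : 0 < q) (hqN : (q : ℝ) ≤ Real.sqrt N) (hco : IsCoprime a (q : ℤ)) (hθ : θ = a / q + β)
    (hβ : |β| ≤ 1 / (q * Real.sqrt N)) (d : ℕ) (hd : 0 < d) (hdZ : d ≤ Z) :
    ‖∑ n ∈ (Finset.Icc 1 N).filter (fun n => d ∣ n), e (θ * n)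
      - (if q ∣ d then (1 / (d : ℂ)) else 0) * ∑ n ∈ Finset.Icc 1 N, e (β * n)‖
      ≤ 8 * Real.sqrt N := by
  have hqr : (0:ℝ) < q := by exact_mod_cast hq
  have hdr : (0:ℝ) < d := by exact_mod_cast hd
  have hNr : (1:ℝ) ≤ N := by exact_mod_cast hN
  have hs1 : 1 ≤ Real.sqrt N := by rw [Real.one_le_sqrt]; exact hNr
  have hss : Real.sqrt N * Real.sqrt N = N := Real.mul_self_sqrt (by linarith)
  have hpi3 := Real.pi_lt_d2
  have hpi := Real.pi_pos
  have hdZ' : (d : ℝ) ≤ Z := by exact_mod_cast hdZ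
  rw [sum_multiples N d hd]
  by_cases hqd : q ∣ d
  · rw [if_pos hqd]
    obtain ⟨t, rfl⟩ := hqd
    have h1 : ∑ m ∈ Finset.Icc 1 (N / (q * t)), e (θ * ((q * t * m : ℕ) : ℝ))
        = ∑ m ∈ Finset.Icc 1 (N / (q * t)), e (β * ((q * t * m : ℕ) : ℝ)) := by
      apply Finset.sum_congr rfl
      intro m _
      have : θ * ((q * t * m : ℕ) : ℝ) = β * ((q * t * m : ℕ) : ℝ) + ((a * t * m : ℤ) : ℝ) := by
        rw [hθ]; push_cast; field_simp; ring
      rw [this, e_add_int]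
    rw [h1]
    refine (multiples_compare N (q * t) hd β).trans ?_
    have h2 : |β| * N ≤ Real.sqrt N := by
      calc |β| * N ≤ (1 / (q * Real.sqrt N)) * N := mul_le_mul_of_nonneg_right hβ (by linarith)
        _ = (1 / (q * Real.sqrt N)) * (Real.sqrt N * Real.sqrt N) := by rw [hss]
        _ = Real.sqrt N / q := by field_simp
        _ ≤ Real.sqrt N / 1 := by
            apply div_le_div_of_nonneg_left (by linarith) (by norm_num)
            exact_mod_cast hq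
        _ = Real.sqrt N := by ring
    have h3 : 2 * Real.pi * |β| * N ≤ 2 * Real.pi * Real.sqrt N := by
      rw [mul_assoc]
      exact mul_le_mul_of_nonneg_left h2 (by linarith)
    have h4 : 2 * Real.pi * Real.sqrt N ≤ 6.3 * Real.sqrt N :=
      mul_le_mul_of_nonneg_right (by linarith) (by linarith)
    linarith
  · rw [if_neg hqd, zero_mul, sub_zero]
    have h1 : ∑ m ∈ Finset.Icc 1 (N / d), e (θ * ((d * m : ℕ) : ℝ))
        = ∑ m ∈ Finset.Icc 1 (N / d), e (m * (θ * d)) := by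
      apply Finset.sum_congr rfl
      intro m _
      congr 1; push_cast; ring
    rw [h1]
    have hnd : ¬ (q : ℤ) ∣ a * d := by
      intro h
      apply hqd
      have := hco.symm.dvd_of_dvd_mul_left h
      exact_mod_cast this
    have h2 := norm_e_div_sub_one_ge (a * d) q hq hnd
    have h3 : θ * d = ((a * d : ℤ) : ℝ) / q + β * d := by rw [hθ]; push_cast; ring
    have h4 : 2 / (q : ℝ) ≤ ‖e (θ * d) - 1‖ := by
      have h5 : ‖e (((a * d : ℤ) : ℝ) / q) - 1‖ ≤ ‖e (θ * d) - 1‖ + ‖e (θ * d) - e (((a * d : ℤ) : ℝ) / q)‖ := by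
        have : e (((a * d : ℤ) : ℝ) / q) - 1
            = (e (θ * d) - 1) - (e (θ * d) - e (((a * d : ℤ) : ℝ) / q)) := by ring
        rw [this]
        exact norm_sub_le _ _
      have h6 : ‖e (θ * d) - e (((a * d : ℤ) : ℝ) / q)‖ ≤ 2 / q := by
        refine (norm_e_sub_e_le _ _).trans ?_
        rw [h3, add_sub_cancel_left, abs_mul, Nat.abs_cast]
        have h7 : |β| * d ≤ 1 / (4 * q) := by
          calc |β| * d ≤ (1 / (q * Real.sqrt N)) * (Real.sqrt N / 4) := by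
                apply mul_le_mul hβ (by linarith) hdr.le (by positivity)
            _ = 1 / (4 * q) := by field_simp
        calc 2 * Real.pi * (|β| * d) ≤ 2 * Real.pi * (1 / (4 * q)) :=
              mul_le_mul_of_nonneg_left h7 (by linarith)
          _ = (Real.pi / 2) / q := by field_simp; norm_num
          _ ≤ 2 / q := by
              apply div_le_div_of_nonneg_right _ hqr.le
              linarith
      have h8 : 4 / (q : ℝ) = 2 / q + 2 / q := by ring
      linarith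
    refine (norm_geom_Icc_le (θ * d) (2 / q) (by positivity) h4 _).trans ?_
    rw [show (2:ℝ) / (2 / q) = q by field_simp]
    linarith

/-- Fourier transform of a short divisor sum. -/
theorem transform (N Z : ℕ) (hN : 1 ≤ N) (hZ : 4 * (Z : ℝ) ≤ Real.sqrt N) (θ : ℝ) :
    ∃ q : ℕ, 0 < q ∧ ∃ β : ℝ, ∀ (F : Finset (Finset ℕ)) (l : Finset ℕ → ℝ),
      (∀ D ∈ F, |l D| ≤ 1) → (∀ D ∈ F, 0 < pr D ∧ pr D ≤ Z) →
      ‖∑ n ∈ Finset.Icc 1 N, (dsum F l n : ℂ) * e (θ * n)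
        - (gq F l q : ℂ) * ∑ n ∈ Finset.Icc 1 N, e (β * n)‖ ≤ F.card * (8 * Real.sqrt N) := by
  have hNr : (1:ℝ) ≤ N := by exact_mod_cast hN
  have hs1 : 1 ≤ Real.sqrt N := by rw [Real.one_le_sqrt]; exact hNr
  have hn : 0 < Nat.sqrt N := Nat.sqrt_pos.2 hN
  obtain ⟨x, hx1, hx2⟩ := Real.exists_rat_abs_sub_le_and_den_le θ hn
  have hden : 0 < x.den := x.pos
  have hsq : (Nat.sqrt N : ℝ) ≤ Real.sqrt N := Real.nat_sqrt_le_real_sqrt
  have hsq2 : Real.sqrt N ≤ (Nat.sqrt N : ℝ) + 1 := Real.real_sqrt_le_nat_sqrt_succ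
  refine ⟨x.den, hden, θ - x.num / x.den, ?_⟩
  intro F l hl hF
  have hxe : ((x : ℚ) : ℝ) = (x.num : ℝ) / x.den := by
    rw [← Rat.cast_def]
  have hβ : |θ - x.num / x.den| ≤ 1 / (x.den * Real.sqrt N) := by
    rw [← hxe]
    refine hx1.trans ?_
    have hdr : (0:ℝ) < x.den := by exact_mod_cast hden
    apply div_le_div_of_nonneg_left (by norm_num) (by positivity)
    rw [mul_comm]
    exact mul_le_mul_of_nonneg_right hsq2 hdr.le
  have key : ∑ n ∈ Finset.Icc 1 N, (dsum F l n : ℂ) * e (θ * n)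
        - (gq F l x.den : ℂ) * ∑ n ∈ Finset.Icc 1 N, e ((θ - x.num / x.den) * n)
      = ∑ D ∈ F, (l D : ℂ) * (∑ n ∈ (Finset.Icc 1 N).filter (fun n => pr D ∣ n), e (θ * n)
        - (if x.den ∣ pr D then (1 / (pr D : ℂ)) else 0)
          * ∑ n ∈ Finset.Icc 1 N, e ((θ - x.num / x.den) * n)) := by
    have h1 : ∑ n ∈ Finset.Icc 1 N, (dsum F l n : ℂ) * e (θ * n)
        = ∑ D ∈ F, (l D : ℂ) * ∑ n ∈ (Finset.Icc 1 N).filter (fun n => pr D ∣ n), e (θ * n) := by
      have h0 : ∑ n ∈ Finset.Icc 1 N, (dsum F l n : ℂ) * e (θ * n)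
        = ∑ n ∈ Finset.Icc 1 N, ∑ D ∈ F, (l D : ℂ) * (if pr D ∣ n then e (θ * n) else 0) := by
          apply Finset.sum_congr rfl
          intro n _
          unfold dsum
          push_cast
          rw [Finset.sum_mul]
          apply Finset.sum_congr rfl
          intro D _
          split_ifs <;> push_cast <;> ring
      rw [h0, Finset.sum_comm]
      apply Finset.sum_congr rfl
      intro D _
      rw [← Finset.mul_sum, Finset.sum_filter]
    have h2 : (gq F l x.den : ℂ) = ∑ D ∈ F, (l D : ℂ) * (if x.den ∣ pr D then (1 / (pr D : ℂ)) else 0) := by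
      unfold gq
      push_cast
      apply Finset.sum_congr rfl
      intro D _
      split_ifs
      · push_cast; ring
      · simp
    rw [h1, h2, Finset.sum_mul, ← Finset.sum_sub_distrib]
    apply Finset.sum_congr rfl
    intro D _
    ring
  rw [key]
  refine (norm_sum_le _ _).trans ?_
  have hb : ∀ D ∈ F, ‖(l D : ℂ) * (∑ n ∈ (Finset.Icc 1 N).filter (fun n => pr D ∣ n), e (θ * n)
        - (if x.den ∣ pr D then (1 / (pr D : ℂ)) else 0)
          * ∑ n ∈ Finset.Icc 1 N, e ((θ - x.num / x.den) * n))‖ ≤ 8 * Real.sqrt N := by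
    intro D hD
    rw [norm_mul, Complex.norm_real, Real.norm_eq_abs]
    have h1 := term_transform N Z hN hZ θ (θ - x.num / x.den) x.num x.den hden
      ((by exact_mod_cast hx2 : (x.den : ℝ) ≤ Nat.sqrt N).trans hsq)
      (by
        rw [Int.isCoprime_iff_gcd_eq_one]
        have := x.reduced
        rw [Int.gcd]
        simpa [Nat.Coprime] using this)
      (by ring) hβ (pr D) (hF D hD).1 (hF D hD).2
    calc |l D| * ‖_‖ ≤ 1 * (8 * Real.sqrt N) := mul_le_mul (hl D hD) h1 (norm_nonneg _) zero_le_one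
      _ = _ := one_mul _
  refine (Finset.sum_le_sum hb).trans ?_
  rw [Finset.sum_const, nsmul_eq_mul]

/-- comparison of two short divisor sums -/
theorem transform_compare (N Z : ℕ) (hN : 1 ≤ N) (hZ : 4 * (Z : ℝ) ≤ Real.sqrt N)
    (F G : Finset (Finset ℕ)) (l k : Finset ℕ → ℝ) (s t : ℝ)
    (hl : ∀ D ∈ F, |l D| ≤ 1) (hF : ∀ D ∈ F, 0 < pr D ∧ pr D ≤ Z)
    (hk : ∀ D ∈ G, |k D| ≤ 1) (hG : ∀ D ∈ G, 0 < pr D ∧ pr D ≤ Z) (δ : ℝ)
    (hδ : ∀ q : ℕ, 0 < q → |s * gq F l q - t * gq G k q| ≤ δ) (θ : ℝ) :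
    ‖∑ n ∈ Finset.Icc 1 N, ((s * dsum F l n - t * dsum G k n : ℝ) : ℂ) * e (θ * n)‖
      ≤ δ * N + (|s| * F.card + |t| * G.card) * (8 * Real.sqrt N) := by
  obtain ⟨q, hq, β, h⟩ := transform N Z hN hZ θ
  have h1 := h F l hl hF
  have h2 := h G k hk hG
  have key : ∑ n ∈ Finset.Icc 1 N, ((s * dsum F l n - t * dsum G k n : ℝ) : ℂ) * e (θ * n)
      = (s : ℂ) * (∑ n ∈ Finset.Icc 1 N, (dsum F l n : ℂ) * e (θ * n)
          - (gq F l q : ℂ) * ∑ n ∈ Finset.Icc 1 N, e (β * n))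
        - (t : ℂ) * (∑ n ∈ Finset.Icc 1 N, (dsum G k n : ℂ) * e (θ * n)
          - (gq G k q : ℂ) * ∑ n ∈ Finset.Icc 1 N, e (β * n))
        + ((s * gq F l q - t * gq G k q : ℝ) : ℂ) * ∑ n ∈ Finset.Icc 1 N, e (β * n) := by
    have : ∑ n ∈ Finset.Icc 1 N, ((s * dsum F l n - t * dsum G k n : ℝ) : ℂ) * e (θ * n)
        = (s : ℂ) * (∑ n ∈ Finset.Icc 1 N, (dsum F l n : ℂ) * e (θ * n))
          - (t : ℂ) * (∑ n ∈ Finset.Icc 1 N, (dsum G k n : ℂ) * e (θ * n)) := by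
      rw [Finset.mul_sum, Finset.mul_sum, ← Finset.sum_sub_distrib]
      apply Finset.sum_congr rfl
      intro n _
      push_cast; ring
    rw [this]
    push_cast
    ring
  rw [key]
  have h3 : ‖∑ n ∈ Finset.Icc 1 N, e (β * n)‖ ≤ N := by
    refine (norm_sum_le _ _).trans ?_
    have : ∀ n ∈ Finset.Icc 1 N, ‖e (β * n)‖ ≤ 1 := fun n _ => (norm_e _).le
    refine (Finset.sum_le_sum this).trans ?_
    simp
  have e1 := norm_add_le ((s : ℂ) * (∑ n ∈ Finset.Icc 1 N, (dsum F l n : ℂ) * e (θ * n)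
          - (gq F l q : ℂ) * ∑ n ∈ Finset.Icc 1 N, e (β * n))
        - (t : ℂ) * (∑ n ∈ Finset.Icc 1 N, (dsum G k n : ℂ) * e (θ * n)
          - (gq G k q : ℂ) * ∑ n ∈ Finset.Icc 1 N, e (β * n)))
    (((s * gq F l q - t * gq G k q : ℝ) : ℂ) * ∑ n ∈ Finset.Icc 1 N, e (β * n))
  have e2 := norm_sub_le ((s : ℂ) * (∑ n ∈ Finset.Icc 1 N, (dsum F l n : ℂ) * e (θ * n)
          - (gq F l q : ℂ) * ∑ n ∈ Finset.Icc 1 N, e (β * n)))
        ((t : ℂ) * (∑ n ∈ Finset.Icc 1 N, (dsum G k n : ℂ) * e (θ * n)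
          - (gq G k q : ℂ) * ∑ n ∈ Finset.Icc 1 N, e (β * n)))
  rw [norm_mul, norm_mul, Complex.norm_real, Complex.norm_real, Real.norm_eq_abs,
    Real.norm_eq_abs] at e2
  rw [norm_mul, Complex.norm_real, Real.norm_eq_abs] at e1
  have e3 := mul_le_mul_of_nonneg_left h1 (abs_nonneg s)
  have e4 := mul_le_mul_of_nonneg_left h2 (abs_nonneg t)
  have e5 : |s * gq F l q - t * gq G k q| * ‖∑ n ∈ Finset.Icc 1 N, e (β * n)‖ ≤ δ * N :=
    mul_le_mul (hδ q hq) h3 (norm_nonneg _) ((abs_nonneg _).trans (hδ q hq))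
  linarith

end Pool.Agent.Helper71_SP
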