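import Pool.Agent.Helper71_SP.Transform
import Pool.Agent.Common_Sieve.Apps
import Pool.Agent.Common_Sieve.Primes

set_option autoImplicit false

/-!
Fourier coefficients of sieve functions.
-/

namespace Pool.Agent.Helper71_SP

open Finset Pool.Agent.Common_Sieve

/-- indicator of divisibility -/
noncomputable def dvi (n p : ℕ) : ℝ := if p ∣ n then 1 else 0

lemma dvi_isInd (n : ℕ) : IsInd (dvi n) := by
  intro p; unfold dvi; split_ifs <;> norm_num

lemma prod_dvi {D : Finset ℕ} (hD : ∀ p ∈ D, p.Prime) (n : ℕ) :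
    ∏ p ∈ D, dvi n p = if pr D ∣ n then 1 else 0 := by
  unfold dvi
  rw [Finset.prod_boole]
  have : (∀ p ∈ D, p ∣ n) ↔ pr D ∣ n := by
    constructor
    · intro h
      exact Finset.prod_primes_dvd n (fun p hp => (hD p hp).prime) h
    · intro h p hp
      exact (Finset.dvd_prod_of_mem _ hp).trans h
  simp only [this]

/-- rough number indicator -/
noncomputable def rough (w n : ℕ) : ℝ := ∏ p ∈ w.primesBelow, (1 - dvi n p)

/-- Euler product -/
noncomputable def Vp (w : ℕ) : ℝ := ∏ p ∈ w.primesBelow, (1 - (1:ℝ) / p)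

lemma Vp_pos (w : ℕ) : 0 < Vp w := Finset.prod_pos (fun p hp =>
  one_sub_inv_pos (Nat.prime_of_mem_primesBelow hp))

lemma rough_nonneg (w n : ℕ) : 0 ≤ rough w n :=
  Finset.prod_nonneg (fun p _ => by linarith [(dvi_isInd n p).2])

lemma rough_le_one (w n : ℕ) : rough w n ≤ 1 :=
  Finset.prod_le_one (fun p _ => by linarith [(dvi_isInd n p).2])
    (fun p _ => by linarith [(dvi_isInd n p).1])

lemma rough_eq_one {w n : ℕ} (h : ∀ p, p.Prime → p < w → ¬ p ∣ n) : rough w n = 1 := by
  unfold rough
  apply Finset.prod_eq_one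
  intro p hp
  rw [Nat.mem_primesBelow] at hp
  unfold dvi
  rw [if_neg (h p hp.2 hp.1), sub_zero]

/-- sign weight -/
noncomputable def sgn (D : Finset ℕ) : ℝ := (-1) ^ D.card

lemma abs_sgn (D : Finset ℕ) : |sgn D| = 1 := by unfold sgn; simp [abs_pow]

lemma sum_powerset_sgn (T : Finset ℕ) (f : ℕ → ℝ) :
    ∑ D ∈ T.powerset, sgn D * ∏ p ∈ D, f p = ∏ p ∈ T, (1 - f p) := by
  have h : ∏ p ∈ T, (1 - f p) = ∏ p ∈ T, (-(f p) + 1) := by
    apply Finset.prod_congr rfl; intro p _; ring
  rw [h, Finset.prod_add]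
  apply Finset.sum_congr rfl
  intro D _
  rw [Finset.prod_const_one, mul_one, Finset.prod_neg]
  rfl

lemma rough_eq_dsum (w n : ℕ) : rough w n = dsum w.primesBelow.powerset sgn n := by
  unfold rough dsum
  rw [← sum_powerset_sgn]
  apply Finset.sum_congr rfl
  intro D hD
  rw [prod_dvi]
  intro p hp
  exact Nat.prime_of_mem_primesBelow (Finset.mem_powerset.1 hD hp)

lemma gq_one_exact (w : ℕ) : gq w.primesBelow.powerset sgn 1 = Vp w := by
  unfold gq Vp
  rw [← sum_powerset_sgn]
  apply Finset.sum_congr rfl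
  intro D _
  rw [if_pos (one_dvd _)]
  unfold pr
  rw [div_eq_mul_inv]
  congr 1
  push_cast
  rw [← Finset.prod_inv_distrib]
  apply Finset.prod_congr rfl
  intro p _
  rw [one_div]

/-- periodic average -/
lemma periodic_sum {S D : Finset ℕ} (hS : ∀ p ∈ S, p.Prime) (hD : D ⊆ S) (q : ℕ) (hq : 0 < q)
    (hqP : q ∣ pr S) :
    ∑ n ∈ range (pr S), (if pr D ∣ n then e ((n : ℝ) / q) else 0)
      = if q ∣ pr D then ((pr S : ℂ) / pr D) else 0 := by
  have hd0 : 0 < pr D := Finset.prod_pos (fun p hp => (hS p (hD hp)).pos)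
  have hP0 : 0 < pr S := Finset.prod_pos (fun p hp => (hS p hp).pos)
  have hdP : pr D ∣ pr S := Finset.prod_dvd_prod_of_subset _ _ _ hD
  have hqr : (q : ℝ) ≠ 0 := by exact_mod_cast hq.ne'
  obtain ⟨t, ht⟩ := hdP
  have ht0 : 0 < t := by
    rcases Nat.eq_zero_or_pos t with h | h
    · rw [h, mul_zero] at ht; omega
    · exact h
  have h1 : ∑ n ∈ range (pr S), (if pr D ∣ n then e ((n : ℝ) / q) else 0)
      = ∑ m ∈ range t, e (((pr D * m : ℕ) : ℝ) / q) := by
    rw [← Finset.sum_filter]
    symm
    refine Finset.sum_nbij' (fun m => pr D * m) (fun n => n / pr D) ?_ ?_ ?_ ?_ ?_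
    · intro m hm
      rw [Finset.mem_range] at hm
      rw [Finset.mem_filter, Finset.mem_range, ht]
      exact ⟨Nat.mul_lt_mul_of_pos_left hm hd0, Dvd.intro m rfl⟩
    · intro n hn
      rw [Finset.mem_filter, Finset.mem_range, ht] at hn
      rw [Finset.mem_range]
      exact Nat.div_lt_of_lt_mul hn.1
    · intro m _
      exact Nat.mul_div_cancel_left m hd0
    · intro n hn
      rw [Finset.mem_filter] at hn
      exact Nat.mul_div_cancel' hn.2
    · intro m _; rfl
  rw [h1]
  by_cases hqD : q ∣ pr D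
  · rw [if_pos hqD]
    obtain ⟨s, hs⟩ := hqD
    have h2 : ∀ m ∈ range t, e (((pr D * m : ℕ) : ℝ) / q) = 1 := by
      intro m _
      have : ((pr D * m : ℕ) : ℝ) / q = ((s * m : ℕ) : ℝ) := by
        rw [hs]; push_cast; field_simp
      rw [this, e_nat]
    rw [Finset.sum_congr rfl h2, Finset.sum_const, Finset.card_range, nsmul_eq_mul, mul_one]
    have hdc : (pr D : ℂ) ≠ 0 := by exact_mod_cast hd0.ne'
    rw [ht]; push_cast; field_simp
  · rw [if_neg hqD]
    have h2 : ∀ m ∈ range t, e (((pr D * m : ℕ) : ℝ) / q) = e ((pr D : ℝ) / q) ^ m := by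
      intro m _
      rw [← e_nat_mul]
      congr 1; push_cast; ring
    rw [Finset.sum_congr rfl h2]
    have h3 := norm_e_div_sub_one_ge (pr D : ℤ) q hq (by exact_mod_cast hqD)
    have hne : e ((pr D : ℝ) / q) ≠ 1 := by
      intro h
      have h4 : e ((((pr D : ℤ) : ℝ)) / q) = 1 := by exact_mod_cast h
      rw [h4, sub_self, norm_zero] at h3
      have : (0:ℝ) < 4 / q := by positivity
      linarith
    rw [geom_sum_eq hne]
    have h5 : e ((pr D : ℝ) / q) ^ t = 1 := by
      rw [← e_nat_mul]
      obtain ⟨s, hs⟩ := hqP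
      have : (t : ℝ) * ((pr D : ℝ) / q) = ((s : ℕ) : ℝ) := by
        have h6 : (pr D : ℝ) * t = q * s := by
          have : pr D * t = q * s := by rw [← ht, hs]
          exact_mod_cast this
        field_simp
        linarith
      rw [this, e_nat]
    rw [h5, sub_self, zero_div]

/-- positivity bounds the Fourier coefficients -/
lemma abs_gq_le {S : Finset ℕ} (hS : ∀ p ∈ S, p.Prime) (F : Finset (Finset ℕ))
    (hF : ∀ D ∈ F, D ⊆ S) (l : Finset ℕ → ℝ) (hpos : ∀ n, 0 ≤ dsum F l n) (q : ℕ) (hq : 0 < q) :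
    |gq F l q| ≤ gq F l 1 := by
  have hP0 : 0 < pr S := Finset.prod_pos (fun p hp => (hS p hp).pos)
  have hPr : (0:ℝ) < pr S := by exact_mod_cast hP0
  have havg : ∀ q : ℕ, 0 < q → q ∣ pr S →
      ∑ n ∈ range (pr S), (dsum F l n : ℂ) * e ((n : ℝ) / q) = (pr S : ℂ) * (gq F l q : ℂ) := by
    intro q hq hqP
    have h1 : ∑ n ∈ range (pr S), (dsum F l n : ℂ) * e ((n : ℝ) / q)
        = ∑ D ∈ F, (l D : ℂ) * ∑ n ∈ range (pr S), (if pr D ∣ n then e ((n : ℝ) / q) else 0) := by
      have h0 : ∑ n ∈ range (pr S), (dsum F l n : ℂ) * e ((n : ℝ) / q)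
          = ∑ n ∈ range (pr S), ∑ D ∈ F, (l D : ℂ) * (if pr D ∣ n then e ((n : ℝ) / q) else 0) := by
        apply Finset.sum_congr rfl
        intro n _
        unfold dsum
        push_cast
        rw [Finset.sum_mul]
        apply Finset.sum_congr rfl
        intro D _
        split_ifs <;> push_cast <;> ring
      rw [h0, Finset.sum_comm]
      apply Finset.sum_congr rfl
      intro D _
      rw [← Finset.mul_sum]
    rw [h1]
    unfold gq
    push_cast
    rw [Finset.mul_sum]
    apply Finset.sum_congr rfl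
    intro D hD
    rw [periodic_sum hS (hF D hD) q hq hqP]
    split_ifs
    · push_cast; ring
    · simp
  by_cases hqP : q ∣ pr S
  · have h1 := havg q hq hqP
    have h2 := havg 1 one_pos (one_dvd _)
    have h3 : ‖∑ n ∈ range (pr S), (dsum F l n : ℂ) * e ((n : ℝ) / q)‖
        ≤ ∑ n ∈ range (pr S), dsum F l n := by
      refine (norm_sum_le _ _).trans (Finset.sum_le_sum ?_)
      intro n _
      rw [norm_mul, norm_e, mul_one, Complex.norm_real, Real.norm_eq_abs, abs_of_nonneg (hpos n)]
    have h4 : ∑ n ∈ range (pr S), dsum F l n = pr S * gq F l 1 := by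
      have : ∑ n ∈ range (pr S), (dsum F l n : ℂ) * e ((n : ℝ) / (1:ℕ))
          = ((∑ n ∈ range (pr S), dsum F l n : ℝ) : ℂ) := by
        push_cast
        apply Finset.sum_congr rfl
        intro n _
        rw [div_one, e_nat, mul_one]
      rw [this] at h2
      exact_mod_cast h2
    rw [h1, h4, norm_mul, Complex.norm_natCast, Complex.norm_real, Real.norm_eq_abs] at h3
    exact le_of_mul_le_mul_left h3 hPr
  · have h0 : gq F l q = 0 := by
      unfold gq
      apply Finset.sum_eq_zero
      intro D hD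
      rw [if_neg]
      intro h
      exact hqP (h.trans (Finset.prod_dvd_prod_of_subset _ _ _ (hF D hD)))
    rw [h0, abs_zero]
    have h2 := havg 1 one_pos (one_dvd _)
    have h4 : ∑ n ∈ range (pr S), dsum F l n = pr S * gq F l 1 := by
      have : ∑ n ∈ range (pr S), (dsum F l n : ℂ) * e ((n : ℝ) / (1:ℕ))
          = ((∑ n ∈ range (pr S), dsum F l n : ℝ) : ℂ) := by
        push_cast
        apply Finset.sum_congr rfl
        intro n _
        rw [div_one, e_nat, mul_one]
      rw [this] at h2
      exact_mod_cast h2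
    have h5 : 0 ≤ ∑ n ∈ range (pr S), dsum F l n := Finset.sum_nonneg (fun n _ => hpos n)
    rw [h4] at h5
    exact nonneg_of_mul_nonneg_right h5 hPr

/-- exact Fourier coefficients of rough numbers, normalised -/
lemma gq_exact (w q : ℕ) (hq : 0 < q) :
    gq w.primesBelow.powerset sgn q
      = Vp w * (if (pr q.primeFactors = q ∧ q.primeFactors ⊆ w.primesBelow)
          then ∏ p ∈ q.primeFactors, (-1 / ((p : ℝ) - 1)) else 0) := by
  classical
  set S := w.primesBelow with hS
  have hSp : ∀ p ∈ S, p.Prime := fun p hp => Nat.prime_of_mem_primesBelow hp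
  by_cases hcond : pr q.primeFactors = q ∧ q.primeFactors ⊆ S
  · rw [if_pos hcond]
    obtain ⟨hsq, hsub⟩ := hcond
    set Q := q.primeFactors with hQ
    have hQp : ∀ p ∈ Q, p.Prime := fun p hp => Nat.prime_of_mem_primeFactors hp
    have hdiv : ∀ D ∈ S.powerset, (q ∣ pr D ↔ Q ⊆ D) := by
      intro D hD
      have hDS := Finset.mem_powerset.1 hD
      constructor
      · intro h p hp
        have hpp := hQp p hp
        have h1 : p ∣ pr D := (Nat.dvd_of_mem_primeFactors hp).trans h
        obtain ⟨r, hr, hpr⟩ := (hpp.prime.dvd_finsetProd_iff _).1 h1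
        rwa [(Nat.prime_dvd_prime_iff_eq hpp (hSp r (hDS hr))).1 hpr]
      · intro h
        rw [← hsq]
        exact Finset.prod_dvd_prod_of_subset _ _ _ h
    unfold gq
    rw [← Finset.sum_filter]
    have h1 : S.powerset.filter (fun D => q ∣ pr D) = S.powerset.filter (fun D => Q ⊆ D) :=
      Finset.filter_congr hdiv
    rw [h1]
    have h2 : ∑ D ∈ S.powerset.filter (fun D => Q ⊆ D), sgn D / (pr D : ℝ)
        = ∑ E ∈ (S \ Q).powerset, (sgn Q / (pr Q : ℝ)) * (sgn E * ∏ p ∈ E, (1:ℝ) / p) := by
      symm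
      refine Finset.sum_nbij' (fun E => Q ∪ E) (fun D => D \ Q) ?_ ?_ ?_ ?_ ?_
      · intro E hE
        rw [Finset.mem_powerset] at hE
        rw [Finset.mem_filter, Finset.mem_powerset]
        refine ⟨Finset.union_subset hsub (hE.trans Finset.sdiff_subset), Finset.subset_union_left⟩
      · intro D hD
        rw [Finset.mem_filter, Finset.mem_powerset] at hD
        rw [Finset.mem_powerset]
        exact Finset.sdiff_subset_sdiff hD.1 subset_rfl
      · intro E hE
        rw [Finset.mem_powerset] at hE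
        have hd : Disjoint E Q := Finset.disjoint_of_subset_left hE Finset.sdiff_disjoint
        rw [Finset.union_sdiff_left, Finset.sdiff_eq_self_of_disjoint hd]
      · intro D hD
        rw [Finset.mem_filter, Finset.mem_powerset] at hD
        exact Finset.union_sdiff_of_subset hD.2
      · intro E hE
        rw [Finset.mem_powerset] at hE
        have hd : Disjoint Q E := (Finset.disjoint_of_subset_left hE Finset.sdiff_disjoint).symm
        have e1 : sgn (Q ∪ E) = sgn Q * sgn E := by
          unfold sgn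
          rw [Finset.card_union_of_disjoint hd, pow_add]
        have e2 : (pr (Q ∪ E) : ℝ) = pr Q * pr E := by
          unfold pr
          rw [Finset.prod_union hd]
          push_cast
          rfl
        have e3 : ∏ p ∈ E, (1:ℝ) / p = 1 / pr E := by
          unfold pr
          push_cast
          rw [Finset.prod_div_distrib, Finset.prod_const_one]
        rw [e1, e2, e3]
        have h3 : (pr Q : ℝ) ≠ 0 := by
          rw [hsq]; exact_mod_cast hq.ne'
        have h4 : (pr E : ℝ) ≠ 0 := by
          have : 0 < pr E := Finset.prod_pos (fun p hp => (hSp p ((hE.trans Finset.sdiff_subset) hp)).pos)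
          exact_mod_cast this.ne'
        field_simp
    rw [h2, ← Finset.mul_sum, sum_powerset_sgn]
    have h3 : Vp w = (∏ p ∈ S \ Q, (1 - (1:ℝ) / p)) * ∏ p ∈ Q, (1 - (1:ℝ) / p) := by
      unfold Vp
      rw [← hS, Finset.prod_sdiff hsub]
    rw [h3]
    have h4 : (∏ p ∈ Q, (1 - (1:ℝ) / p)) * ∏ p ∈ Q, (-1 / ((p : ℝ) - 1)) = sgn Q / (pr Q : ℝ) := by
      rw [← Finset.prod_mul_distrib]
      have h5 : ∀ p ∈ Q, (1 - (1:ℝ) / p) * (-1 / ((p : ℝ) - 1)) = -(1 / (p:ℝ)) := by
        intro p hp
        have h6 : (1:ℝ) < p := by exact_mod_cast (hQp p hp).one_lt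
        have h7 : (p : ℝ) - 1 ≠ 0 := by linarith
        have h8 : (p : ℝ) ≠ 0 := by linarith
        field_simp
      rw [Finset.prod_congr rfl h5, Finset.prod_neg]
      unfold sgn pr
      push_cast
      rw [Finset.prod_div_distrib, Finset.prod_const_one]
      ring
    rw [mul_assoc, h4]
    ring
  · rw [if_neg hcond, mul_zero]
    unfold gq
    apply Finset.sum_eq_zero
    intro D hD
    rw [if_neg]
    intro h
    apply hcond
    have hDS := Finset.mem_powerset.1 hD
    have hDp : ∀ p ∈ D, p.Prime := fun p hp => hSp p (hDS hp)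
    have hpr0 : pr D ≠ 0 := (Finset.prod_pos (fun p hp => (hDp p hp).pos)).ne'
    have hsqD : Squarefree (pr D) := by
      unfold pr
      rw [Nat.squarefree_iff_prime_squarefree]
      intro p hp hpp
      have h1 : (∏ p ∈ D, p).factorization p ≤ 1 := by
        rw [Nat.factorization_prod (fun x hx => (hDp x hx).ne_zero)]
        rw [Finsupp.coe_finsetSum, Finset.sum_apply]
        have h2 : ∀ x ∈ D, (x.factorization) p = if x = p then 1 else 0 := by
          intro x hx
          rw [(hDp x hx).factorization, Finsupp.single_apply]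
        rw [Finset.sum_congr rfl h2, Finset.sum_ite_eq' D p]
        split_ifs <;> norm_num
      have h3 : 2 ≤ (∏ p ∈ D, p).factorization p := by
        rw [← hp.pow_dvd_iff_le_factorization (by exact hpr0)]
        rw [pow_two]; exact hpp
      omega
    have hsqq : Squarefree q := hsqD.squarefree_of_dvd h
    constructor
    · exact Nat.prod_primeFactors_of_squarefree hsqq
    · intro p hp
      have hpp := Nat.prime_of_mem_primeFactors hp
      have h1 : p ∣ pr D := (Nat.dvd_of_mem_primeFactors hp).trans h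
      obtain ⟨r, hr, hpr⟩ := (hpp.prime.dvd_finsetProd_iff _).1 h1
      rw [(Nat.prime_dvd_prime_iff_eq hpp (hDp r hr)).1 hpr]
      exact hDS hr

/-- comparison of the normalised coefficients at two levels -/
lemma exact_compare (w z q : ℕ) (hwz : w ≤ z) (hw : 2 ≤ w) (hq : 0 < q) :
    |(1 / Vp z) * gq z.primesBelow.powerset sgn q - (1 / Vp w) * gq w.primesBelow.powerset sgn q|
      ≤ 1 / ((w : ℝ) - 1) := by
  have hVz := Vp_pos z
  have hVw := Vp_pos w
  rw [gq_exact z q hq, gq_exact w q hq, ← mul_assoc, ← mul_assoc, one_div_mul_cancel hVz.ne',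
    one_div_mul_cancel hVw.ne', one_mul, one_mul]
  have hw1 : (1:ℝ) ≤ (w : ℝ) - 1 := by
    have : (2:ℝ) ≤ w := by exact_mod_cast hw
    linarith
  have hpos : (0:ℝ) ≤ 1 / ((w : ℝ) - 1) := by positivity
  have hsubwz : w.primesBelow ⊆ z.primesBelow := by
    intro p hp
    rw [Nat.mem_primesBelow] at hp ⊢
    exact ⟨by omega, hp.2⟩
  by_cases h1 : pr q.primeFactors = q
  · by_cases h2 : q.primeFactors ⊆ w.primesBelow
    · rw [if_pos ⟨h1, h2.trans hsubwz⟩, if_pos ⟨h1, h2⟩, sub_self, abs_zero]
      exact hpos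
    · rw [if_neg (fun h : pr q.primeFactors = q ∧ q.primeFactors ⊆ w.primesBelow => h2 h.2),
        sub_zero]
      split_ifs
      · rw [Finset.abs_prod]
        obtain ⟨p0, hp0, hp0'⟩ := Finset.not_subset.1 h2
        have hp0p := Nat.prime_of_mem_primeFactors hp0
        have hp0w : w ≤ p0 := by
          by_contra hlt
          exact hp0' (Nat.mem_primesBelow.2 ⟨by omega, hp0p⟩)
        rw [← Finset.mul_prod_erase _ _ hp0]
        have h3 : ∏ p ∈ q.primeFactors.erase p0, |(-1 / ((p : ℝ) - 1))| ≤ 1 := by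
          apply Finset.prod_le_one
          · intro p _; exact abs_nonneg _
          · intro p hp
            have hpp := Nat.prime_of_mem_primeFactors (Finset.mem_of_mem_erase hp)
            have h4 : (2:ℝ) ≤ p := by exact_mod_cast hpp.two_le
            rw [abs_div, abs_neg, abs_one, abs_of_pos (by linarith)]
            rw [div_le_one (by linarith)]
            linarith
        have h4 : |(-1 / ((p0 : ℝ) - 1))| ≤ 1 / ((w : ℝ) - 1) := by
          have h5 : (w : ℝ) ≤ p0 := by exact_mod_cast hp0w
          rw [abs_div, abs_neg, abs_one, abs_of_pos (by linarith)]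
          apply div_le_div_of_nonneg_left (by norm_num) (by linarith)
          linarith
        calc _ ≤ 1 / ((w : ℝ) - 1) * 1 := mul_le_mul h4 h3
              (Finset.prod_nonneg (fun p _ => abs_nonneg _)) hpos
          _ = _ := mul_one _
      · rw [abs_zero]; exact hpos
  · rw [if_neg (fun h => h1 h.1), if_neg (fun h => h1 h.1), sub_self, abs_zero]
    exact hpos

/-- the sieve function of level `z`, parameter `B` -/
theorem sieve_family (z B : ℕ) (hz : 2 ≤ z) : ∃ (F : Finset (Finset ℕ)) (l : Finset ℕ → ℝ),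
    (∀ D ∈ F, |l D| ≤ 1) ∧ (∀ D ∈ F, 0 < pr D ∧ pr D ≤ z ^ (4 * B + 6)) ∧
    F.card ≤ z ^ (4 * B + 6) ∧
    (∀ n, dsum F l n = Ufun z z.primesBelow B (dvi n)) ∧
    (∀ n, rough z n ≤ dsum F l n) ∧
    (∀ q : ℕ, 0 < q → |(1 / Vp z) * gq F l q - (1 / Vp z) * gq z.primesBelow.powerset sgn q|
      ≤ Real.exp (epsB B) - 1) := by
  classical
  set S := z.primesBelow with hS
  have hSp : ∀ p ∈ S, p.Prime := fun p hp => Nat.prime_of_mem_primesBelow hp
  have hdata : Data z S (fun p => (1:ℝ) / p) :=
    ⟨by omega, hSp, fun p hp => (Nat.mem_primesBelow.1 hp).1, fun p => by positivity,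
      fun p hp => by
        have : (2:ℝ) ≤ p := by exact_mod_cast (hSp p hp).two_le
        rw [div_le_iff₀ (by linarith)]
        linarith,
      fun p hp => by
        apply div_le_div_of_nonneg_right (by norm_num) (by positivity)⟩
  obtain ⟨F, l, h1, h2, h3, h4, h5⟩ := expansion hdata B
  have hds : ∀ n, dsum F l n = Ufun z S B (dvi n) := by
    intro n
    rw [h5]
    unfold dsum
    apply Finset.sum_congr rfl
    intro D hD
    rw [prod_dvi (fun p hp => hSp p (h1 D hD hp))]
  have hrough : ∀ n, rough z n ≤ dsum F l n := by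
    intro n
    rw [hds n]
    exact Ufun_ge (dvi_isInd n) hdata B
  refine ⟨F, l, h2, ?_, h4, hds, hrough, ?_⟩
  · intro D hD
    exact ⟨Finset.prod_pos (fun p hp => (hSp p (h1 D hD hp)).pos), h3 D hD⟩
  · intro q hq
    -- extend to the full power set
    set l' : Finset ℕ → ℝ := fun D => (if D ∈ F then l D else 0) - sgn D with hl'
    have hFsub : F ⊆ S.powerset := fun D hD => Finset.mem_powerset.2 (h1 D hD)
    have e1 : ∀ n, dsum S.powerset l' n = dsum F l n - rough z n := by
      intro n
      rw [rough_eq_dsum]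
      unfold dsum
      rw [← hS, hl']
      simp only [sub_mul]
      rw [Finset.sum_sub_distrib]
      congr 1
      rw [← Finset.sum_subset hFsub]
      · apply Finset.sum_congr rfl
        intro D hD
        rw [if_pos hD]
      · intro D _ hD
        rw [if_neg hD, zero_mul]
    have e2 : ∀ q, gq S.powerset l' q = gq F l q - gq S.powerset sgn q := by
      intro q
      unfold gq
      rw [hl']
      have : ∀ D ∈ S.powerset, (if q ∣ pr D then ((if D ∈ F then l D else 0) - sgn D) / (pr D : ℝ) else 0)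
          = (if D ∈ F then (if q ∣ pr D then l D / (pr D : ℝ) else 0) else 0)
            - (if q ∣ pr D then sgn D / (pr D : ℝ) else 0) := by
        intro D _
        split_ifs <;> ring
      rw [Finset.sum_congr rfl this, Finset.sum_sub_distrib]
      congr 1
      rw [← Finset.sum_filter]
      congr 1
      ext D
      rw [Finset.mem_filter]
      exact ⟨fun h => h.2, fun h => ⟨hFsub h, h⟩⟩
    have hpos : ∀ n, 0 ≤ dsum S.powerset l' n := by
      intro n
      rw [e1]
      linarith [hrough n]
    have h6 := abs_gq_le hSp S.powerset (fun D hD => Finset.mem_powerset.1 hD) l' hpos q hq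
    rw [e2, e2] at h6
    have h7 : gq F l 1 ≤ Vp z * Real.exp (epsB B) := by
      have h8 := Ufun_mean_le hdata B
      rw [h5] at h8
      have h9 : gq F l 1 = ∑ D ∈ F, l D * ∏ p ∈ D, (1:ℝ) / p := by
        unfold gq
        apply Finset.sum_congr rfl
        intro D _
        rw [if_pos (one_dvd _)]
        unfold pr
        push_cast
        rw [Finset.prod_div_distrib, Finset.prod_const_one]
        ring
      rw [h9]
      exact h8
    rw [hS, gq_one_exact z] at h6
    have hV := Vp_pos z
    rw [← mul_sub, abs_mul, abs_of_pos (by positivity)]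
    rw [one_div, inv_mul_le_iff₀ hV]
    rw [hS]
    linarith

end Pool.Agent.Helper71_SP
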